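import Mathlib
import Pool.Agent.H77.IC.Defs

/-!
# MP_f2dc7b: exceptional edges, definitions

Paper: `/team-store/h77_exceptional_edges.md`. An edge of a 4-polytope all of whose facets are
icosahedra is exceptional if the number of facets containing it is not divisible by three.

Part 1: the icosahedron with the twelve vertices `pt i`, its twenty triangles `tv t`, the triangle
`fl t k` on the other side of the edge of `t` opposite to `tv t k` and the position `fk t k` of its
new vertex. A datum `y = (y0, v)` is the affine function `x ↦ y0 + v · x`; `X y i` is its value at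
`pt i`, `C y = 2 y0`. Part 2: the data of two cells glued along a triangle (`Gz`). Part 3: abstract
complexes of icosahedra (`Cx`), flags and walks around an edge, sweeps (`Sw`). Part 4: the
geometric notions of the final statement.
-/

set_option autoImplicit false

open Module

namespace Pool.Agent.H77.EE

/-! ### the icosahedron -/

/-- coordinates of the vertices, `(a, b)` stands for `a + b φ` -/
def zt : Fin 12 → Fin 3 → ℤ × ℤ :=
  ![![(0, 0), (1, 0), (0, 1)], ![(1, 0), (0, 1), (0, 0)], ![(0, 1), (0, 0), (1, 0)],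
    ![(0, 0), (1, 0), (0, -1)], ![(1, 0), (0, -1), (0, 0)], ![(0, -1), (0, 0), (1, 0)],
    ![(0, 0), (-1, 0), (0, 1)], ![(-1, 0), (0, 1), (0, 0)], ![(0, 1), (0, 0), (-1, 0)],
    ![(0, 0), (-1, 0), (0, -1)], ![(-1, 0), (0, -1), (0, 0)], ![(0, -1), (0, 0), (-1, 0)]]

/-- product of `a + b φ` and `c + d φ` -/
def zm (z w : ℤ × ℤ) : ℤ × ℤ :=
  (z.1 * w.1 + z.2 * w.2, z.1 * w.2 + z.2 * w.1 + z.2 * w.2)

/-- inner products: `(2, 1)` equal, `(0, 1)` adjacent, `(0, -1)` distance two, `(-2, -1)` antipodal -/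
def dp (i j : Fin 12) : ℤ × ℤ :=
  zm (zt i 0) (zt j 0) + zm (zt i 1) (zt j 1) + zm (zt i 2) (zt j 2)

/-- adjacent vertices -/
def adj (i j : Fin 12) : Prop := dp i j = (0, 1)

instance (i j : Fin 12) : Decidable (adj i j) := inferInstanceAs (Decidable (dp i j = (0, 1)))

/-- the value of `a + b φ` -/
noncomputable def ev (z : ℤ × ℤ) : ℝ := z.1 + z.2 * Real.goldenRatio

/-- the vertices of the icosahedron -/
noncomputable def pt (i : Fin 12) : Fin 3 → ℝ := fun k => ev (zt i k)

/-- the twenty triangles -/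
def tv : Fin 20 → Fin 3 → Fin 12 :=
  ![![0, 1, 2], ![0, 1, 7], ![0, 2, 6], ![0, 5, 6], ![0, 5, 7], ![1, 2, 8], ![1, 3, 7], ![1, 3, 8],
    ![2, 4, 6], ![2, 4, 8], ![3, 7, 11], ![3, 8, 9], ![3, 9, 11], ![4, 6, 10], ![4, 8, 9],
    ![4, 9, 10], ![5, 6, 10], ![5, 7, 11], ![5, 10, 11], ![9, 10, 11]]

/-- the triangle on the other side of the edge of `t` opposite to `tv t k` -/
def fl : Fin 20 → Fin 3 → Fin 20 :=
  ![![5, 2, 1], ![6, 4, 0], ![8, 3, 0], ![16, 2, 4], ![17, 1, 3], ![9, 7, 0], ![10, 1, 7],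
    ![11, 5, 6], ![13, 2, 9], ![14, 5, 8], ![17, 12, 6], ![14, 12, 7], ![19, 10, 11],
    ![16, 15, 8], ![11, 15, 9], ![19, 13, 14], ![13, 18, 3], ![10, 18, 4], ![19, 17, 16],
    ![18, 12, 15]]

/-- the position in `fl t k` of the vertex which is not in `t` -/
def fk : Fin 20 → Fin 3 → Fin 3 :=
  ![![2, 2, 2], ![1, 1, 2], ![1, 1, 1], ![2, 1, 2], ![2, 1, 2], ![1, 1, 0], ![2, 0, 2], ![2, 1, 2],
    ![2, 0, 2], ![2, 0, 2], ![0, 1, 0], ![0, 2, 0], ![1, 1, 1], ![0, 1, 0], ![0, 2, 0],
    ![2, 1, 1], ![0, 2, 0], ![0, 1, 0], ![0, 1, 1], ![0, 0, 0]]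

/-- data of a cell -/
abbrev D := ℝ × (Fin 3 → ℝ)

/-- value of the datum at the vertex `i` -/
noncomputable def X (y : D) (i : Fin 12) : ℝ := y.1 + y.2 ⬝ᵥ pt i

/-- twice the value at the centre -/
noncomputable def C (y : D) : ℝ := 2 * y.1

/-- sum of the values at the vertices of the triangle `t` -/
noncomputable def St (y : D) (t : Fin 20) : ℝ := ∑ k, X y (tv t k)

/-- sum of the values at the two ends of the edge of `t` opposite to `tv t k` -/
noncomputable def sm (y : D) (t : Fin 20) (k : Fin 3) : ℝ :=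
  X y (tv t (k + 1)) + X y (tv t (k + 2))

/-- state of the datum at the flag `(t, k)` -/
noncomputable def st (y : D) (t : Fin 20) (k : Fin 3) : ℝ × ℝ := (C y, X y (tv t k))

/-- the walk map -/
noncomputable def Wk (s : ℝ) (p : ℝ × ℝ) : ℝ × ℝ :=
  (Real.goldenRatio ^ 3 * s - Real.goldenRatio ^ 2 * p.2,
    (Real.goldenRatio * s + p.1) / Real.goldenRatio ^ 2 - p.2)

/-- positive timelike data -/
def Cone (y : D) : Prop :=
  0 < y.1 ∧ Real.goldenRatio ^ 6 * (y.2 ⬝ᵥ y.2) ≤ (3 * Real.goldenRatio - 1) * y.1 ^ 2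

/-- The data `y`, `z` of two cells glued along the triangle `t` of the first and `t'` of the second
(`p` gives the positions): the values at the three common vertices agree and the sum of the values
`C` is `φ²` times the sum over the triangle. -/
def Gz (t : Fin 20) (y : D) (t' : Fin 20) (p : Fin 3 → Fin 3) (z : D) : Prop :=
  (∀ k, X z (tv t' (p k)) = X y (tv t k)) ∧ C y + C z = Real.goldenRatio ^ 2 * St y t

/-- the flux of the datum `y` through the triangle `t` -/
noncomputable def ph (y : D) (t : Fin 20) : ℝ :=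
  (Real.goldenRatio ^ 2 * St y t - 2 * C y) / (Real.goldenRatio ^ 2 * St y t)

/-! ### complexes of icosahedra -/

/-- A complex of icosahedra: cells `Φ`, vertices `V`; `lab F` labels the vertices of the cell `F`
by the twelve vertices of the icosahedron, `nbr F t` is the cell on the other side of the triangle
`t` of `F`, `tr F t` is the same triangle seen in that cell, `pe F t` gives the positions. -/
structure Cx (Φ V : Type) where
  lab : Φ → Fin 12 → V
  nbr : Φ → Fin 20 → Φ
  tr : Φ → Fin 20 → Fin 20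
  pe : Φ → Fin 20 → Fin 3 → Fin 3
  lab_inj : ∀ F, Function.Injective (lab F)
  nbr_ne : ∀ F t, nbr F t ≠ F
  nbr_inj : ∀ F, Function.Injective (nbr F)
  pe_inj : ∀ F t, Function.Injective (pe F t)
  lab_pe : ∀ F t k, lab (nbr F t) (tv (tr F t) (pe F t k)) = lab F (tv t k)
  uniq : ∀ F t G, G ≠ F → (∀ k, ∃ i, lab G i = lab F (tv t k)) → G = nbr F t
  edge : ∀ F G i j i' j', lab F i = lab G i' → lab F j = lab G j' → adj i j → adj i' j'

/-- flags: cell, triangle, position of the vertex opposite to the edge -/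
abbrev Fg (Φ : Type) := Φ × Fin 20 × Fin 3

namespace Cx

variable {Φ V : Type} (K : Cx Φ V)

/-- `x` is a vertex of the cell `F` -/
def mem (x : V) (F : Φ) : Prop := ∃ i, K.lab F i = x

/-- the triangle `t` of `F` contains `W` -/
def has (W : Set V) (F : Φ) (t : Fin 20) : Prop := ∀ x ∈ W, ∃ k, K.lab F (tv t k) = x

/-- other triangle at the edge of the flag, in the same cell -/
def al (f : Fg Φ) : Fg Φ := (f.1, fl f.2.1 f.2.2, fk f.2.1 f.2.2)

/-- same triangle and edge, other cell -/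
def be (f : Fg Φ) : Fg Φ := (K.nbr f.1 f.2.1, K.tr f.1 f.2.1, K.pe f.1 f.2.1 f.2.2)

/-- one step around the edge -/
def om (f : Fg Φ) : Fg Φ := K.be (al f)

/-- the edge of the flag -/
def ed (f : Fg Φ) : Set V := {x | ∃ j, j ≠ f.2.2 ∧ K.lab f.1 (tv f.2.1 j) = x}

/-- the number of cells containing `e` -/
noncomputable def val (e : Set V) : ℕ := {F : Φ | ∀ x ∈ e, K.mem x F}.ncard

/-- the data `y` of `F` and `z` of `nbr F t` are glued along `t` -/
def Gl (F : Φ) (t : Fin 20) (y z : D) : Prop := Gz t y (K.tr F t) (K.pe F t) z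

/-- `σ` is glued along all triangles containing `W` between cells of `s` -/
def Cons (s : Set Φ) (W : Set V) (σ : Φ → D) : Prop :=
  ∀ F t, F ∈ s → K.nbr F t ∈ s → K.has W F t → K.Gl F t (σ F) (σ (K.nbr F t))

end Cx

/-- A sweep of the complex `K`: `h` is the height, `b F G` the (rescaled) slope of `G` on `F`. -/
structure Sw {Φ V : Type} (K : Cx Φ V) where
  h : Φ → ℝ
  b : Φ → Φ → ℝ
  h_inj : Function.Injective h
  b_neg : ∀ F G, G ≠ F → (b F G < 0 ↔ h G < h F)
  b_inj : ∀ F G G', G ≠ F → G' ≠ F → b F G = b F G' → G = G'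
  lp : ∀ F G t, G ≠ F → ∃ c : Fin 3 → ℝ, (∀ k, 0 ≤ c k) ∧
    (∀ k, K.mem (K.lab F (tv t k)) G → c k = 0) ∧
    b F G - b F (K.nbr F t) = ∑ k, c k * (b F (K.nbr F (fl t k)) - b F (K.nbr F t))

/-! ### the geometric notions -/

open Pool.Agent.H77.IC

/-- The facet `F` of `P` is visible from `z`: `z` is beyond a supporting hyperplane of `P` which
contains `F`. -/
def Visible (P F : Set E4) (z : E4) : Prop :=
  ∃ (a : E4 →L[ℝ] ℝ) (M : ℝ), (∀ y ∈ P, a y ≤ M) ∧ (∀ y ∈ F, a y = M) ∧ M < a z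

/-- the number of facets of `P` -/
noncomputable def f3 (P : Set E4) : ℕ := {F : Set E4 | IsFacet P F}.ncard

/-- the number of facets containing `x` and `y` -/
noncomputable def val (P : Set E4) (x y : E4) : ℕ := {F : Set E4 | IsFacet P F ∧ x ∈ F ∧ y ∈ F}.ncard

/-- `x y` is an edge (of some facet) and the number of facets containing it is not divisible by 3 -/
def Exc (P : Set E4) (x y : E4) : Prop := (∃ F, IsFacet P F ∧ y ∈ nb F x) ∧ ¬ 3 ∣ val P x y

/-- the facets of the hull of `S` -/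
abbrev Fc (S : Finset E4) : Type := {F : Set E4 // IsFacet (convexHull ℝ (S : Set E4)) F}

/-- A labelling of the vertices of `F` by the vertices of the icosahedron. -/
structure Lab (F : Set E4) (lab : Fin 12 → E4) : Prop where
  inj : Function.Injective lab
  range : Set.range lab = F.extremePoints ℝ
  tri : ∀ t : Fin 20, ∃ G : Set E4, IsExposed ℝ F G ∧
    G ∩ F.extremePoints ℝ = {lab (tv t 0), lab (tv t 1), lab (tv t 2)}
  nbs : ∀ i j, adj i j ↔ lab j ∈ nb F (lab i)
  clq : ∀ G : Set E4, IsExposed ℝ F G →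
    (∀ i j, lab i ∈ G → lab j ∈ G → i ≠ j → adj i j) ∨ ∀ i, lab i ∈ G

/-- All the choices for a polytope with icosahedral facets: interior point `o0`, normalised
functionals `a F`, core points `o F`, labels. -/
structure Geo (S : Finset E4) where
  o0 : E4
  a : Fc S → (E4 →ₗ[ℝ] ℝ)
  o : Fc S → E4
  lab : Fc S → Fin 12 → E4
  o0_mem : o0 ∈ interior (convexHull ℝ (S : Set E4))
  a_le : ∀ F, ∀ y ∈ convexHull ℝ (S : Set E4), a F (y - o0) ≤ 1
  a_eq : ∀ F, ∀ y ∈ convexHull ℝ (S : Set E4), (a F (y - o0) = 1 ↔ y ∈ F.1)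
  o_mem : ∀ F, o F ∈ F.1
  o_core : ∀ F, Core F.1 (o F)
  o_lt : ∀ F G, G ≠ F → a G (o F - o0) < 1
  lab_ok : ∀ F, Lab F.1 (lab F)

/-- `mu F H` is the functional `a H - a F`, scaled to the value `-1` at `o F - o0`. -/
noncomputable def Geo.mu {S : Finset E4} (g : Geo S) (F H : Fc S) : E4 →ₗ[ℝ] ℝ :=
  (1 - g.a H (g.o F - g.o0))⁻¹ • (g.a H - g.a F)

end Pool.Agent.H77.EE
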