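import Mathlib
import Pool.Agent.H77.EE.Defs

/-!
# Comb: finite checks for the labelled icosahedron

Everything is a finite check (`decide` / `decide +kernel` after `intro`/`revert`, or through the
twelve neighbour lists). `no4`: no four pairwise adjacent vertices. `tri_of`: three pairwise
adjacent vertices form a triangle of the list. `flag_eq`: an edge is contained in exactly two
triangles, exchanged by `fl`.
-/

set_option autoImplicit false

namespace Pool.Agent.H77.EE

theorem tv_inj (t : Fin 20) : Function.Injective (tv t) := by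
  revert t
  unfold Function.Injective
  decide +kernel

theorem tv_adj {t : Fin 20} {k l : Fin 3} (h : k ≠ l) : adj (tv t k) (tv t l) := by
  revert t k l
  decide +kernel

theorem adj_irrefl (i : Fin 12) : ¬ adj i i := by
  revert i
  decide +kernel

theorem adj_symm {i j : Fin 12} (h : adj i j) : adj j i := by
  revert i j
  decide +kernel

theorem no4 {i j l m : Fin 12} (h1 : adj i j) (h2 : adj i l) (h3 : adj i m) (h4 : adj j l)
    (h5 : adj j m) : ¬ adj l m := by
  revert i j l m
  have key : ∀ i j : Fin 12, adj i j → ∀ l : Fin 12, adj i l → adj j l → ∀ m : Fin 12,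
      adj i m → adj j m → ¬ adj l m := by
    decide +kernel
  intro i j l m h1 h2 h3 h4 h5
  exact key i j h1 l h2 h4 m h3 h5

private theorem comb_tri : ∀ i j : Fin 12, adj i j → ∀ l : Fin 12, adj i l → adj j l →
    ∃ (t : Fin 20), ∃ (a b c : Fin 3), a ≠ b ∧ a ≠ c ∧ b ≠ c ∧ tv t a = i ∧ tv t b = j ∧
      tv t c = l := by
  decide +kernel

/-- three pairwise adjacent vertices form a triangle, with positions `p` -/
theorem tri_of (w : Fin 3 → Fin 12) (h : ∀ k l, k ≠ l → adj (w k) (w l)) :
    ∃ (t : Fin 20) (p : Fin 3 → Fin 3), Function.Injective p ∧ ∀ k, tv t (p k) = w k := by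
  obtain ⟨t, a, b, c, hab, hac, hbc, h1, h2, h3⟩ := comb_tri (w 0) (w 1) (h 0 1 (by decide)) (w 2)
    (h 0 2 (by decide)) (h 1 2 (by decide))
  refine ⟨t, ![a, b, c], ?_, ?_⟩
  · intro x y hxy
    fin_cases x <;> fin_cases y <;> simp_all
  · intro k
    fin_cases k
    · exact h1
    · exact h2
    · exact h3

theorem tv_ext {t t' : Fin 20} (h : ∀ k, ∃ k', tv t' k' = tv t k) : t = t' := by
  revert t t'
  decide +kernel

theorem edge_tri {i j : Fin 12} (h : adj i j) :
    ∃ (t : Fin 20) (k : Fin 3), tv t (k + 1) = i ∧ tv t (k + 2) = j ∨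
      tv t (k + 1) = j ∧ tv t (k + 2) = i := by
  revert i j
  decide +kernel

theorem vertex_tri (i : Fin 12) : ∃ (t : Fin 20) (k : Fin 3), tv t k = i := by
  revert i
  decide +kernel

theorem fl_fl (t : Fin 20) (k : Fin 3) : fl (fl t k) (fk t k) = t := by
  revert t k
  decide +kernel

theorem fk_fk (t : Fin 20) (k : Fin 3) : fk (fl t k) (fk t k) = k := by
  revert t k
  decide +kernel

theorem fl_ne (t : Fin 20) (k : Fin 3) : fl t k ≠ t := by
  revert t k
  decide +kernel

/-- the new vertex of `fl t k` is not in `t` -/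
theorem fl_new (t : Fin 20) (k j : Fin 3) : tv (fl t k) (fk t k) ≠ tv t j := by
  revert t k j
  decide +kernel

/-- the edge of `t` opposite to `tv t k` is the edge of `fl t k` opposite to the new vertex -/
theorem fl_edge {t : Fin 20} {k j : Fin 3} (h : j ≠ k) :
    ∃ j', j' ≠ fk t k ∧ tv (fl t k) j' = tv t j := by
  revert t k j
  decide +kernel

/-- the two flags at an edge -/
theorem flag_eq {t t' : Fin 20} {k k' : Fin 3}
    (h : ∀ j, j ≠ k → ∃ j', j' ≠ k' ∧ tv t' j' = tv t j) :
    (t' = t ∧ k' = k) ∨ (t' = fl t k ∧ k' = fk t k) := by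
  revert t t' k k'
  decide +kernel

/-- fifteen triangles do not contain a given vertex -/
theorem card_avoid (i : Fin 12) :
    (Finset.univ.filter (fun t : Fin 20 => ∀ k, tv t k ≠ i)).card = 15 := by
  revert i
  decide +kernel

end Pool.Agent.H77.EE
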