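import Mathlib
import Pool.Agent.H77.EE.Defs
import Pool.Agent.H77.EE.Comb

/-!
# CxA: elementary properties of complexes

`nbr_nbr`: `uniq` for the cell `nbr F t`, its triangle `tr F t` and the cell `F` (every position is of
the form `pe F t k`, as an injective map of `Fin 3` is surjective). `tr_tr`: the triangles
`tr (nbr F t) (tr F t)` and `t` of `F` (after `nbr_nbr`) have the same vertices (`lab_pe` twice, `lab_inj`),
`tv_ext`. `pe_pe`: `lab_pe` twice, `lab_inj`, `tv_inj`. The rest follows. (When rewriting with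
`nbr_nbr` inside `tr`, `pe`, `lab` use `have := K.lab_pe (K.nbr F t) (K.tr F t) k` and `rw ... at`.)
-/

set_option autoImplicit false

namespace Pool.Agent.H77.EE

variable {Φ V : Type} (K : Cx Φ V)

theorem pe_surj (F : Φ) (t : Fin 20) : Function.Surjective (K.pe F t) :=
  Finite.injective_iff_surjective.mp (K.pe_inj F t)

theorem nbr_nbr (F : Φ) (t : Fin 20) : K.nbr (K.nbr F t) (K.tr F t) = F := by
  refine (K.uniq (K.nbr F t) (K.tr F t) F (K.nbr_ne F t).symm fun k => ?_).symm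
  obtain ⟨j, rfl⟩ := pe_surj K F t k
  exact ⟨tv t j, (K.lab_pe F t j).symm⟩

private theorem CxA_key (F : Φ) (t : Fin 20) (j : Fin 3) :
    tv (K.tr (K.nbr F t) (K.tr F t)) (K.pe (K.nbr F t) (K.tr F t) (K.pe F t j)) = tv t j := by
  have h := K.lab_pe (K.nbr F t) (K.tr F t) (K.pe F t j)
  rw [nbr_nbr, K.lab_pe F t j] at h
  exact K.lab_inj F h

theorem tr_tr (F : Φ) (t : Fin 20) : K.tr (K.nbr F t) (K.tr F t) = t :=
  (tv_ext fun k => ⟨_, CxA_key K F t k⟩).symm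

theorem pe_pe (F : Φ) (t : Fin 20) (k : Fin 3) :
    K.pe (K.nbr F t) (K.tr F t) (K.pe F t k) = k := by
  have h := CxA_key K F t k
  rw [tr_tr] at h
  exact tv_inj t h

theorem al_al (f : Fg Φ) : Cx.al (Cx.al f) = f := by
  obtain ⟨F, t, k⟩ := f
  simp only [Cx.al, fl_fl, fk_fk]

theorem al_ne (f : Fg Φ) : Cx.al f ≠ f := by
  obtain ⟨F, t, k⟩ := f
  intro h
  have h1 := congrArg (fun g : Fg Φ => g.2.1) h
  exact fl_ne t k h1

theorem be_be (f : Fg Φ) : K.be (K.be f) = f := by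
  obtain ⟨F, t, k⟩ := f
  simp only [Cx.be]
  rw [nbr_nbr, tr_tr, pe_pe]

theorem be_ne (f : Fg Φ) : K.be f ≠ f := by
  obtain ⟨F, t, k⟩ := f
  intro h
  have h1 := congrArg (fun g : Fg Φ => g.1) h
  exact K.nbr_ne F t h1

theorem ed_al (f : Fg Φ) : K.ed (Cx.al f) = K.ed f := by
  obtain ⟨F, t, k⟩ := f
  ext x
  constructor
  · rintro ⟨j, hj, hx⟩
    obtain ⟨j', hj', h⟩ := fl_edge (t := fl t k) (k := fk t k) (j := j) hj
    rw [fl_fl, fk_fk] at *
    exact ⟨j', hj', by rw [← hx]; exact congrArg (K.lab F) h⟩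
  · rintro ⟨j, hj, hx⟩
    obtain ⟨j', hj', h⟩ := fl_edge (t := t) (k := k) (j := j) hj
    exact ⟨j', hj', by rw [← hx]; exact congrArg (K.lab F) h⟩

theorem ed_be (f : Fg Φ) : K.ed (K.be f) = K.ed f := by
  obtain ⟨F, t, k⟩ := f
  ext x
  constructor
  · rintro ⟨j, hj, hx⟩
    obtain ⟨j', rfl⟩ := pe_surj K F t j
    refine ⟨j', fun h => hj (by rw [h]; rfl), ?_⟩
    rw [← hx]
    exact (K.lab_pe F t j').symm
  · rintro ⟨j, hj, hx⟩
    refine ⟨K.pe F t j, fun h => hj (K.pe_inj F t h), ?_⟩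
    rw [← hx]
    exact K.lab_pe F t j

theorem ed_om (f : Fg Φ) (n : ℕ) : K.ed (K.om^[n] f) = K.ed f := by
  induction n with
  | zero => rfl
  | succ n ih =>
    rw [Function.iterate_succ_apply']
    have h : K.ed (K.om (K.om^[n] f)) = K.ed (K.om^[n] f) := by
      unfold Cx.om
      rw [ed_be, ed_al]
    rw [h, ih]

theorem has_nbr {W : Set V} {F : Φ} {t : Fin 20} (h : K.has W F t) :
    K.has W (K.nbr F t) (K.tr F t) := by
  intro x hx
  obtain ⟨k, hk⟩ := h x hx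
  exact ⟨K.pe F t k, by rw [K.lab_pe, hk]⟩

theorem mem_of_has {W : Set V} {F : Φ} {t : Fin 20} (h : K.has W F t) {x : V} (hx : x ∈ W) :
    K.mem x F ∧ K.mem x (K.nbr F t) := by
  obtain ⟨k, hk⟩ := h x hx
  exact ⟨⟨_, hk⟩, ⟨tv (K.tr F t) (K.pe F t k), by rw [K.lab_pe, hk]⟩⟩

theorem has_ed (f : Fg Φ) : K.has (K.ed f) f.1 f.2.1 := by
  rintro x ⟨j, _, hx⟩
  exact ⟨j, hx⟩

/-- flipping across an edge containing `W` -/
theorem has_fl {W : Set V} {F : Φ} {t : Fin 20} {k : Fin 3} (h : K.has W F t)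
    (hk : K.lab F (tv t k) ∉ W) : K.has W F (fl t k) ∧ W ⊆ K.ed (F, t, k) := by
  constructor
  · intro x hx
    obtain ⟨j, hj⟩ := h x hx
    have hjk : j ≠ k := by
      rintro rfl
      exact hk (hj ▸ hx)
    obtain ⟨j', _, h2⟩ := fl_edge (t := t) (k := k) (j := j) hjk
    exact ⟨j', by rw [← hj]; exact congrArg (K.lab F) h2⟩
  · intro x hx
    obtain ⟨j, hj⟩ := h x hx
    refine ⟨j, ?_, hj⟩
    rintro rfl
    exact hk (hj ▸ hx)

end Pool.Agent.H77.EE
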