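import Mathlib
import Pool.Agent.H77.EE.Defs
import Pool.Agent.H77.EE.Comb

/-!
# Inv: a datum is determined by its values on a triangle and `C`

Let `m k = pt (tv t k)`. The Gram matrix is `m k · m k = φ + 2`, `m k · m l = φ` (`k ≠ l`, integer
check `dp`). Uniqueness: the difference `v` of the vector parts is orthogonal to the three `m k`;
the determinant of the three vectors is not zero. (For instance: `v = Σ w k m k` has the
coefficients `w k = (v · m k - φ⁻³ Σ v · m l) / 2`; or solve the linear system of the three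
coordinates for the integer coordinates `zt` case by case.) Existence: with `u k = α k - c / 2`,
`U = Σ u k` put `y = (c / 2, Σ w k m k)`, `w k = (u k - U / φ ^ 3) / 2`; then
`v · m k = 2 w k + φ Σ w l = u k - U / φ ^ 3 + φ (U - 3 U / φ ^ 3) / 2 = u k` since
`φ ^ 4 = 3 φ + 2`. Uniqueness can also be proved by `v · m k = 0` for all `k`, hence `v · x = 0` for
all `x` in the span of the `m k`, which is everything (existence: every triple of values is attained).
-/

set_option autoImplicit false

namespace Pool.Agent.H77.EE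

private theorem Inv_ev_add (z w : ℤ × ℤ) : ev (z + w) = ev z + ev w := by
  simp only [ev, Prod.fst_add, Prod.snd_add]
  push_cast
  ring

private theorem Inv_ev_mul (z w : ℤ × ℤ) : ev (zm z w) = ev z * ev w := by
  have h := Real.goldenRatio_sq
  simp only [ev, zm]
  push_cast
  linear_combination (-(z.2 : ℝ) * w.2) * h

private theorem Inv_dp (i j : Fin 12) : pt i ⬝ᵥ pt j = ev (dp i j) := by
  simp only [dotProduct, Fin.sum_univ_three, pt, dp, Inv_ev_add, Inv_ev_mul]

private theorem Inv_self (t : Fin 20) (k : Fin 3) : dp (tv t k) (tv t k) = (2, 1) := by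
  revert t k
  decide +kernel

private theorem Inv_ne (t : Fin 20) (k l : Fin 3) (h : k ≠ l) :
    dp (tv t k) (tv t l) = (0, 1) := tv_adj h

private theorem Inv_gram (t : Fin 20) (k l : Fin 3) :
    pt (tv t k) ⬝ᵥ pt (tv t l) = if k = l then Real.goldenRatio + 2 else Real.goldenRatio := by
  rw [Inv_dp]
  by_cases h : k = l
  · subst h
    rw [Inv_self, if_pos rfl]
    simp only [ev]
    push_cast
    ring
  · rw [Inv_ne t k l h, if_neg h]
    simp only [ev]
    push_cast
    ring

theorem data_exists (t : Fin 20) (α : Fin 3 → ℝ) (c : ℝ) :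
    ∃ y : D, (∀ k, X y (tv t k) = α k) ∧ C y = c := by
  have hφ : 0 < Real.goldenRatio := Real.goldenRatio_pos
  have h3 : (2 : ℝ) + 3 * Real.goldenRatio ≠ 0 := by positivity
  obtain ⟨S, hS⟩ : ∃ S : ℝ, (2 + 3 * Real.goldenRatio) * S =
      (α 0 - c / 2) + (α 1 - c / 2) + (α 2 - c / 2) := by
    refine ⟨((α 0 - c / 2) + (α 1 - c / 2) + (α 2 - c / 2)) / (2 + 3 * Real.goldenRatio), ?_⟩
    rw [mul_div_cancel₀ _ h3]
  -- the coefficients
  refine ⟨(c / 2, ∑ k, ((α k - c / 2 - Real.goldenRatio * S) / 2) • pt (tv t k)), ?_, ?_⟩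
  · intro l
    simp only [X]
    rw [sum_dotProduct]
    simp only [smul_dotProduct, Inv_gram, smul_eq_mul, Fin.sum_univ_three]
    fin_cases l <;> simp <;> linear_combination (-Real.goldenRatio / 2) * hS
  · simp only [C]
    ring

theorem data_unique {y z : D} (t : Fin 20) (h : ∀ k, X y (tv t k) = X z (tv t k))
    (hC : C y = C z) : y = z := by
  have hφ : 0 < Real.goldenRatio := Real.goldenRatio_pos
  have h1 : y.1 = z.1 := by
    simp only [C] at hC
    linarith
  have hv : ∀ k, pt (tv t k) ⬝ᵥ (y.2 - z.2) = 0 := by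
    intro k
    have := h k
    simp only [X] at this
    rw [h1] at this
    rw [dotProduct_comm, sub_dotProduct]
    linarith
  let M : Matrix (Fin 3) (Fin 3) ℝ := Matrix.of fun k => pt (tv t k)
  have hG : ∀ k l, (M * M.transpose) k l =
      if k = l then Real.goldenRatio + 2 else Real.goldenRatio := by
    intro k l
    rw [← Inv_gram t k l]
    rfl
  have hdet : (M * M.transpose).det = 8 + 12 * Real.goldenRatio := by
    rw [Matrix.det_fin_three]
    simp only [hG]
    simp
    ring
  have hM : M.det ≠ 0 := by
    intro h0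
    rw [Matrix.det_mul, h0, zero_mul] at hdet
    linarith
  have h2 : y.2 - z.2 = 0 := by
    apply Matrix.eq_zero_of_mulVec_eq_zero hM
    funext k
    exact hv k
  exact Prod.ext h1 (sub_eq_zero.mp h2)

end Pool.Agent.H77.EE
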