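import Mathlib
import Pool.Agent.H77.EE.Defs
import Pool.Agent.H77.EE.Comb
import Pool.Agent.H77.EE.Inv

/-!
# GzM: gluing of data

`p` injective on `Fin 3` is a bijection (`Finite.injective_iff_bijective`), so the sum of the values
over the triangle `t'` is the sum over `t` (`Function.Bijective.sum_comp` or `Equiv.sum_comp`).
Existence and uniqueness: `data_exists`, `data_unique` for the triangle `t'` (values
`α (p k) = X y (tv t k)`, `c = φ² St y t - C y`).
-/

set_option autoImplicit false

namespace Pool.Agent.H77.EE

theorem St_gz {t t' : Fin 20} {p : Fin 3 → Fin 3} {y z : D} (hp : Function.Injective p)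
    (h : Gz t y t' p z) : St z t' = St y t := by
  have hb : Function.Bijective p := Finite.injective_iff_bijective.mp hp
  unfold St
  rw [← hb.sum_comp (fun k => X z (tv t' k))]
  exact Finset.sum_congr rfl fun k _ => h.1 k

theorem gz_symm {t t' : Fin 20} {p q : Fin 3 → Fin 3} {y z : D} (hp : Function.Injective p)
    (hq : ∀ k, q (p k) = k) (h : Gz t y t' p z) : Gz t' z t q y := by
  have hb : Function.Bijective p := Finite.injective_iff_bijective.mp hp
  refine ⟨fun k => ?_, ?_⟩
  · obtain ⟨j, rfl⟩ := hb.2 k
    rw [hq]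
    exact (h.1 j).symm
  · rw [St_gz hp h, add_comm]
    exact h.2

theorem gz_exists {t t' : Fin 20} {p : Fin 3 → Fin 3} (hp : Function.Injective p) (y : D) :
    ∃ z, Gz t y t' p z := by
  have hb : Function.Bijective p := Finite.injective_iff_bijective.mp hp
  obtain ⟨z, hz1, hz2⟩ := data_exists t' (fun j => X y (tv t ((Equiv.ofBijective p hb).symm j)))
    (Real.goldenRatio ^ 2 * St y t - C y)
  refine ⟨z, fun k => ?_, ?_⟩
  · rw [hz1 (p k)]
    have h1 : (Equiv.ofBijective p hb).symm (p k) = k :=
      (Equiv.ofBijective p hb).symm_apply_apply k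
    simp only [h1]
  · rw [hz2]
    ring

theorem gz_unique {t t' : Fin 20} {p : Fin 3 → Fin 3} {y z z' : D} (hp : Function.Injective p)
    (h : Gz t y t' p z) (h' : Gz t y t' p z') : z = z' := by
  have hb : Function.Bijective p := Finite.injective_iff_bijective.mp hp
  refine data_unique t' (fun k => ?_) ?_
  · obtain ⟨j, rfl⟩ := hb.2 k
    rw [h.1 j, h'.1 j]
  · have h1 := h.2
    have h2 := h'.2
    linarith

end Pool.Agent.H77.EE
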