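import Mathlib
import Pool.Agent.H77.EE.Defs
import Pool.Agent.H77.EE.Comb
import Pool.Agent.H77.EE.GzM

/-!
# Cone: the positive timelike cone is preserved by gluing

Put `u k = v · pt (tv t k)`, `U = Σ u k`, `Q = Σ (u k)²`, `n = v · v`. Then (Gram matrix `φ + 2`, `φ`;
`v` is a combination of the three vectors, see `Inv`) `n = (Q - φ⁻³ U²) / 2` (`norm_eq`: integer
check; the inverse Gram matrix). So for `X k = y0 + u k`, `S = St y t`, `P = Σ (X k)²`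
`φ⁶ n - (3 φ - 1) y0² = C² - φ² C S + (φ⁶ / 2) P - (φ³ / 2) S²` (`form_eq`; coefficients:
`φ⁶ - 3 φ³ - 2 φ² = 0`, `4 - 6 φ² + (3/2) φ⁶ - (9/2) φ³ = 1 - 3 φ`). The right side does not
change if `C` is replaced by `φ² S - C`; `P` and `S` are the same for `z` and `t'`. So the second
condition is preserved. `C_pos`: the value `φ² S - C` of the other cell is positive: `S = 3 y0 + U`,
`U² ≤ (9 φ + 6) n` (Cauchy-Schwarz, `|m|² = 9 φ + 6` for the sum `m` of the three vectors; or from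
`norm_eq` and `U² ≤ 3 Q`), `(9 φ + 6) (3 φ - 1) / φ⁶ < 5` and `φ² (3 y0 + U) > 2 y0` as soon as
`U > - √5 y0` (`3 - 2 / φ² = √5 = 2 φ - 1`). Also `U² < 5 y0²` gives `S > 0`.
-/

set_option autoImplicit false

namespace Pool.Agent.H77.EE

private theorem cone_core (f n A0 A1 A2 B0 B1 B2 u0 u1 u2 : ℝ) (hf : f ^ 2 = f + 1)
    (h0 : u0 = A0 + B0 * f) (h1 : u1 = A1 + B1 * f) (h2 : u2 = A2 + B2 * f)
    (hP : 2 * n - (A0 ^ 2 + B0 ^ 2 + A1 ^ 2 + B1 ^ 2 + A2 ^ 2 + B2 ^ 2) -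
      2 * (2 * A0 * B0 + B0 ^ 2 + 2 * A1 * B1 + B1 ^ 2 + 2 * A2 * B2 + B2 ^ 2) +
      (A0 + A1 + A2) ^ 2 + (B0 + B1 + B2) ^ 2 = 0)
    (hQ : 4 * n - 2 * (A0 ^ 2 + B0 ^ 2 + A1 ^ 2 + B1 ^ 2 + A2 ^ 2 + B2 ^ 2) -
      3 * (2 * A0 * B0 + B0 ^ 2 + 2 * A1 * B1 + B1 ^ 2 + 2 * A2 * B2 + B2 ^ 2) +
      2 * (A0 + A1 + A2) * (B0 + B1 + B2) + (B0 + B1 + B2) ^ 2 = 0) :
    f ^ 3 * (2 * n) = f ^ 3 * (u0 ^ 2 + u1 ^ 2 + u2 ^ 2) - (u0 + u1 + u2) ^ 2 := by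
  have hf3 : f ^ 3 = 2 * f + 1 := by
    have : f ^ 3 = f * f ^ 2 := by ring
    rw [this, hf]
    linear_combination hf
  rw [hf3, h0, h1, h2]
  linear_combination hP + f * hQ + (-(2 * f + 1) * (B0 ^ 2 + B1 ^ 2 + B2 ^ 2) +
    (B0 + B1 + B2) ^ 2 - 2 * (2 * A0 * B0 + B0 ^ 2 + 2 * A1 * B1 + B1 ^ 2 + 2 * A2 * B2 + B2 ^ 2)) * hf

theorem norm_eq (v : Fin 3 → ℝ) (t : Fin 20) :
    Real.goldenRatio ^ 3 * (2 * (v ⬝ᵥ v)) =
      Real.goldenRatio ^ 3 * (∑ k, (v ⬝ᵥ pt (tv t k)) ^ 2) - (∑ k, v ⬝ᵥ pt (tv t k)) ^ 2 := by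
  have hu : ∀ i : Fin 12, v ⬝ᵥ pt i = (v 0 * (zt i 0).1 + v 1 * (zt i 1).1 + v 2 * (zt i 2).1) +
      (v 0 * (zt i 0).2 + v 1 * (zt i 1).2 + v 2 * (zt i 2).2) * Real.goldenRatio := by
    intro i
    simp only [dotProduct, Fin.sum_univ_three, pt, ev]
    ring
  rw [Fin.sum_univ_three, Fin.sum_univ_three]
  refine cone_core _ _ _ _ _ _ _ _ _ _ _ Real.goldenRatio_sq (hu _) (hu _) (hu _) ?_ ?_
  · fin_cases t <;> simp [dotProduct, Fin.sum_univ_three, tv, zt] <;> ring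
  · fin_cases t <;> simp [dotProduct, Fin.sum_univ_three, tv, zt] <;> ring

theorem form_eq (y : D) (t : Fin 20) :
    Real.goldenRatio ^ 6 * (y.2 ⬝ᵥ y.2) - (3 * Real.goldenRatio - 1) * y.1 ^ 2 =
      C y ^ 2 - Real.goldenRatio ^ 2 * C y * St y t +
        Real.goldenRatio ^ 6 / 2 * ∑ k, X y (tv t k) ^ 2 -
        Real.goldenRatio ^ 3 / 2 * St y t ^ 2 := by
  have hn := norm_eq y.2 t
  simp only [St, X, C, Fin.sum_univ_three] at hn ⊢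
  generalize y.2 ⬝ᵥ pt (tv t 0) = u0 at hn ⊢
  generalize y.2 ⬝ᵥ pt (tv t 1) = u1 at hn ⊢
  generalize y.2 ⬝ᵥ pt (tv t 2) = u2 at hn ⊢
  generalize y.2 ⬝ᵥ y.2 = n at hn ⊢
  have hf : Real.goldenRatio ^ 2 = Real.goldenRatio + 1 := Real.goldenRatio_sq
  generalize Real.goldenRatio = f at hn hf ⊢
  have hf3 : f ^ 3 = 2 * f + 1 := by
    have : f ^ 3 = f * f ^ 2 := by ring
    rw [this, hf]
    linear_combination hf
  have hf6 : f ^ 6 = 8 * f + 5 := by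
    have : f ^ 6 = (f ^ 3) ^ 2 := by ring
    rw [this, hf3]
    linear_combination 4 * hf
  have h1 : f ^ 6 * n = (f ^ 6 * (u0 ^ 2 + u1 ^ 2 + u2 ^ 2) - f ^ 3 * (u0 + u1 + u2) ^ 2) / 2 := by
    have h2 : f ^ 6 * n = f ^ 3 / 2 * (f ^ 3 * (2 * n)) := by ring
    rw [h2, hn]
    ring
  rw [h1, hf6, hf3, hf]
  ring

private theorem cone_bound (f n y0 u0 u1 u2 : ℝ) (hf : f ^ 2 = f + 1) (h1 : 1 < f) (hy : 0 < y0)
    (hn : f ^ 3 * (2 * n) = f ^ 3 * (u0 ^ 2 + u1 ^ 2 + u2 ^ 2) - (u0 + u1 + u2) ^ 2)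
    (hc : f ^ 6 * n ≤ (3 * f - 1) * y0 ^ 2) :
    0 < 3 * y0 + (u0 + u1 + u2) ∧ 2 * y0 < f ^ 2 * (3 * y0 + (u0 + u1 + u2)) := by
  have hf3 : f ^ 3 = 2 * f + 1 := by
    have : f ^ 3 = f * f ^ 2 := by ring
    rw [this, hf]
    linear_combination hf
  have hf6 : f ^ 6 = 8 * f + 5 := by
    have : f ^ 6 = (f ^ 3) ^ 2 := by ring
    rw [this, hf3]
    linear_combination 4 * hf
  rw [hf3] at hn
  rw [hf6] at hc
  have hcs : (u0 + u1 + u2) ^ 2 ≤ 3 * (u0 ^ 2 + u1 ^ 2 + u2 ^ 2) := by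
    nlinarith [sq_nonneg (u0 - u1), sq_nonneg (u0 - u2), sq_nonneg (u1 - u2)]
  generalize u0 ^ 2 + u1 ^ 2 + u2 ^ 2 = q at hn hcs
  generalize u0 + u1 + u2 = U at hn hcs ⊢
  have h2 : (f - 1) * U ^ 2 ≤ 3 * (2 * f + 1) * n := by
    have h3 : (2 * f + 1) * U ^ 2 ≤ (2 * f + 1) * (3 * q) :=
      mul_le_mul_of_nonneg_left hcs (by linarith)
    linarith [h3, hn]
  have h3 : (8 * f + 5) * ((f - 1) * U ^ 2) ≤ (8 * f + 5) * (3 * (2 * f + 1) * n) :=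
    mul_le_mul_of_nonneg_left h2 (by linarith)
  have h4 : 3 * (2 * f + 1) * ((8 * f + 5) * n) ≤ 3 * (2 * f + 1) * ((3 * f - 1) * y0 ^ 2) :=
    mul_le_mul_of_nonneg_left hc (by linarith)
  have h5 : (5 * f + 3) * U ^ 2 ≤ (21 * f + 15) * y0 ^ 2 := by
    have e1 : (8 * f + 5) * ((f - 1) * U ^ 2) = (5 * f + 3) * U ^ 2 := by
      linear_combination (8 * U ^ 2) * hf
    have e2 : 3 * (2 * f + 1) * ((3 * f - 1) * y0 ^ 2) = (21 * f + 15) * y0 ^ 2 := by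
      linear_combination (18 * y0 ^ 2) * hf
    have e3 : (8 * f + 5) * (3 * (2 * f + 1) * n) = 3 * (2 * f + 1) * ((8 * f + 5) * n) := by ring
    rw [e1, e3] at h3
    rw [e2] at h4
    exact h3.trans h4
  have hy2 : 0 < y0 ^ 2 := by positivity
  have h6 : (5 * f + 3) * U ^ 2 < (5 * f + 3) * (5 * y0 ^ 2) := by
    nlinarith
  have h7 : U ^ 2 < 5 * y0 ^ 2 := lt_of_mul_lt_mul_left h6 (by linarith)
  have h8 : ((2 * f - 1) * y0) ^ 2 = 5 * y0 ^ 2 := by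
    linear_combination (4 * y0 ^ 2) * hf
  have h9 : 0 < (2 * f - 1) * y0 := mul_pos (by linarith) hy
  have h10 : |U| < (2 * f - 1) * y0 := by
    rw [← h8] at h7
    exact abs_lt_of_sq_lt_sq h7 h9.le
  have h11 : -((2 * f - 1) * y0) < U := (abs_lt.1 h10).1
  have h12 : f < 2 := by nlinarith
  constructor
  · nlinarith
  · have e4 : f ^ 2 * (3 * y0 + U) - 2 * y0 = (f + 1) * (U + (2 * f - 1) * y0) := by
      linear_combination (3 * y0 + U - 2 * y0) * hf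
    have h13 : 0 < (f + 1) * (U + (2 * f - 1) * y0) := mul_pos (by linarith) (by linarith)
    linarith

theorem C_pos {y : D} (h : Cone y) (t : Fin 20) :
    0 < St y t ∧ C y < Real.goldenRatio ^ 2 * St y t := by
  obtain ⟨h0, h1⟩ := h
  have hn := norm_eq y.2 t
  rw [Fin.sum_univ_three, Fin.sum_univ_three] at hn
  have h2 := cone_bound _ _ y.1 _ _ _ Real.goldenRatio_sq Real.one_lt_goldenRatio h0 hn h1
  have h3 : St y t = 3 * y.1 + (y.2 ⬝ᵥ pt (tv t 0) + y.2 ⬝ᵥ pt (tv t 1) +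
      y.2 ⬝ᵥ pt (tv t 2)) := by
    simp only [St, X, Fin.sum_univ_three]
    ring
  rw [h3, C]
  exact h2

theorem cone_gz {t t' : Fin 20} {p : Fin 3 → Fin 3} {y z : D} (hp : Function.Injective p)
    (h : Gz t y t' p z) (hy : Cone y) : Cone z := by
  have hS := St_gz hp h
  obtain ⟨hS1, hS2⟩ := C_pos hy t
  obtain ⟨hk, hC⟩ := h
  have hb : Function.Bijective p := Finite.injective_iff_bijective.1 hp
  have hP : ∑ k, X z (tv t' k) ^ 2 = ∑ k, X y (tv t k) ^ 2 := by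
    rw [← hb.sum_comp (fun k => X z (tv t' k) ^ 2)]
    exact Finset.sum_congr rfl fun k _ => by rw [hk]
  have hz := form_eq z t'
  have hy' := form_eq y t
  have hy2 := hy.2
  rw [hS, hP] at hz
  have hCz : C z = Real.goldenRatio ^ 2 * St y t - C y := by linarith
  constructor
  · have : C z = 2 * z.1 := rfl
    have h2 : 0 < C z := by linarith
    linarith
  · have h3 : Real.goldenRatio ^ 6 * (z.2 ⬝ᵥ z.2) - (3 * Real.goldenRatio - 1) * z.1 ^ 2 =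
        Real.goldenRatio ^ 6 * (y.2 ⬝ᵥ y.2) - (3 * Real.goldenRatio - 1) * y.1 ^ 2 := by
      rw [hz, hy', hCz]
      ring
    linarith

end Pool.Agent.H77.EE
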