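import Mathlib
import Pool.Agent.H77.EE.Defs
import Pool.Agent.H77.EE.Comb
import Pool.Agent.H77.EE.GzM
import Pool.Agent.H77.EE.Cone

/-!
# PhiA: bound and antisymmetry of the flux

`r = (φ² St - C) / C` is the quotient of the values `C` of the other cell and of this cell.
`r_low`: `r ≥ 22 / 125`: `r = (3 φ + 1) / 2 + (φ² / 2) (U / y0)` with `U² ≤ (9 φ + 6) n`
(`n = v · v`, see `Cone`) and `φ⁶ n ≤ (3 φ - 1) y0²`; so
`((φ² / 2) U / y0)² ≤ φ⁴ (9 φ + 6) (3 φ - 1) / (4 φ⁶) = (45 φ + 25) (9 φ + 6) ... = 7.5676`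
(exactly `ch² - 1` for `ch = (3 φ + 1) / 2 = 2.92705`), the square root is `2.75094`, and
`2.92705 - 2.75094 = 0.17611 > 0.176`. Use rational bounds for `φ` (`1.6180 < φ < 1.6181`; more digits
if necessary). `ph = (r - 1) / (r + 1)`. `phi_gz`: `C z = φ² St - C y` and `St z = St y`. `phi_abs`: for
`y` the value `r ≥ 22 / 125` gives `ph ≥ - 103 / 147`; for the other cell (`cone_gz` with `t' = t`, `p = id`)
the value is the inverse, which gives the upper bound.
-/

set_option autoImplicit false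

namespace Pool.Agent.H77.EE

private theorem phiA_bound : Real.goldenRatio < 80903 / 50000 := by
  have h : Real.sqrt 5 < 55903 / 25000 := by
    rw [Real.sqrt_lt' (by norm_num)]
    norm_num
  unfold Real.goldenRatio
  linarith

private theorem phiA_low : 8 / 5 < Real.goldenRatio := by
  have h : (11 / 5 : ℝ) < Real.sqrt 5 := by
    rw [Real.lt_sqrt (by norm_num)]
    norm_num
  unfold Real.goldenRatio
  linarith

theorem r_low {y : D} (h : Cone y) (t : Fin 20) :
    (1 + 22 / 125) * C y ≤ Real.goldenRatio ^ 2 * St y t := by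
  obtain ⟨h0, h1⟩ := h
  have hb := phiA_bound
  have hl := phiA_low
  have hsq : Real.goldenRatio ^ 2 = Real.goldenRatio + 1 := Real.goldenRatio_sq
  have hn := norm_eq y.2 t
  have hSt : St y t = 3 * y.1 + ∑ k, y.2 ⬝ᵥ pt (tv t k) := by
    unfold St X
    rw [Finset.sum_add_distrib, Finset.sum_const, Finset.card_univ, Fintype.card_fin,
      nsmul_eq_mul]
    norm_num
  have hQ : (∑ k, y.2 ⬝ᵥ pt (tv t k)) ^ 2 ≤ 3 * ∑ k, (y.2 ⬝ᵥ pt (tv t k)) ^ 2 := by
    rw [Fin.sum_univ_three, Fin.sum_univ_three]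
    nlinarith [sq_nonneg (y.2 ⬝ᵥ pt (tv t 0) - y.2 ⬝ᵥ pt (tv t 1)),
      sq_nonneg (y.2 ⬝ᵥ pt (tv t 0) - y.2 ⬝ᵥ pt (tv t 2)),
      sq_nonneg (y.2 ⬝ᵥ pt (tv t 1) - y.2 ⬝ᵥ pt (tv t 2))]
  rw [hSt]
  unfold C
  generalize (∑ k, y.2 ⬝ᵥ pt (tv t k)) = U at hn hQ
  generalize (∑ k, (y.2 ⬝ᵥ pt (tv t k)) ^ 2) = Q at hn hQ
  generalize (y.2 ⬝ᵥ y.2) = n at hn h1
  generalize y.1 = a at h0 h1
  generalize Real.goldenRatio = g at hb hl hsq hn h1
  have h3 : g ^ 3 = 2 * g + 1 := by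
    have : g ^ 3 = g * g ^ 2 := by ring
    rw [this, hsq]
    linear_combination hsq
  have h6 : g ^ 6 = 8 * g + 5 := by
    have : g ^ 6 = (g ^ 3) ^ 2 := by ring
    rw [this, h3]
    linear_combination 4 * hsq
  rw [h3] at hn
  rw [h6] at h1
  -- `U ^ 2 ≤ (9 g + 6) n`
  have hU1 : (2 * g - 2) * U ^ 2 ≤ 6 * (2 * g + 1) * n := by
    have h4 : 0 ≤ (2 * g + 1) * (3 * Q - U ^ 2) := by
      apply mul_nonneg <;> linarith
    nlinarith
  have hU2 : U ^ 2 ≤ (9 * g + 6) * n := by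
    have h4 := mul_le_mul_of_nonneg_left hU1 (by linarith : (0 : ℝ) ≤ g / 2)
    have h5 : g / 2 * ((2 * g - 2) * U ^ 2) = U ^ 2 := by
      linear_combination U ^ 2 * hsq
    have h7 : g / 2 * (6 * (2 * g + 1) * n) = (9 * g + 6) * n := by
      linear_combination 6 * n * hsq
    rw [h5, h7] at h4
    exact h4
  -- `U ^ 2 ≤ (12 g - 15) a ^ 2`
  have hU3 : U ^ 2 ≤ (12 * g - 15) * a ^ 2 := by
    have h4 := mul_le_mul_of_nonneg_left h1 (by linarith : (0 : ℝ) ≤ 6 - 3 * g)
    have h5 : (6 - 3 * g) * ((8 * g + 5) * n) = (9 * g + 6) * n := by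
      linear_combination (-24 * n) * hsq
    have h7 : (6 - 3 * g) * ((3 * g - 1) * a ^ 2) = (12 * g - 15) * a ^ 2 := by
      linear_combination (-9 * a ^ 2) * hsq
    rw [h5, h7] at h4
    exact hU2.trans h4
  have hU4 : U ^ 2 ≤ ((294 / 125 * g - 213 / 125) * a) ^ 2 := by
    have h4 : 12 * g - 15 ≤ (294 / 125 * g - 213 / 125) ^ 2 := by
      have h5 : (294 / 125 * g - 213 / 125) ^ 2 =
          (294 / 125) ^ 2 * (g + 1) - 2 * (294 / 125) * (213 / 125) * g + (213 / 125) ^ 2 := by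
        linear_combination (294 / 125) ^ 2 * hsq
      rw [h5]
      linarith
    have h5 := mul_le_mul_of_nonneg_right h4 (sq_nonneg a)
    rw [mul_pow]
    linarith
  have hpos : 0 ≤ (294 / 125 * g - 213 / 125) * a := by
    apply mul_nonneg <;> linarith
  have hU5 := (abs_le_of_sq_le_sq' hU4 hpos).1
  rw [hsq]
  have h8 := mul_le_mul_of_nonneg_left hU5 (by linarith : (0 : ℝ) ≤ g + 1)
  have h9 : (g + 1) * -((294 / 125 * g - 213 / 125) * a) =
      -((294 / 125 * (g + 1) + (294 - 213) / 125 * g - 213 / 125) * a) := by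
    linear_combination (-(294 / 125) * a) * hsq
  rw [h9] at h8
  linarith

theorem phi_gz {t t' : Fin 20} {p : Fin 3 → Fin 3} {y z : D} (hp : Function.Injective p)
    (h : Gz t y t' p z) : ph z t' = - ph y t := by
  have h1 := St_gz hp h
  have h2 : C z = Real.goldenRatio ^ 2 * St y t - C y := by linarith [h.2]
  unfold ph
  rw [h1, h2, ← neg_div]
  congr 1
  ring

theorem phi_abs {y : D} (h : Cone y) (t : Fin 20) : |ph y t| ≤ 103 / 147 := by
  have h1 := r_low h t
  have hC : 0 < C y := by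
    unfold C
    linarith [h.1]
  have hD : 0 < Real.goldenRatio ^ 2 * St y t := by linarith
  obtain ⟨z, hz⟩ := gz_exists (t := t) (t' := t) (p := id) Function.injective_id y
  have hcz := cone_gz Function.injective_id hz h
  have h2 := r_low hcz t
  rw [St_gz Function.injective_id hz] at h2
  have h3 := hz.2
  unfold ph
  rw [abs_le]
  constructor
  · rw [le_div_iff₀ hD]
    linarith
  · rw [div_le_iff₀ hD]
    linarith

end Pool.Agent.H77.EE
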