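import Mathlib
import Pool.Agent.H77.EE.Defs
import Pool.Agent.H77.EE.CxA
import Pool.Agent.H77.EE.GzM
import Pool.Agent.H77.EE.Cone
import Pool.Agent.H77.EE.PhiA

/-!
# GlM: gluing in a complex

From `GzM`, `Cone`, `PhiA` with `p = K.pe F t`, `q = K.pe (nbr F t) (tr F t)` (`pe_inj`, `pe_pe`,
`nbr_nbr`, `tr_tr`). `gl_exists'`, `gl_unique'` are `gl_exists`, `gl_unique` for the flag on the other
side through `gl_symm`.
-/

set_option autoImplicit false

namespace Pool.Agent.H77.EE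

variable {Φ V : Type} (K : Cx Φ V) {F : Φ} {t : Fin 20} {y z y' z' : D}

theorem gl_symm (h : K.Gl F t y z) : K.Gl (K.nbr F t) (K.tr F t) z y := by
  have h1 := gz_symm (K.pe_inj F t) (pe_pe K F t) h
  unfold Cx.Gl
  rw [tr_tr]
  exact h1

theorem gl_symm' (h : K.Gl (K.nbr F t) (K.tr F t) z y) : K.Gl F t y z := by
  unfold Cx.Gl at h
  rw [tr_tr] at h
  refine gz_symm (K.pe_inj (K.nbr F t) (K.tr F t)) (fun k => ?_) h
  obtain ⟨j, hj⟩ := pe_surj K F t k
  rw [← hj, pe_pe K F t j]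

theorem gl_exists (F : Φ) (t : Fin 20) (y : D) : ∃ z, K.Gl F t y z :=
  gz_exists (K.pe_inj F t) y

theorem gl_exists' (F : Φ) (t : Fin 20) (z : D) : ∃ y, K.Gl F t y z := by
  obtain ⟨y, hy⟩ := gl_exists K (K.nbr F t) (K.tr F t) z
  exact ⟨y, gl_symm' K hy⟩

theorem gl_unique (h : K.Gl F t y z) (h' : K.Gl F t y z') : z = z' :=
  gz_unique (K.pe_inj F t) h h'

theorem gl_unique' (h : K.Gl F t y z) (h' : K.Gl F t y' z) : y = y' :=
  gl_unique K (gl_symm K h) (gl_symm K h')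

theorem gl_cone (h : K.Gl F t y z) (hy : Cone y) : Cone z :=
  cone_gz (K.pe_inj F t) h hy

theorem gl_phi (h : K.Gl F t y z) : ph z (K.tr F t) = - ph y t :=
  phi_gz (K.pe_inj F t) h

end Pool.Agent.H77.EE
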