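import Mathlib
import Pool.Agent.H77.EE.Defs
import Pool.Agent.H77.EE.CxA

/-!
# SwA: descent along triangles

`low_exists` (T1): among the triangles `t` of `F` containing `W` take one with `b F (nbr F t)`
minimal. If `b F (nbr F t) ≤ b F G` then it is negative, done. Otherwise `lp` for `G` and `t` gives
`b F G - b F (nbr F t) < 0`, so some `c k > 0` with `b F (nbr F (fl t k)) < b F (nbr F t)`; `c k ≠ 0`
gives `lab F (tv t k)` not in `G`, so not in `W`, and `fl t k` contains `W` (`has_fl`): contradiction.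
`low_const` (T2): let `t0` be a minimal one as before; every lower triangle `t` containing `W` has
`E t = E t0`, by induction on the (finitely many) values `b F (nbr F t)`: if
`b F (nbr F t) = b F (nbr F t0)` then `t = t0` by `b_inj`, `nbr_inj`; otherwise `lp` with `G = nbr F t0`
gives `k` with `b F (nbr F (fl t k)) < b F (nbr F t) < 0`, `lab F (tv t k)` not in `nbr F t0`, so not in
`W`; use `hE` and the induction hypothesis. `edge_low` (T3): put `β t = b F (nbr F t)`. `lp` for `G`, `t`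
has only the term `k`: `b F G = (1 - c) β t + c β (fl t k)`, `c ≥ 0`. `lp` for `G` and the flag
`(fl t k, fk t k)` (`fl_fl`, `fl_edge`) gives `b F G = c' β t + (1 - c') β (fl t k)`, `c' ≥ 0`. As
`β t ≠ β (fl t k)` (`b_inj`, `nbr_inj`, `fl_ne`), `c' = 1 - c`, so `b F G` is a convex combination of two
negative numbers.
-/

set_option autoImplicit false

namespace Pool.Agent.H77.EE

variable {Φ V : Type} {K : Cx Φ V} (w : Sw K)

/-- the slope at the neighbour across `t` -/
private def swa_be (F : Φ) (t : Fin 20) : ℝ := w.b F (K.nbr F t)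

private lemma swa_neg {F : Φ} {t : Fin 20} : swa_be w F t < 0 ↔ w.h (K.nbr F t) < w.h F :=
  w.b_neg F (K.nbr F t) (K.nbr_ne F t)

private lemma swa_inj {F : Φ} {t t' : Fin 20} (h : swa_be w F t = swa_be w F t') : t = t' :=
  K.nbr_inj F (w.b_inj F _ _ (K.nbr_ne F t) (K.nbr_ne F t') h)

private lemma swa_down {F G : Φ} {t : Fin 20} (hGF : G ≠ F) (h : w.b F G < swa_be w F t) :
    ∃ k, ¬ K.mem (K.lab F (tv t k)) G ∧ swa_be w F (fl t k) < swa_be w F t := by
  obtain ⟨c, hc, hc0, hs⟩ := w.lp F G t hGF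
  by_contra hcon
  push Not at hcon
  have h1 : 0 ≤ ∑ k, c k * (w.b F (K.nbr F (fl t k)) - w.b F (K.nbr F t)) := by
    refine Finset.sum_nonneg fun k _ => ?_
    by_cases hk : K.mem (K.lab F (tv t k)) G
    · rw [hc0 k hk, zero_mul]
    · exact mul_nonneg (hc k) (sub_nonneg.mpr (hcon k hk))
  rw [← hs] at h1
  have h2 : w.b F G < w.b F (K.nbr F t) := h
  linarith

private lemma swa_min {W : Set V} {F : Φ} (h0 : ∃ t, K.has W F t) :
    ∃ t, K.has W F t ∧ ∀ t', K.has W F t' → swa_be w F t ≤ swa_be w F t' := by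
  classical
  obtain ⟨t, ht, hmin⟩ := Finset.exists_min_image (Finset.univ.filter fun t => K.has W F t)
    (swa_be w F) (by
      obtain ⟨t, ht⟩ := h0
      exact ⟨t, Finset.mem_filter.mpr ⟨Finset.mem_univ _, ht⟩⟩)
  exact ⟨t, (Finset.mem_filter.mp ht).2, fun t' ht' =>
    hmin t' (Finset.mem_filter.mpr ⟨Finset.mem_univ _, ht'⟩)⟩

theorem low_exists {W : Set V} {F G : Φ} (h0 : ∃ t, K.has W F t) (hG : ∀ x ∈ W, K.mem x G)
    (hGF : w.h G < w.h F) : ∃ t, K.has W F t ∧ w.h (K.nbr F t) < w.h F := by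
  obtain ⟨t, ht, hmin⟩ := swa_min w h0
  have hne : G ≠ F := by
    rintro rfl
    exact lt_irrefl _ hGF
  refine ⟨t, ht, (swa_neg w).mp ?_⟩
  rcases le_or_gt (swa_be w F t) (w.b F G) with h1 | h1
  · exact lt_of_le_of_lt h1 ((w.b_neg F G hne).mpr hGF)
  · exfalso
    obtain ⟨k, hk, hlt⟩ := swa_down w hne h1
    have h2 := (has_fl K ht (k := k) (fun hmem => hk (hG _ hmem))).1
    exact absurd (hmin _ h2) (not_le.mpr hlt)

theorem low_const {T : Type} {W : Set V} {F : Φ} (E : Fin 20 → T)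
    (hE : ∀ t k, K.has W F t → K.lab F (tv t k) ∉ W → w.h (K.nbr F t) < w.h F →
      w.h (K.nbr F (fl t k)) < w.h F → E t = E (fl t k))
    {t t' : Fin 20} (h : K.has W F t) (h' : K.has W F t') (hl : w.h (K.nbr F t) < w.h F)
    (hl' : w.h (K.nbr F t') < w.h F) : E t = E t' := by
  classical
  obtain ⟨t0, ht0, hmin⟩ := swa_min w ⟨t, h⟩
  have key : ∀ n : ℕ, ∀ s : Fin 20,
      (Finset.univ.filter fun r => swa_be w F r < swa_be w F s).card ≤ n → K.has W F s →
      swa_be w F s < 0 → E s = E t0 := by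
    intro n
    induction n with
    | zero =>
      intro s hs hW _
      have h1 : swa_be w F s ≤ swa_be w F t0 := by
        by_contra hcon
        push Not at hcon
        have h2 : t0 ∈ Finset.univ.filter fun r => swa_be w F r < swa_be w F s :=
          Finset.mem_filter.mpr ⟨Finset.mem_univ _, hcon⟩
        have h3 := Finset.card_pos.mpr ⟨t0, h2⟩
        omega
      rw [swa_inj w (le_antisymm h1 (hmin s hW))]
    | succ n ih =>
      intro s hs hW hneg
      rcases eq_or_lt_of_le (hmin s hW) with h1 | h1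
      · rw [swa_inj w h1]
      · have hne : K.nbr F t0 ≠ F := K.nbr_ne F t0
        obtain ⟨k, hk, hlt⟩ := swa_down w hne h1
        have hkW : K.lab F (tv s k) ∉ W := fun hmem => hk (mem_of_has K ht0 hmem).2
        have h2 := (has_fl K hW hkW).1
        rw [hE s k hW hkW ((swa_neg w).mp hneg) ((swa_neg w).mp (hlt.trans hneg))]
        refine ih (fl s k) ?_ h2 (hlt.trans hneg)
        have h3 : (Finset.univ.filter fun r => swa_be w F r < swa_be w F (fl s k)).card <
            (Finset.univ.filter fun r => swa_be w F r < swa_be w F s).card := by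
          apply Finset.card_lt_card
          rw [Finset.ssubset_iff_of_subset]
          · exact ⟨fl s k, Finset.mem_filter.mpr ⟨Finset.mem_univ _, hlt⟩, fun hmem =>
              lt_irrefl _ (Finset.mem_filter.mp hmem).2⟩
          · intro r hr
            exact Finset.mem_filter.mpr ⟨Finset.mem_univ _,
              ((Finset.mem_filter.mp hr).2).trans hlt⟩
        omega
  rw [key _ t le_rfl h ((swa_neg w).mpr hl), key _ t' le_rfl h' ((swa_neg w).mpr hl')]

theorem edge_low {F G : Φ} {t : Fin 20} {k : Fin 3} (hl : w.h (K.nbr F t) < w.h F)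
    (hl' : w.h (K.nbr F (fl t k)) < w.h F) (hGF : G ≠ F)
    (hG : ∀ x ∈ K.ed (F, t, k), K.mem x G) : w.h G < w.h F := by
  obtain ⟨c, hc, hc0, hs⟩ := w.lp F G t hGF
  obtain ⟨c', hc', hc0', hs'⟩ := w.lp F G (fl t k) hGF
  have e1 : w.b F G - w.b F (K.nbr F t) =
      c k * (w.b F (K.nbr F (fl t k)) - w.b F (K.nbr F t)) := by
    rw [hs]
    refine Finset.sum_eq_single k (fun j _ hj => ?_) (fun h => absurd (Finset.mem_univ k) h)
    rw [hc0 j (hG _ ⟨j, hj, rfl⟩), zero_mul]
  have e2 : w.b F G - w.b F (K.nbr F (fl t k)) =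
      c' (fk t k) * (w.b F (K.nbr F t) - w.b F (K.nbr F (fl t k))) := by
    rw [hs']
    have h1 : w.b F (K.nbr F t) = w.b F (K.nbr F (fl (fl t k) (fk t k))) := by rw [fl_fl]
    rw [h1]
    refine Finset.sum_eq_single (fk t k) (fun j _ hj => ?_)
      (fun h => absurd (Finset.mem_univ _) h)
    obtain ⟨j', hj', hj2⟩ := fl_edge (t := fl t k) hj
    rw [fk_fk] at hj'
    rw [fl_fl] at hj2
    rw [hc0' j (hG _ ⟨j', hj', by rw [← hj2]⟩), zero_mul]
  have n1 : w.b F (K.nbr F t) < 0 := (w.b_neg F _ (K.nbr_ne F t)).mpr hl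
  have n2 : w.b F (K.nbr F (fl t k)) < 0 := (w.b_neg F _ (K.nbr_ne F _)).mpr hl'
  apply (w.b_neg F G hGF).mp
  obtain ⟨x, hx⟩ : ∃ x, x = w.b F (K.nbr F t) := ⟨_, rfl⟩
  obtain ⟨y, hy⟩ : ∃ y, y = w.b F (K.nbr F (fl t k)) := ⟨_, rfl⟩
  obtain ⟨g, hg⟩ : ∃ g, g = w.b F G := ⟨_, rfl⟩
  rw [← hx, ← hy, ← hg] at e1 e2
  rw [← hx] at n1
  rw [← hy] at n2
  rw [← hg]
  have a1 := hc k
  have a2 := hc' (fk t k)
  by_cases hxy : y = x
  · rw [hxy, sub_self, mul_zero] at e1
    linarith
  · have h1 : (y - x) * (c k + c' (fk t k) - 1) = 0 := by linarith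
    have h2 : c k + c' (fk t k) - 1 = 0 := by
      rcases mul_eq_zero.mp h1 with h | h
      · exact absurd (sub_eq_zero.mp h) hxy
      · exact h
    have h3 : c' (fk t k) = 1 - c k := by linarith
    have h4 : g = (1 - c k) * x + c k * y := by linarith
    rw [h3] at a2
    rw [h4]
    rcases eq_or_lt_of_le a1 with h5 | h5
    · rw [← h5]
      linarith
    · have h6 := mul_neg_of_pos_of_neg h5 n2
      have h7 := mul_nonpos_of_nonneg_of_nonpos a2 n1.le
      linarith

end Pool.Agent.H77.EE
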