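import Mathlib
import Pool.Agent.H77.EE.Defs
import Pool.Agent.H77.EE.CxA
import Pool.Agent.H77.EE.GlM
import Pool.Agent.H77.EE.SwA

/-!
# ConeD: the development of a positive datum is positive

Strong induction on the height: if `F ≠ F0` then `h F0 < h F`, `low_exists` with `W = ∅` (`has ∅ F t` is
trivially true) gives `t` with `G = nbr F t` lower than `F`, so `G ∈ s`, `Cone (σ G)` and
`gl_symm`, `gl_cone`.
-/

set_option autoImplicit false

namespace Pool.Agent.H77.EE

theorem cone_dev {Φ V : Type} [Finite Φ] (K : Cx Φ V) (w : Sw K) {s : Set Φ} {σ : Φ → D}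
    (hs : ∀ F ∈ s, ∀ G, w.h G < w.h F → G ∈ s) (hc : K.Cons s ∅ σ) {F0 : Φ}
    (hmin : ∀ G, w.h F0 ≤ w.h G) (h0 : Cone (σ F0)) : ∀ F ∈ s, Cone (σ F) := by
  have wf : WellFounded (fun F G : Φ => w.h F < w.h G) := by
    haveI : IsTrans Φ (fun F G : Φ => w.h F < w.h G) := ⟨fun _ _ _ h1 h2 => h1.trans h2⟩
    haveI : Std.Irrefl (fun F G : Φ => w.h F < w.h G) := ⟨fun _ h => lt_irrefl _ h⟩
    exact Finite.wellFounded_of_trans_of_irrefl _
  refine fun F => wf.induction (C := fun F => F ∈ s → Cone (σ F)) F ?_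
  intro F ih hF
  by_cases hFF : F = F0
  · rw [hFF]
    exact h0
  · have hlt : w.h F0 < w.h F := lt_of_le_of_ne (hmin F) fun h => hFF (w.h_inj h).symm
    obtain ⟨t, _, hl⟩ := low_exists w (W := (∅ : Set V)) (F := F) (G := F0)
      ⟨0, fun x hx => absurd hx (Set.notMem_empty x)⟩ (fun x hx => absurd hx (Set.notMem_empty x)) hlt
    have hG : K.nbr F t ∈ s := hs F hF _ hl
    have hgl := hc F t hF hG (fun x hx => absurd hx (Set.notMem_empty x))
    exact gl_cone K (gl_symm K hgl) (ih _ hl hG)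

end Pool.Agent.H77.EE
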