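import Mathlib
import Pool.Agent.H77.EE.Defs
import Pool.Agent.H77.EE.Comb
import Pool.Agent.H77.EE.CxA

/-!
# FlagE: the two flags of a cell at an edge

`flag_of`: `ed f = ed g` in the same cell; by `lab_inj` the vertices `tv f.2.1 j`, `j ≠ f.2.2` are the
vertices `tv g.2.1 j'`, `j' ≠ g.2.2`: `flag_eq`. `flag_exists`: the two vertices of `ed f` are
`lab f.1 i`, `lab f.1 j` with `adj i j` (`tv_adj`; the two positions different from `f.2.2`), they are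
`lab G i'`, `lab G j'`, `adj i' j'` by `edge`; `edge_tri`.
-/

set_option autoImplicit false

namespace Pool.Agent.H77.EE

variable {Φ V : Type} (K : Cx Φ V)

private theorem FlagE_fin : ∀ k j : Fin 3, j ≠ k → j = k + 1 ∨ j = k + 2 := by
  decide

private theorem FlagE_ne : ∀ k : Fin 3, k + 1 ≠ k ∧ k + 2 ≠ k ∧ k + 1 ≠ k + 2 := by
  decide

private theorem FlagE_ed (F : Φ) (t : Fin 20) (k : Fin 3) :
    K.ed (F, t, k) = {K.lab F (tv t (k + 1)), K.lab F (tv t (k + 2))} := by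
  ext x
  constructor
  · rintro ⟨j, hj, rfl⟩
    rcases FlagE_fin k j hj with h | h
    · left
      rw [← h]
    · right
      rw [← h]
      rfl
  · rintro (h | h)
    · exact ⟨k + 1, (FlagE_ne k).1, h.symm⟩
    · exact ⟨k + 2, (FlagE_ne k).2.1, h.symm⟩

theorem flag_of {f g : Fg Φ} (h : K.ed f = K.ed g) (hF : f.1 = g.1) : g = f ∨ g = Cx.al f := by
  obtain ⟨F, t, k⟩ := f
  obtain ⟨G, t', k'⟩ := g
  have hF' : F = G := hF
  subst hF'
  have h1 : (t' = t ∧ k' = k) ∨ (t' = fl t k ∧ k' = fk t k) := by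
    refine flag_eq fun j hj => ?_
    have h2 : K.lab F (tv t j) ∈ K.ed (F, t', k') := by
      rw [← h]
      exact ⟨j, hj, rfl⟩
    obtain ⟨j', hj', h3⟩ := h2
    exact ⟨j', hj', K.lab_inj F h3⟩
  rcases h1 with ⟨rfl, rfl⟩ | ⟨rfl, rfl⟩
  · left
    rfl
  · right
    rfl

theorem flag_exists (f : Fg Φ) {G : Φ} (h : ∀ x ∈ K.ed f, K.mem x G) :
    ∃ g : Fg Φ, g.1 = G ∧ K.ed g = K.ed f := by
  obtain ⟨F, t, k⟩ := f
  rw [FlagE_ed] at h ⊢
  obtain ⟨i', hi⟩ := h _ (Or.inl rfl)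
  obtain ⟨j', hj⟩ := h _ (Or.inr rfl)
  have h1 : adj i' j' := K.edge F G _ _ i' j' hi.symm hj.symm (tv_adj (FlagE_ne k).2.2)
  obtain ⟨t', k', h2⟩ := edge_tri h1
  refine ⟨(G, t', k'), rfl, ?_⟩
  rw [FlagE_ed]
  rcases h2 with ⟨h3, h4⟩ | ⟨h3, h4⟩
  · rw [h3, h4, hi, hj]
  · rw [h3, h4, hi, hj, Set.pair_comm]

theorem mem_ed (f : Fg Φ) : ∀ x ∈ K.ed f, K.mem x f.1 := by
  rintro x ⟨j, hj, h⟩
  exact ⟨tv f.2.1 j, h⟩

end Pool.Agent.H77.EE
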