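import Mathlib
import Pool.Agent.H77.EE.Defs
import Pool.Agent.H77.EE.CxA
import Pool.Agent.H77.EE.SwA
import Pool.Agent.H77.EE.FlagE

/-!
# Conn: the cells at an edge are connected

Let `F0` be the cell containing the edge `e = ed f` with minimal height (finite, nonempty). Claim: if
`T` is a set of flags with edge `e`, closed under `al` and `be`, nonempty, then `T` contains all flags
of `F0` with edge `e`. Take a flag `g ∈ T` with minimal `w.h g.1`; if `g.1 ≠ F0` then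
`low_exists` with `W = e` (`has_ed`; `h_inj`) gives a triangle `t ⊇ e` of `g.1` with lower neighbour; a
flag `(g.1, t, k)` with edge `e` exists (`t` contains the two points of `e`; `k` is the third position)
and is `g` or `al g` (`flag_of`), so in `T`, and `be` of it is in `T` and lower (`ed_be`): contradiction. Then
`flag_of` gives both flags of `F0`. Apply the claim to `T = {g ∈ S | ed g = e}` and to
`T' = {g | ed g = e, g ∉ S}` (closed, by `al_al`, `be_be`): if `T'` is nonempty both contain the flags of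
`F0`, contradiction.
-/

set_option autoImplicit false

namespace Pool.Agent.H77.EE

private lemma Conn_fin (i j : Fin 3) (h : i ≠ j) :
    ∃ k : Fin 3, i ≠ k ∧ j ≠ k ∧ ∀ l, l ≠ k → l = i ∨ l = j := by
  revert i j
  decide

private lemma Conn_fin2 (k : Fin 3) :
    ∃ i j : Fin 3, i ≠ j ∧ i ≠ k ∧ j ≠ k ∧ ∀ l, l ≠ k → l = i ∨ l = j := by
  revert k
  decide

private lemma Conn_flag {Φ V : Type} (K : Cx Φ V) (g : Fg Φ) (t : Fin 20)
    (h : K.has (K.ed g) g.1 t) : ∃ k, K.ed (g.1, t, k) = K.ed g := by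
  obtain ⟨i, j, hij, hik, hjk, hl⟩ := Conn_fin2 g.2.2
  have hp : K.lab g.1 (tv g.2.1 i) ∈ K.ed g := ⟨i, hik, rfl⟩
  have hq : K.lab g.1 (tv g.2.1 j) ∈ K.ed g := ⟨j, hjk, rfl⟩
  obtain ⟨kp, hkp⟩ := h _ hp
  obtain ⟨kq, hkq⟩ := h _ hq
  have hne : kp ≠ kq := by
    rintro rfl
    rw [hkp] at hkq
    exact hij (tv_inj _ (K.lab_inj _ hkq))
  obtain ⟨k, h1, h2, h3⟩ := Conn_fin kp kq hne
  refine ⟨k, Set.ext fun x => ⟨?_, ?_⟩⟩
  · rintro ⟨l, hlk, rfl⟩
    rcases h3 l hlk with rfl | rfl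
    · change K.lab g.1 (tv t l) ∈ K.ed g
      rw [hkp]
      exact hp
    · change K.lab g.1 (tv t l) ∈ K.ed g
      rw [hkq]
      exact hq
  · rintro ⟨l, hlk, rfl⟩
    rcases hl l hlk with rfl | rfl
    · exact ⟨kp, h1, hkp⟩
    · exact ⟨kq, h2, hkq⟩

private lemma Conn_claim {Φ V : Type} [Finite Φ] (K : Cx Φ V) (w : Sw K) (e : Set V) (F₀ : Φ)
    (h₀ : ∀ x ∈ e, K.mem x F₀) (hm : ∀ F, (∀ x ∈ e, K.mem x F) → w.h F₀ ≤ w.h F)
    (T : Set (Fg Φ)) (hT : ∀ g ∈ T, K.ed g = e) (hne : T.Nonempty) (ha : ∀ g ∈ T, Cx.al g ∈ T)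
    (hb : ∀ g ∈ T, K.be g ∈ T) {g₀ : Fg Φ} (hg₀ : g₀.1 = F₀) (he₀ : K.ed g₀ = e) : g₀ ∈ T := by
  obtain ⟨g, hgT, hgm⟩ := Set.exists_min_image T (fun g => w.h g.1) (Set.toFinite T) hne
  have hge := hT g hgT
  have hgF : g.1 = F₀ := by
    by_contra hcon
    have hmem : ∀ x ∈ e, K.mem x g.1 := by
      have h := mem_ed K g
      rwa [hge] at h
    have hlt : w.h F₀ < w.h g.1 :=
      lt_of_le_of_ne (hm g.1 hmem) fun h => hcon (w.h_inj h).symm
    have hh : K.has e g.1 g.2.1 := by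
      have h := has_ed K g
      rwa [hge] at h
    obtain ⟨t, ht1, ht2⟩ := low_exists w (W := e) (F := g.1) (G := F₀) ⟨g.2.1, hh⟩ h₀ hlt
    rw [← hge] at ht1
    obtain ⟨k, hk⟩ := Conn_flag K g t ht1
    have h1 : ((g.1, t, k) : Fg Φ) ∈ T := by
      rcases flag_of K (f := g) (g := (g.1, t, k)) hk.symm rfl with h | h
      · rw [h]
        exact hgT
      · rw [h]
        exact ha g hgT
    have h2 := hgm _ (hb _ h1)
    exact absurd ht2 (not_lt.2 h2)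
  rcases flag_of K (f := g) (g := g₀) (hge.trans he₀.symm) (hgF.trans hg₀.symm) with h | h
  · rw [h]
    exact hgT
  · rw [h]
    exact ha g hgT

theorem conn {Φ V : Type} [Finite Φ] (K : Cx Φ V) (w : Sw K) (f : Fg Φ) (S : Set (Fg Φ))
    (hf : f ∈ S) (ha : ∀ g ∈ S, Cx.al g ∈ S) (hb : ∀ g ∈ S, K.be g ∈ S) {g : Fg Φ}
    (hg : K.ed g = K.ed f) : g ∈ S := by
  obtain ⟨F₀, h₀, hm⟩ := Set.exists_min_image {F : Φ | ∀ x ∈ K.ed f, K.mem x F} w.h
    (Set.toFinite _) ⟨f.1, mem_ed K f⟩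
  obtain ⟨g₀, hg₀, he₀⟩ := flag_exists K f h₀
  have h1 : g₀ ∈ {g : Fg Φ | g ∈ S ∧ K.ed g = K.ed f} := by
    refine Conn_claim K w (K.ed f) F₀ h₀ (fun F hF => hm F hF)
      {g : Fg Φ | g ∈ S ∧ K.ed g = K.ed f} (fun g hg => hg.2)
      ⟨f, hf, rfl⟩ (fun g hg => ⟨ha g hg.1, ?_⟩) (fun g hg => ⟨hb g hg.1, ?_⟩) hg₀ he₀
    · rw [ed_al]
      exact hg.2
    · rw [ed_be]
      exact hg.2
  by_contra hcon
  have h2 : g₀ ∈ {g : Fg Φ | g ∉ S ∧ K.ed g = K.ed f} := by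
    refine Conn_claim K w (K.ed f) F₀ h₀ (fun F hF => hm F hF)
      {g : Fg Φ | g ∉ S ∧ K.ed g = K.ed f} (fun g hg => hg.2)
      ⟨g, hcon, hg⟩ (fun g hg => ⟨fun h => hg.1 ?_, ?_⟩) (fun g hg => ⟨fun h => hg.1 ?_, ?_⟩)
      hg₀ he₀
    · have h3 := ha _ h
      rwa [al_al] at h3
    · rw [ed_al]
      exact hg.2
    · have h3 := hb _ h
      rwa [be_be] at h3
    · rw [ed_be]
      exact hg.2
  exact h2.1 h1.1

end Pool.Agent.H77.EE
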