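import Mathlib

/-!
# CycL: two fixed point free involutions

`A` finite, `a`, `b` fixed point free involutions of `A`, `fac` has the fibres `{x, a x}`, every
nonempty subset closed under `a` and `b` is everything. Put `ω = b ∘ a`, `O = {ω^[i] x}`. As `ω` is a
bijection of a finite set, `O` is closed under the inverse `a ∘ b` and `ω^[n] x = x` for `n = |O|`, with
`ω^[i] x`, `i < n` distinct. `a O` and `O` are disjoint: `a` and `b` invert `ω` (`a ω^[i] y = (a b)^[i] a y`), so
`a x = ω^[i] x` (integer powers; use the permutation `ω : Equiv.Perm A` and `zpow`) gives for `i = 2 j` the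
fixed point `ω^j x` of `a` and for `i = 2 j + 1` the fixed point `ω^(j+1) x` of `b` (`b = ω a`). `O ∪ a O`
is closed under `a` and `b` (`b y = ω (a y)`, `b (a y) = ω y`), so it is `A`. So `fac` is injective on `O`
(`fac y = fac z` gives `z = y` or `z = a y`, the latter is in `a O`) and `fac O = fac A`
(`fac (a y) = fac y`): `n` is the number of values of `fac`.
-/

set_option autoImplicit false

namespace Pool.Agent.H77.EE

theorem cyc {A B : Type} [Finite A] (fac : A → B) (a b : A → A) (ha : ∀ x, a (a x) = x)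
    (hb : ∀ x, b (b x) = x) (ha' : ∀ x, a x ≠ x) (hb' : ∀ x, b x ≠ x)
    (hf : ∀ x y, fac x = fac y ↔ (y = x ∨ y = a x))
    (hc : ∀ S : Set A, S.Nonempty → (∀ x ∈ S, a x ∈ S) → (∀ x ∈ S, b x ∈ S) → S = Set.univ)
    (x : A) :
    (fun y => b (a y))^[(Set.range fac).ncard] x = x ∧
      ∀ i, 0 < i → i < (Set.range fac).ncard → fac ((fun y => b (a y))^[i] x) ≠ fac x := by
  classical
  let P : Equiv.Perm A := Function.Involutive.toPerm a ha
  let Q : Equiv.Perm A := Function.Involutive.toPerm b hb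
  let w : Equiv.Perm A := Q * P
  have hPP : P * P = 1 := Equiv.ext ha
  have hQQ : Q * Q = 1 := Equiv.ext hb
  have hPi : P⁻¹ = P := inv_eq_of_mul_eq_one_left hPP
  have hQi : Q⁻¹ = Q := inv_eq_of_mul_eq_one_left hQQ
  have hwi : w⁻¹ = P * Q := by
    change (Q * P)⁻¹ = P * Q
    rw [mul_inv_rev, hPi, hQi]
  have hPw : ∀ k : ℤ, P * w ^ k = w ^ (-k) * P := by
    intro k
    have h1 : P * w * P⁻¹ = w⁻¹ := by
      rw [hwi]
      change P * (Q * P) * P⁻¹ = P * Q
      rw [mul_assoc, mul_assoc, mul_inv_cancel, mul_one]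
    have h2 : (P * w * P⁻¹) ^ k = P * w ^ k * P⁻¹ := conj_zpow
    rw [h1, inv_zpow, ← zpow_neg] at h2
    rw [h2, inv_mul_cancel_right]
  have hPw' : ∀ (k : ℤ) (y : A), a ((w ^ k) y) = (w ^ (-k)) (a y) := fun k y =>
    congrArg (fun g : Equiv.Perm A => g y) (hPw k)
  have hQ : Q = w * P := by
    change Q = Q * P * P
    rw [mul_assoc, hPP, mul_one]
  have hQ' : ∀ y : A, b y = w (a y) := fun y => congrArg (fun g : Equiv.Perm A => g y) hQ
  have hadd : ∀ (k l : ℤ) (y : A), (w ^ k) ((w ^ l) y) = (w ^ (k + l)) y := by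
    intro k l y
    rw [zpow_add, Equiv.Perm.mul_apply]
  have hone : ∀ (k : ℤ) (y : A), w ((w ^ k) y) = (w ^ (1 + k)) y := by
    intro k y
    have := hadd 1 k y
    rwa [zpow_one] at this
  -- the two halves are disjoint
  have hD : ∀ (k : ℤ) (y : A), a y ≠ (w ^ k) y := by
    intro k y h
    obtain ⟨j, hj⟩ := Int.even_or_odd' k
    rcases hj with hj | hj
    · apply ha' ((w ^ j) y)
      rw [hPw', h, hadd, hj]
      congr 2
      ring
    · apply hb' ((w ^ (j + 1)) y)
      rw [hQ', hPw', h, hadd, hone, hj]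
      congr 2
      ring
  let O : Set A := Set.range fun k : ℤ => (w ^ k) x
  have huniv : O ∪ a '' O = Set.univ := by
    refine hc _ ⟨x, Or.inl ⟨0, by simp⟩⟩ ?_ ?_
    · rintro y (hy | ⟨z, hz, rfl⟩)
      · exact Or.inr ⟨y, hy, rfl⟩
      · rw [ha]
        exact Or.inl hz
    · rintro y (⟨k, rfl⟩ | ⟨z, ⟨k, rfl⟩, rfl⟩)
      · refine Or.inr ⟨(w ^ (k - 1)) x, ⟨k - 1, rfl⟩, ?_⟩
        change a ((w ^ (k - 1)) x) = b ((w ^ k) x)
        rw [hQ', hPw', hPw', hone]
        congr 2
        ring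
      · refine Or.inl ⟨1 + k, ?_⟩
        change (w ^ (1 + k)) x = b (a ((w ^ k) x))
        rw [hQ', ha, hone]
  have hfa : ∀ y, fac (a y) = fac y := fun y => ((hf y (a y)).2 (Or.inr rfl)).symm
  have hrange : Set.range fac = fac '' O := by
    ext c
    constructor
    · rintro ⟨y, rfl⟩
      have hy : y ∈ O ∪ a '' O := by
        rw [huniv]
        exact Set.mem_univ y
      rcases hy with hy | ⟨z, hz, rfl⟩
      · exact ⟨y, hy, rfl⟩
      · exact ⟨z, hz, (hfa z).symm⟩
    · rintro ⟨y, -, rfl⟩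
      exact ⟨y, rfl⟩
  have hinj : Set.InjOn fac O := by
    rintro y ⟨k, rfl⟩ z ⟨l, rfl⟩ h
    rcases (hf _ _).1 h with h1 | h1
    · exact h1.symm
    · exfalso
      apply hD (l - k) ((w ^ k) x)
      rw [hadd, sub_add_cancel]
      exact h1.symm
  set n : ℕ := Function.minimalPeriod w x with hn
  have hcard : (Set.range fac).ncard = n := by
    rw [hrange, hinj.ncard_image]
    let _ : Fintype (MulAction.orbit (Subgroup.zpowers w) x) := Fintype.ofFinite _
    have h1 : Function.minimalPeriod (fun y => w • y) x =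
        Fintype.card (MulAction.orbit (Subgroup.zpowers w) x) := MulAction.minimalPeriod_eq_card w x
    have h2 : O = MulAction.orbit (Subgroup.zpowers w) x := by
      ext y
      constructor
      · rintro ⟨k, rfl⟩
        exact ⟨⟨w ^ k, k, rfl⟩, rfl⟩
      · rintro ⟨⟨g, k, rfl⟩, rfl⟩
        exact ⟨k, rfl⟩
    have h3 : n = Fintype.card (MulAction.orbit (Subgroup.zpowers w) x) := h1
    rw [h3, h2, ← Nat.card_eq_fintype_card]
    rfl
  have hit : ∀ i : ℕ, (fun y => b (a y))^[i] x = (w^[i]) x := fun i => rfl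
  rw [hcard]
  refine ⟨?_, fun i hi hin h => ?_⟩
  · rw [hit]
    exact Function.iterate_minimalPeriod
  · rw [hit, Equiv.Perm.iterate_eq_pow] at h
    rcases (hf _ _).1 h with h1 | h1
    · have h2 : Function.IsPeriodicPt w i x := by
        rw [Function.IsPeriodicPt, Function.IsFixedPt, Equiv.Perm.iterate_eq_pow]
        exact h1.symm
      exact absurd (Function.IsPeriodicPt.minimalPeriod_le hi h2) (not_le.2 hin)
    · apply hD (-(i : ℤ)) ((w ^ i) x)
      rw [← h1, ← zpow_natCast w i, hadd, neg_add_cancel, zpow_zero]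
      rfl

end Pool.Agent.H77.EE
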