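import Mathlib
import Pool.Agent.H77.EE.Defs
import Pool.Agent.H77.EE.CxA
import Pool.Agent.H77.EE.FlagE
import Pool.Agent.H77.EE.Conn
import Pool.Agent.H77.EE.CycL

/-!
# Orbit: the walk around an edge meets every cell at the edge once

`cyc` for `A = {g : Fg Φ // ed g = ed f}` (finite), `B = Φ`, `fac g = g.1.1`, `a`, `b` the restrictions of
`al`, `be` (`ed_al`, `ed_be`). `hf`: `flag_of` (and `al` keeps the cell). `hc`: `conn`, with the image of the
set in `Fg Φ`. The range of `fac` is `{F | ∀ x ∈ ed f, mem x F}` (`flag_exists`, `mem_ed` and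
`ed_al`-type equalities), so its `ncard` is `K.val (K.ed f)`. The iterates of `b ∘ a` on the subtype are
the iterates of `K.om` (`Function.Semiconj.iterate_right` or induction).
-/

set_option autoImplicit false

namespace Pool.Agent.H77.EE

theorem orbit {Φ V : Type} [Finite Φ] (K : Cx Φ V) (w : Sw K) (f : Fg Φ) :
    K.om^[K.val (K.ed f)] f = f ∧ 0 < K.val (K.ed f) ∧
      ∀ i, 0 < i → i < K.val (K.ed f) → (K.om^[i] f).1 ≠ f.1 := by
  have hr : Set.range (fun g : {g : Fg Φ // K.ed g = K.ed f} => g.1.1) =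
      {F : Φ | ∀ x ∈ K.ed f, K.mem x F} := by
    ext F
    constructor
    · rintro ⟨g, rfl⟩
      have h := mem_ed K g.1
      rw [g.2] at h
      exact h
    · intro hF
      obtain ⟨g, h1, h2⟩ := flag_exists K f hF
      exact ⟨⟨g, h2⟩, h1⟩
  have hv : (Set.range (fun g : {g : Fg Φ // K.ed g = K.ed f} => g.1.1)).ncard =
      K.val (K.ed f) := by
    rw [hr]
    rfl
  have hcyc := cyc (fun g : {g : Fg Φ // K.ed g = K.ed f} => g.1.1)
    (fun g => ⟨Cx.al g.1, (ed_al K g.1).trans g.2⟩) (fun g => ⟨K.be g.1, (ed_be K g.1).trans g.2⟩)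
    (fun x => Subtype.ext (al_al x.1)) (fun x => Subtype.ext (be_be K x.1))
    (fun x h => al_ne x.1 (congrArg Subtype.val h))
    (fun x h => be_ne K x.1 (congrArg Subtype.val h))
    (fun x y => by
      constructor
      · intro h
        rcases flag_of K (f := x.1) (g := y.1) (x.2.trans y.2.symm) h with h1 | h1
        · exact Or.inl (Subtype.ext h1)
        · exact Or.inr (Subtype.ext h1)
      · rintro (h | h)
        · rw [h]
        · rw [h]
          rfl)
    (fun S hS hSa hSb => by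
      obtain ⟨s, hs⟩ := hS
      ext y
      refine ⟨fun _ => trivial, fun _ => ?_⟩
      have h := conn K w s.1 (Subtype.val '' S) ⟨s, hs, rfl⟩
        (by
          rintro _ ⟨g, hg, rfl⟩
          exact ⟨_, hSa g hg, rfl⟩)
        (by
          rintro _ ⟨g, hg, rfl⟩
          exact ⟨_, hSb g hg, rfl⟩) (g := y.1) (y.2.trans s.2.symm)
      obtain ⟨z, hz, hzy⟩ := h
      have hzy' : z = y := Subtype.ext hzy
      rwa [← hzy'])
    ⟨f, rfl⟩
  have hsc : Function.Semiconj (Subtype.val : {g : Fg Φ // K.ed g = K.ed f} → Fg Φ)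
      (fun y => ⟨K.be (Cx.al y.1), (ed_be K _).trans ((ed_al K y.1).trans y.2)⟩) K.om :=
    fun x => rfl
  rw [hv] at hcyc
  refine ⟨?_, ?_, ?_⟩
  · have h1 := congrArg Subtype.val hcyc.1
    have h2 := hsc.iterate_right (K.val (K.ed f)) ⟨f, rfl⟩
    exact h2.symm.trans h1
  · rw [← hv]
    exact (Set.ncard_pos (Set.toFinite _)).2 ⟨f.1, ⟨f, rfl⟩, rfl⟩
  · intro i h0 hi h
    refine hcyc.2 i h0 hi ?_
    have h2 := hsc.iterate_right i ⟨f, rfl⟩
    have h3 := congrArg Prod.fst h2
    exact h3.trans h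

end Pool.Agent.H77.EE
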