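import Mathlib
import Pool.Agent.H77.EE.Defs
import Pool.Agent.H77.EE.Comb

/-!
# Rel: the relation between the four vertices at an edge

`φ (pt k + pt l) = pt i + pt j` for an edge `i j` with the opposite vertices `k`, `l` (integer check
with `zm (0, 1)` and `ev`, for all `(t, k)`); so for `X = y0 + v · pt`, `C = 2 y0`:
`φ² (X k + X l) = 2 φ² y0 + φ v · (pt i + pt j) = φ (X i + X j - 2 y0) + 2 φ² y0` and
`2 φ² - 2 φ = 2`. The other statements are sums over `Fin 3`; `sm_fl` uses `fl_edge` (the two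
vertices of the edge, in some order; case analysis on `k`, `fk t k` or a finite check that
`{tv (fl t k) (fk t k + 1), tv (fl t k) (fk t k + 2)} = {tv t (k + 1), tv t (k + 2)}`).
-/

set_option autoImplicit false

namespace Pool.Agent.H77.EE

private theorem Rel_int : ∀ (t : Fin 20) (k : Fin 3) (c : Fin 3),
    zm (0, 1) (zt (tv t k) c + zt (tv (fl t k) (fk t k)) c) =
      zt (tv t (k + 1)) c + zt (tv t (k + 2)) c := by
  decide +kernel

private theorem Rel_ev_add (z w : ℤ × ℤ) : ev (z + w) = ev z + ev w := by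
  unfold ev
  push_cast [Prod.fst_add, Prod.snd_add]
  ring

private theorem Rel_ev_zm (z w : ℤ × ℤ) : ev (zm z w) = ev z * ev w := by
  have h1 := Real.goldenRatio_sq
  unfold ev zm
  push_cast
  linear_combination (-(z.2 : ℝ) * w.2) * h1

private theorem Rel_pt (t : Fin 20) (k : Fin 3) (c : Fin 3) :
    Real.goldenRatio * (pt (tv t k) c + pt (tv (fl t k) (fk t k)) c) =
      pt (tv t (k + 1)) c + pt (tv t (k + 2)) c := by
  have h := congrArg ev (Rel_int t k c)
  rw [Rel_ev_zm, Rel_ev_add, Rel_ev_add] at h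
  have h1 : ev (0, 1) = Real.goldenRatio := by
    unfold ev
    push_cast
    ring
  rw [h1] at h
  exact h

private theorem Rel_pair : ∀ (t : Fin 20) (k : Fin 3),
    (tv (fl t k) (fk t k + 1) = tv t (k + 1) ∧ tv (fl t k) (fk t k + 2) = tv t (k + 2)) ∨
    (tv (fl t k) (fk t k + 1) = tv t (k + 2) ∧ tv (fl t k) (fk t k + 2) = tv t (k + 1)) := by
  decide +kernel

theorem R1 (y : D) (t : Fin 20) (k : Fin 3) :
    Real.goldenRatio ^ 2 * (X y (tv t k) + X y (tv (fl t k) (fk t k))) =
      Real.goldenRatio * sm y t k + C y := by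
  have h0 := Rel_pt t k 0
  have h1 := Rel_pt t k 1
  have h2 := Rel_pt t k 2
  have hs := Real.goldenRatio_sq
  unfold sm C X
  simp only [dotProduct, Fin.sum_univ_three]
  linear_combination Real.goldenRatio * y.2 0 * h0 + Real.goldenRatio * y.2 1 * h1 +
    Real.goldenRatio * y.2 2 * h2 + 2 * y.1 * hs

theorem St_eq (y : D) (t : Fin 20) (k : Fin 3) : St y t = X y (tv t k) + sm y t k := by
  unfold St sm
  rw [Fin.sum_univ_three]
  fin_cases k
  · change X y (tv t 0) + X y (tv t 1) + X y (tv t 2) =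
      X y (tv t 0) + (X y (tv t 1) + X y (tv t 2))
    ring
  · change X y (tv t 0) + X y (tv t 1) + X y (tv t 2) =
      X y (tv t 1) + (X y (tv t 2) + X y (tv t 0))
    ring
  · change X y (tv t 0) + X y (tv t 1) + X y (tv t 2) =
      X y (tv t 2) + (X y (tv t 0) + X y (tv t 1))
    ring

theorem sm_fl (y : D) (t : Fin 20) (k : Fin 3) : sm y (fl t k) (fk t k) = sm y t k := by
  unfold sm
  rcases Rel_pair t k with ⟨h1, h2⟩ | ⟨h1, h2⟩
  · rw [h1, h2]
  · rw [h1, h2, add_comm]

end Pool.Agent.H77.EE
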