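import Mathlib
import Pool.Agent.H77.EE.Defs
import Pool.Agent.H77.EE.Comb
import Pool.Agent.H77.EE.Rel
import Pool.Agent.H77.EE.GzM

/-!
# Walk: one step around an edge

`Wk3`: direct computation with `φ² = φ + 1` (`φ ^ 3 = 2 φ + 1`, `1 / φ² = 2 - φ`; clear the denominators
with `field_simp` or replace `/ φ ^ 2` by `* (2 - φ)` first). `walk_gz`: flip, then glue:
`C z = φ² St y (fl t k) - C y`, `St y (fl t k) = X y l + sm y t k` (`St_eq`, `sm_fl`, `l` the new
vertex), `X y l = (φ sm + C y) / φ² - X y (tv t k)` (`R1`), and `φ² + φ = φ³`; the value of `z` at the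
vertex `p (fk t k)` of `t'` is `X y l`; the other two values are those of the edge. `Wk_fix`: the second
component of `Wk 2 (2, 1)` is `(2 φ + 2) / φ² - 1 = 1`, the first is `2 φ³ - φ² = 3 φ + 1 ≠ 2`.
-/

set_option autoImplicit false

namespace Pool.Agent.H77.EE

private theorem Walk_wk (s : ℝ) (p : ℝ × ℝ) :
    Wk s p = ((2 * Real.goldenRatio + 1) * s - (Real.goldenRatio + 1) * p.2,
      (Real.goldenRatio - 1) * s + (2 - Real.goldenRatio) * p.1 - p.2) := by
  have h := Real.goldenRatio_sq
  have hφ : 0 < Real.goldenRatio := Real.goldenRatio_pos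
  have h2 : (0 : ℝ) < Real.goldenRatio ^ 2 := by positivity
  unfold Wk
  refine Prod.ext ?_ ?_
  · simp only
    linear_combination (Real.goldenRatio * s + s - p.2) * h
  · simp only
    have e : (Real.goldenRatio * s + p.1) / Real.goldenRatio ^ 2 =
        (Real.goldenRatio - 1) * s + (2 - Real.goldenRatio) * p.1 := by
      rw [div_eq_iff h2.ne']
      linear_combination (-(Real.goldenRatio * s) - (1 - Real.goldenRatio) * p.1) * h
    rw [e]

theorem Wk3 (s : ℝ) (q : ℝ × ℝ) : Wk s (Wk s (Wk s q)) = q := by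
  have h := Real.goldenRatio_sq
  obtain ⟨a, b⟩ := q
  rw [Walk_wk, Walk_wk, Walk_wk]
  refine Prod.ext ?_ ?_
  · simp only
    linear_combination ((2 * s - b) * Real.goldenRatio + (s - a - b)) * h
  · simp only
    linear_combination ((s - a) * Real.goldenRatio + (-s + 2 * a - 2 * b)) * h

private theorem Walk_three (s : ℝ) (m : ℕ) (q : ℝ × ℝ) : (Wk s)^[3 * m] q = q := by
  rw [Function.iterate_mul]
  have e : (Wk s)^[3] = id := by
    funext q
    simp only [Function.iterate_succ, Function.iterate_zero, Function.comp_apply, id]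
    exact Wk3 s q
  rw [e, Function.iterate_id]
  rfl

theorem Wk_iter {s : ℝ} {q q' : ℝ × ℝ} {n : ℕ} (hn : 3 ∣ n) (h : (Wk s)^[n] q = q') : q = q' := by
  obtain ⟨m, rfl⟩ := hn
  rw [← h, Walk_three]

/-- if some number of steps not divisible by three fixes a state then one step fixes it -/
theorem Wk_one {s : ℝ} {q : ℝ × ℝ} {n : ℕ} (hn : ¬ 3 ∣ n) (h : (Wk s)^[n] q = q) :
    Wk s q = q := by
  have hq : (Wk s)^[n % 3] q = q := by
    have e : n = n % 3 + 3 * (n / 3) := by omega
    rw [e, Function.iterate_add_apply, Walk_three] at h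
    exact h
  have hc : n % 3 = 1 ∨ n % 3 = 2 := by omega
  rcases hc with hc | hc
  · rw [hc] at hq
    simpa using hq
  · rw [hc] at hq
    have h2 : Wk s (Wk s q) = q := by simpa using hq
    have h3 := Wk3 s q
    rw [h2] at h3
    exact h3

theorem Wk_fix : Wk 2 (2, 1) ≠ (2, 1) := by
  intro h
  rw [Walk_wk] at h
  have h1 := congrArg Prod.fst h
  simp only at h1
  have hφ : 1 < Real.goldenRatio := Real.one_lt_goldenRatio
  linarith

theorem walk_gz {t t' : Fin 20} {k : Fin 3} {p : Fin 3 → Fin 3} {y z : D}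
    (hp : Function.Injective p) (h : Gz (fl t k) y t' p z) :
    st z t' (p (fk t k)) = Wk (sm y t k) (st y t k) ∧ sm z t' (p (fk t k)) = sm y t k := by
  have hg := Real.goldenRatio_sq
  have hφ : 0 < Real.goldenRatio := Real.goldenRatio_pos
  have h2 : (0 : ℝ) < Real.goldenRatio ^ 2 := by positivity
  have hR := R1 y t k
  have hS := St_eq y (fl t k) (fk t k)
  have hf := sm_fl y t k
  have hSz := St_gz hp h
  have hz := St_eq z t' (p (fk t k))
  have hX : X z (tv t' (p (fk t k))) = X y (tv (fl t k) (fk t k)) := h.1 _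
  have hC : C y + C z = Real.goldenRatio ^ 2 * St y (fl t k) := h.2
  have hsm : sm z t' (p (fk t k)) = sm y t k := by
    rw [← hf]
    linarith
  refine ⟨?_, hsm⟩
  unfold st Wk
  refine Prod.ext ?_ ?_
  · simp only
    rw [hS, hf] at hC
    linear_combination hC + hR - Real.goldenRatio * sm y t k * hg
  · simp only
    rw [hX]
    have e : (Real.goldenRatio * sm y t k + C y) / Real.goldenRatio ^ 2 =
        X y (tv t k) + X y (tv (fl t k) (fk t k)) := by
      rw [div_eq_iff h2.ne', ← hR]
      ring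
    rw [e]
    ring

end Pool.Agent.H77.EE
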