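import Mathlib
import Pool.Agent.H77.EE.Defs
import Pool.Agent.H77.EE.CxA
import Pool.Agent.H77.EE.GlM
import Pool.Agent.H77.EE.Walk

/-!
# WalkS: states along a walk

Induction on `n` with `walk_gz` (`K.om f = (nbr F (fl t k), tr F (fl t k), pe F (fl t k) (fk t k))` for
`f = (F, t, k)`, by definition) and `Function.iterate_succ_apply'`.
-/

set_option autoImplicit false

namespace Pool.Agent.H77.EE

theorem walk_seq {Φ V : Type} (K : Cx Φ V) (f : Fg Φ) (d : ℕ → D) (n : ℕ)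
    (h : ∀ i < n, K.Gl (K.om^[i] f).1 (fl (K.om^[i] f).2.1 (K.om^[i] f).2.2) (d i) (d (i + 1))) :
    st (d n) (K.om^[n] f).2.1 (K.om^[n] f).2.2 =
        (Wk (sm (d 0) f.2.1 f.2.2))^[n] (st (d 0) f.2.1 f.2.2) ∧
      sm (d n) (K.om^[n] f).2.1 (K.om^[n] f).2.2 = sm (d 0) f.2.1 f.2.2 := by
  induction n with
  | zero => exact ⟨rfl, rfl⟩
  | succ n ih =>
    obtain ⟨h1, h2⟩ := ih (fun i hi => h i (Nat.lt_succ_of_lt hi))
    have h3 := h n (Nat.lt_succ_self n)
    rw [Function.iterate_succ_apply' K.om, Function.iterate_succ_apply' (Wk _)]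
    generalize hg : K.om^[n] f = g at h1 h2 h3
    obtain ⟨F, t, k⟩ := g
    have h4 := walk_gz (t := t) (t' := K.tr F (fl t k)) (k := k) (p := K.pe F (fl t k))
      (K.pe_inj F (fl t k)) h3
    dsimp only at h1 h2
    rw [h1, h2] at h4
    exact h4

end Pool.Agent.H77.EE
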