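import Mathlib
import Pool.Agent.H77.EE.Defs
import Pool.Agent.H77.EE.CxA
import Pool.Agent.H77.EE.GlM
import Pool.Agent.H77.EE.SwA
import Pool.Agent.H77.EE.FlagE
import Pool.Agent.H77.EE.Orbit
import Pool.Agent.H77.EE.WalkS
import Pool.Agent.H77.EE.Inv

/-!
# StepM: the extensions across two lower triangles agree

`f = (F, t, k)`, `c = val (ed f)`, `e = ed f`. By `orbit` `om^[c] f = f`, the cells `F_i` of `om^[i] f`,
`0 < i < c`, are different from `F` and contain `e`, so they are lower than `F` (`edge_low`); `c ≥ 2`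
(`c ≠ 0, 1` as `3 ∣ c` and `c > 0`). Sequence `d 0 = y'`, `d i = σ F_i` for `0 < i < c`, `d c = y` (for larger
`i` arbitrary). The hypothesis of `walk_seq` (`n = c`): for `i = 0` it is `hy'`; for `0 < i < c - 1` it is
`hs` (all triangles met contain `e ⊇ W`: `has_ed`, `ed_al`, `has_fl`; the neighbour
`nbr F_i (fl ..)` is `F_{i+1}`); for `i = c - 1` the neighbour is `F_c = F`: from `om^[c] f = f` the flag
`al (om^[c-1] f)` is `be f` (`be_be`), and `gl_symm` of `hy` is the claim. Conclusion of `walk_seq` and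
`Wk_iter`: `st y t k = st y' t k`, so `C y = C y'` and the values at `tv t k` agree. The values at the
other two vertices of `t` agree as well: for a vertex `x ∈ e` the number `X (d i) j`, `j` the label of `x` in
`F_i` does not depend on `i` (first component of `Gz`, the labels match by `lab_pe`, `lab_inj`); prove this
invariant by induction along the sequence: `∀ x ∈ e, ∀ j, lab (F_i) j = x → X (d i) j = X (d 0) j0`.
`data_unique`.
-/

set_option autoImplicit false

namespace Pool.Agent.H77.EE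

private lemma StepM_inv {Φ V : Type} (K : Cx Φ V) (f : Fg Φ) (d : ℕ → D) (n : ℕ)
    (h : ∀ i < n, K.Gl (K.om^[i] f).1 (fl (K.om^[i] f).2.1 (K.om^[i] f).2.2) (d i) (d (i + 1))) :
    ∀ x ∈ K.ed f, ∀ j, K.lab (K.om^[n] f).1 j = x → ∀ j0, K.lab f.1 j0 = x →
      X (d n) j = X (d 0) j0 := by
  induction n with
  | zero =>
    intro x _ j hj j0 hj0
    have : j = j0 := K.lab_inj f.1 (hj.trans hj0.symm)
    rw [this]
  | succ n ih =>
    intro x hx j hj j0 hj0
    have h1 := h n (Nat.lt_succ_self n)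
    have h2 := ih (fun i hi => h i (Nat.lt_succ_of_lt hi))
    have hxe : x ∈ K.ed (Cx.al (K.om^[n] f)) := by
      rw [ed_al, ed_om]
      exact hx
    obtain ⟨m, -, hm⟩ := hxe
    rw [Function.iterate_succ_apply'] at hj
    have hm' : K.lab (K.om^[n] f).1 (tv (fl (K.om^[n] f).2.1 (K.om^[n] f).2.2) m) = x := hm
    have hj' : K.lab (K.nbr (K.om^[n] f).1 (fl (K.om^[n] f).2.1 (K.om^[n] f).2.2)) j = x := hj
    have h3 := K.lab_pe (K.om^[n] f).1 (fl (K.om^[n] f).2.1 (K.om^[n] f).2.2) m
    have h4 : j = tv (K.tr (K.om^[n] f).1 (fl (K.om^[n] f).2.1 (K.om^[n] f).2.2))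
        (K.pe (K.om^[n] f).1 (fl (K.om^[n] f).2.1 (K.om^[n] f).2.2) m) :=
      K.lab_inj _ (hj'.trans (h3.trans hm').symm)
    rw [h4, h1.1 m]
    exact h2 x hx _ hm' j0 hj0

theorem step {Φ V : Type} [Finite Φ] (K : Cx Φ V) (w : Sw K) {W : Set V} {σ : Φ → D} {F : Φ}
    {t : Fin 20} {k : Fin 3} (hs : K.Cons {G | w.h G < w.h F} W σ) (hW : K.has W F t)
    (hk : K.lab F (tv t k) ∉ W) (hl : w.h (K.nbr F t) < w.h F)
    (hl' : w.h (K.nbr F (fl t k)) < w.h F) (hv : 3 ∣ K.val (K.ed (F, t, k))) {y y' : D}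
    (hy : K.Gl F t y (σ (K.nbr F t))) (hy' : K.Gl F (fl t k) y' (σ (K.nbr F (fl t k)))) :
    y = y' := by
  classical
  obtain ⟨hof, hc0, hne⟩ := orbit K w (F, t, k)
  have hWe : W ⊆ K.ed (F, t, k) := (has_fl K hW hk).2
  set f : Fg Φ := (F, t, k) with hf
  set c := K.val (K.ed f) with hc
  have hc3 : 3 ≤ c := Nat.le_of_dvd hc0 hv
  have hmem : ∀ i, ∀ x ∈ K.ed f, K.mem x (K.om^[i] f).1 := by
    intro i x hx
    have h := mem_ed K (K.om^[i] f) x
    rw [ed_om] at h
    exact h hx
  have hlow : ∀ i, 0 < i → i < c → w.h (K.om^[i] f).1 < w.h F := fun i h0 hi =>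
    edge_low w hl hl' (hne i h0 hi) (hmem i)
  let d : ℕ → D := fun i => if i = 0 then y' else if i < c then σ (K.om^[i] f).1 else y
  have hd0 : d 0 = y' := if_pos rfl
  have hdi : ∀ i, 0 < i → i < c → d i = σ (K.om^[i] f).1 := by
    intro i h0 hi
    show (if i = 0 then y' else if i < c then σ (K.om^[i] f).1 else y) = _
    rw [if_neg h0.ne', if_pos hi]
  have hdc : d c = y := by
    show (if c = 0 then y' else if c < c then σ (K.om^[c] f).1 else y) = _
    rw [if_neg (by omega), if_neg (lt_irrefl _)]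
  have hnb : ∀ i, (K.om^[i + 1] f).1 =
      K.nbr (K.om^[i] f).1 (fl (K.om^[i] f).2.1 (K.om^[i] f).2.2) := by
    intro i
    rw [Function.iterate_succ_apply']
    rfl
  have hgl : ∀ i < c, K.Gl (K.om^[i] f).1 (fl (K.om^[i] f).2.1 (K.om^[i] f).2.2) (d i)
      (d (i + 1)) := by
    intro i hi
    rcases Nat.eq_zero_or_pos i with h0 | h0
    · subst h0
      rw [hd0, hdi 1 one_pos (by omega), hnb 0]
      exact hy'
    · rcases Nat.lt_or_ge (i + 1) c with h1 | h1
      · rw [hdi i h0 hi, hdi (i + 1) (Nat.succ_pos i) h1, hnb i]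
        refine hs _ _ (hlow i h0 hi) ?_ ?_
        · have h2 := hlow (i + 1) (Nat.succ_pos i) h1
          rw [hnb i] at h2
          exact h2
        · intro x hx
          have h2 := has_ed K (Cx.al (K.om^[i] f)) x
          rw [ed_al, ed_om] at h2
          exact h2 (hWe hx)
      · have h2 : i + 1 = c := by omega
        rw [h2, hdc, hdi i h0 hi]
        have h3 : K.be (Cx.al (K.om^[i] f)) = f := by
          have h4 : K.om^[i + 1] f = f := by rw [h2]; exact hof
          rw [Function.iterate_succ_apply'] at h4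
          exact h4
        have h5 : Cx.al (K.om^[i] f) = K.be f := by
          have h6 := congrArg K.be h3
          rwa [be_be] at h6
        have h6 : (K.om^[i] f).1 = K.nbr F t := congrArg Prod.fst h5
        have h7 : fl (K.om^[i] f).2.1 (K.om^[i] f).2.2 = K.tr F t :=
          congrArg (fun g : Fg Φ => g.2.1) h5
        rw [h6, h7]
        exact gl_symm K hy
  obtain ⟨h1, h2⟩ := walk_seq K f d c hgl
  rw [hof, hd0, hdc] at h1 h2
  have h3 : st y' t k = st y t k := Wk_iter hv h1.symm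
  have hC : C y = C y' := (congrArg Prod.fst h3).symm
  refine data_unique t ?_ hC
  intro l
  by_cases hlk : l = k
  · rw [hlk]
    exact (congrArg Prod.snd h3).symm
  · have h4 := StepM_inv K f d c hgl (K.lab F (tv t l)) ⟨l, hlk, rfl⟩ (tv t l) (by rw [hof])
      (tv t l) rfl
    rw [hdc, hd0] at h4
    exact h4

end Pool.Agent.H77.EE
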