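import Mathlib
import Pool.Agent.H77.EE.Defs
import Pool.Agent.H77.EE.CxA
import Pool.Agent.H77.EE.GlM
import Pool.Agent.H77.EE.SwA
import Pool.Agent.H77.EE.StepM

/-!
# Dev: the development over a lower set

Induction on `s.ncard`. Let `F` be the highest cell of `s` and `s' = s \ {F}` (a lower set). If `F = F0`
then all cells of `s` containing `W` have height at least and at most that of `F0`, so they are `F0`
(`h_inj`), and the constant function is glued (`mem_of_has`, `nbr_ne`: no pair). Otherwise `σ'` for `s'`
(`F0 ∈ s'`). If no triangle `t ⊇ W` of `F` has a lower neighbour then `σ'` works for `s` (for a pair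
`(G, t)` with `nbr G t = F` consider `(F, tr G t)`: `nbr_nbr`, `has_nbr`; a neighbour in `s` other than `F` is
lower than `F`). Otherwise let `t0` be one, `y` with `Gl F t0 y (σ' (nbr F t0))` (`gl_exists'`),
`σ = Function.update σ' F y`. For every lower triangle `t ⊇ W` of `F` the extension `E t`
(chosen with `gl_exists'`) is `y`: `low_const` with `step`; the divisibility comes from `hok` and
`edge_low`. Pairs `(G, t)` with `nbr G t = F`: `gl_symm'` after `nbr_nbr`, `tr_tr`.
-/

set_option autoImplicit false

namespace Pool.Agent.H77.EE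

private lemma dev_aux {Φ V : Type} [Finite Φ] (K : Cx Φ V) (w : Sw K) (W : Set V)
    {F0 : Φ} (hmin : ∀ G, (∀ x ∈ W, K.mem x G) → w.h F0 ≤ w.h G) (y0 : D) (n : ℕ) :
    ∀ s : Set Φ, s.ncard = n → (∀ F ∈ s, ∀ G, w.h G < w.h F → G ∈ s) →
    (∀ F ∈ s, ∀ t k, K.has W F t → K.lab F (tv t k) ∉ W →
      (∀ G, G ≠ F → (∀ x ∈ K.ed (F, t, k), K.mem x G) → w.h G < w.h F) →
      3 ∣ K.val (K.ed (F, t, k))) → F0 ∈ s →
    ∃ σ : Φ → D, K.Cons s W σ ∧ σ F0 = y0 := by
  classical
  induction n with
  | zero =>
    intro s hn _ _ hF0
    rw [Set.ncard_eq_zero (Set.toFinite s)] at hn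
    rw [hn] at hF0
    exact absurd hF0 (Set.notMem_empty F0)
  | succ n ih =>
    intro s hn hs hok hF0
    obtain ⟨F, hF, hmax⟩ := Set.exists_max_image s w.h (Set.toFinite s) ⟨F0, hF0⟩
    have hlow : ∀ G, G ∈ s → G ≠ F → w.h G < w.h F := fun G hG hne =>
      lt_of_le_of_ne (hmax G hG) (fun h => hne (w.h_inj h))
    by_cases hFF : F = F0
    · refine ⟨fun _ => y0, ?_, rfl⟩
      intro G t hG hG' hW
      exfalso
      have h1 : w.h F0 ≤ w.h G := hmin G (fun x hx => (mem_of_has K hW hx).1)
      have h2 : w.h F0 ≤ w.h (K.nbr G t) := hmin _ (fun x hx => (mem_of_has K hW hx).2)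
      have h3 : w.h G ≤ w.h F0 := hFF ▸ hmax G hG
      have h4 : w.h (K.nbr G t) ≤ w.h F0 := hFF ▸ hmax _ hG'
      exact K.nbr_ne G t (w.h_inj ((le_antisymm h4 h2).trans (le_antisymm h1 h3)))
    · have hcard : (s \ {F}).ncard = n := by
        have h1 := Set.ncard_sdiff_singleton_add_one hF (Set.toFinite s)
        omega
      obtain ⟨σ', hσ', hσ0⟩ := ih (s \ {F}) hcard
        (fun A hA G hG => ⟨hs A hA.1 G hG, fun h => by
          have h1 : G = F := h
          rw [h1] at hG
          exact absurd (hmax A hA.1) (not_le.mpr hG)⟩)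
        (fun A hA => hok A hA.1)
        ⟨hF0, fun h => hFF (Eq.symm h)⟩
      by_cases hex : ∃ t, K.has W F t ∧ w.h (K.nbr F t) < w.h F
      · obtain ⟨t0, ht0, hlt0⟩ := hex
        choose E hE using fun t => gl_exists' K F t (σ' (K.nbr F t))
        have hC : K.Cons {G | w.h G < w.h F} W σ' := by
          intro G t hG hG' hW
          refine hσ' G t ⟨hs F hF G hG, fun h => ?_⟩ ⟨hs F hF _ hG', fun h => ?_⟩ hW
          · have h1 : G = F := h
            have h2 : w.h G < w.h F := hG
            rw [h1] at h2
            exact lt_irrefl _ h2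
          · have h1 : K.nbr G t = F := h
            have h2 : w.h (K.nbr G t) < w.h F := hG'
            rw [h1] at h2
            exact lt_irrefl _ h2
        have hEc : ∀ t, K.has W F t → w.h (K.nbr F t) < w.h F → E t = E t0 := by
          intro t ht hlt
          refine low_const w E ?_ ht ht0 hlt hlt0
          intro r k hW hk hl hl'
          exact step K w hC hW hk hl hl'
            (hok F hF r k hW hk (fun G hGF hG => edge_low w hl hl' hGF hG)) (hE r) (hE (fl r k))
        refine ⟨Function.update σ' F (E t0), ?_, ?_⟩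
        · intro G t hG hG' hW
          by_cases h1 : G = F
          · subst h1
            have h2 : w.h (K.nbr G t) < w.h G := hlow _ hG' (K.nbr_ne G t)
            rw [Function.update_self, Function.update_of_ne (K.nbr_ne G t), ← hEc t hW h2]
            exact hE t
          · by_cases h2 : K.nbr G t = F
            · rw [Function.update_of_ne h1]
              have h3 : K.nbr F (K.tr G t) = G := by
                rw [← h2]
                exact nbr_nbr K G t
              have h4 : K.has W F (K.tr G t) := by
                rw [← h2]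
                exact has_nbr K hW
              have h5 : w.h (K.nbr F (K.tr G t)) < w.h F := by
                rw [h3]
                exact hlow G hG h1
              have h6 := hE (K.tr G t)
              rw [hEc _ h4 h5, h3] at h6
              have h7 : K.Gl (K.nbr G t) (K.tr G t) (E t0) (σ' G) := by
                rw [h2]
                exact h6
              have h8 := gl_symm' K h7
              rw [h2, Function.update_self]
              exact h8
            · rw [Function.update_of_ne h1, Function.update_of_ne h2]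
              exact hσ' G t ⟨hG, h1⟩ ⟨hG', h2⟩ hW
        · rw [Function.update_of_ne (fun h => hFF (Eq.symm h))]
          exact hσ0
      · refine ⟨σ', ?_, hσ0⟩
        intro G t hG hG' hW
        have h1 : G ≠ F := by
          intro h
          subst h
          exact hex ⟨t, hW, hlow _ hG' (K.nbr_ne G t)⟩
        have h2 : K.nbr G t ≠ F := by
          intro h
          refine hex ⟨K.tr G t, ?_, ?_⟩
          · rw [← h]
            exact has_nbr K hW
          · have h3 : K.nbr F (K.tr G t) = G := by
              rw [← h]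
              exact nbr_nbr K G t
            rw [h3]
            exact hlow G hG h1
        exact hσ' G t ⟨hG, h1⟩ ⟨hG', h2⟩ hW

theorem dev {Φ V : Type} [Finite Φ] (K : Cx Φ V) (w : Sw K) (W : Set V) (s : Set Φ)
    (hs : ∀ F ∈ s, ∀ G, w.h G < w.h F → G ∈ s)
    (hok : ∀ F ∈ s, ∀ t k, K.has W F t → K.lab F (tv t k) ∉ W →
      (∀ G, G ≠ F → (∀ x ∈ K.ed (F, t, k), K.mem x G) → w.h G < w.h F) →
      3 ∣ K.val (K.ed (F, t, k)))
    {F0 : Φ} (hF0 : F0 ∈ s) (hmin : ∀ G, (∀ x ∈ W, K.mem x G) → w.h F0 ≤ w.h G) (y0 : D) :
    ∃ σ : Φ → D, K.Cons s W σ ∧ σ F0 = y0 :=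
  dev_aux K w W hmin y0 s.ncard s rfl hs hok hF0

end Pool.Agent.H77.EE
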