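import Mathlib
import Pool.Agent.H77.EE.Defs
import Pool.Agent.H77.EE.Comb

/-!
# Mom: moments of the twenty triangle vectors

`mt t` is the sum of the three vertices of the triangle `t`; these are the twenty vertices of a
dodecahedron, of square length `9 φ + 6`. With `v = (x, y, z)` all four identities are polynomial
identities in `x, y, z, φ` modulo `φ² = φ + 1`: expand the sum (`Fin.sum_univ_succ` or a `simp` with
the explicit list of the integer coordinates of `mt t`, computed by a helper `zmt : Fin 20 → Fin 3 →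
ℤ × ℤ` and `decide`), then `linear_combination` with `Real.goldenRatio_sq`, or `ring_nf` after
replacing `φ` by an unknown `g` with `g ^ 2 = g + 1` (`grobner` / `linear_combination (e) * hg`).
The odd moments vanish since `mt` takes opposite values on opposite triangles.
-/

set_option autoImplicit false

namespace Pool.Agent.H77.EE

/-- the sum of the vertices of the triangle `t` -/
noncomputable def mt (t : Fin 20) : Fin 3 → ℝ := ∑ k, pt (tv t k)

theorem St_mt (y : D) (t : Fin 20) : St y t = 3 * y.1 + y.2 ⬝ᵥ mt t := by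
  unfold St X mt
  rw [Finset.sum_add_distrib, dotProduct_sum]
  simp

private def momZ : Fin 20 → Fin 3 → ℤ × ℤ :=
  ![![(1, 1), (1, 1), (1, 1)],
    ![(0, 0), (1, 2), (0, 1)],
    ![(0, 1), (0, 0), (1, 2)],
    ![(0, -1), (0, 0), (1, 2)],
    ![(-1, -1), (1, 1), (1, 1)],
    ![(1, 2), (0, 1), (0, 0)],
    ![(0, 0), (1, 2), (0, -1)],
    ![(1, 1), (1, 1), (-1, -1)],
    ![(1, 1), (-1, -1), (1, 1)],
    ![(1, 2), (0, -1), (0, 0)],
    ![(-1, -1), (1, 1), (-1, -1)],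
    ![(0, 1), (0, 0), (-1, -2)],
    ![(0, -1), (0, 0), (-1, -2)],
    ![(0, 0), (-1, -2), (0, 1)],
    ![(1, 1), (-1, -1), (-1, -1)],
    ![(0, 0), (-1, -2), (0, -1)],
    ![(-1, -1), (-1, -1), (1, 1)],
    ![(-1, -2), (0, 1), (0, 0)],
    ![(-1, -2), (0, -1), (0, 0)],
    ![(-1, -1), (-1, -1), (-1, -1)]]

private theorem momZ_eq (t : Fin 20) (c : Fin 3) : ∑ k, zt (tv t k) c = momZ t c := by
  revert t c
  decide +kernel

private theorem mom_ev_add (z w : ℤ × ℤ) : ev (z + w) = ev z + ev w := by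
  unfold ev
  rw [Prod.fst_add, Prod.snd_add]
  push_cast
  ring

private theorem mom_mt (t : Fin 20) (c : Fin 3) : mt t c = ev (momZ t c) := by
  rw [← momZ_eq]
  unfold mt
  rw [Finset.sum_apply, Fin.sum_univ_three, Fin.sum_univ_three, mom_ev_add, mom_ev_add]
  rfl

/-- the twenty linear forms -/
private def momW (x y z g : ℝ) : Fin 20 → ℝ :=
  ![x * (1 + 1 * g) + y * (1 + 1 * g) + z * (1 + 1 * g),
    y * (1 + 2 * g) + z * (1 * g),
    x * (1 * g) + z * (1 + 2 * g),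
    x * (-1 * g) + z * (1 + 2 * g),
    x * (-1 + -1 * g) + y * (1 + 1 * g) + z * (1 + 1 * g),
    x * (1 + 2 * g) + y * (1 * g),
    y * (1 + 2 * g) + z * (-1 * g),
    x * (1 + 1 * g) + y * (1 + 1 * g) + z * (-1 + -1 * g),
    x * (1 + 1 * g) + y * (-1 + -1 * g) + z * (1 + 1 * g),
    x * (1 + 2 * g) + y * (-1 * g),
    x * (-1 + -1 * g) + y * (1 + 1 * g) + z * (-1 + -1 * g),
    x * (1 * g) + z * (-1 + -2 * g),
    x * (-1 * g) + z * (-1 + -2 * g),
    y * (-1 + -2 * g) + z * (1 * g),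
    x * (1 + 1 * g) + y * (-1 + -1 * g) + z * (-1 + -1 * g),
    y * (-1 + -2 * g) + z * (-1 * g),
    x * (-1 + -1 * g) + y * (-1 + -1 * g) + z * (1 + 1 * g),
    x * (-1 + -2 * g) + y * (1 * g),
    x * (-1 + -2 * g) + y * (-1 * g),
    x * (-1 + -1 * g) + y * (-1 + -1 * g) + z * (-1 + -1 * g)]

private theorem mom_W (v : Fin 3 → ℝ) (t : Fin 20) :
    v ⬝ᵥ mt t = momW (v 0) (v 1) (v 2) Real.goldenRatio t := by
  unfold dotProduct
  rw [Fin.sum_univ_three, mom_mt, mom_mt, mom_mt]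
  fin_cases t <;> simp [momW, momZ, ev]

private theorem mom_sum (f : ℝ → ℝ) (x y z g : ℝ) : ∑ t, f (momW x y z g t) =
    f (x * (1 + 1 * g) + y * (1 + 1 * g) + z * (1 + 1 * g)) +
      f (y * (1 + 2 * g) + z * (1 * g)) +
      f (x * (1 * g) + z * (1 + 2 * g)) +
      f (x * (-1 * g) + z * (1 + 2 * g)) +
      f (x * (-1 + -1 * g) + y * (1 + 1 * g) + z * (1 + 1 * g)) +
      f (x * (1 + 2 * g) + y * (1 * g)) +
      f (y * (1 + 2 * g) + z * (-1 * g)) +
      f (x * (1 + 1 * g) + y * (1 + 1 * g) + z * (-1 + -1 * g)) +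
      f (x * (1 + 1 * g) + y * (-1 + -1 * g) + z * (1 + 1 * g)) +
      f (x * (1 + 2 * g) + y * (-1 * g)) +
      f (x * (-1 + -1 * g) + y * (1 + 1 * g) + z * (-1 + -1 * g)) +
      f (x * (1 * g) + z * (-1 + -2 * g)) +
      f (x * (-1 * g) + z * (-1 + -2 * g)) +
      f (y * (-1 + -2 * g) + z * (1 * g)) +
      f (x * (1 + 1 * g) + y * (-1 + -1 * g) + z * (-1 + -1 * g)) +
      f (y * (-1 + -2 * g) + z * (-1 * g)) +
      f (x * (-1 + -1 * g) + y * (-1 + -1 * g) + z * (1 + 1 * g)) +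
      f (x * (-1 + -2 * g) + y * (1 * g)) +
      f (x * (-1 + -2 * g) + y * (-1 * g)) +
      f (x * (-1 + -1 * g) + y * (-1 + -1 * g) + z * (-1 + -1 * g)) := by
  simp only [Fin.sum_univ_succ, Fin.sum_univ_zero]
  simp only [momW, Matrix.cons_val_zero, Matrix.cons_val_succ, Fin.succ_zero_eq_one]
  simp
  ring

theorem mom1 (v : Fin 3 → ℝ) : ∑ t, v ⬝ᵥ mt t = 0 := by
  have h := mom_sum (fun s => s) (v 0) (v 1) (v 2) Real.goldenRatio
  simp only [mom_W]
  rw [h]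
  ring

theorem mom2 (v : Fin 3 → ℝ) :
    ∑ t, (v ⬝ᵥ mt t) ^ 2 = 20 / 3 * (9 * Real.goldenRatio + 6) * (v ⬝ᵥ v) := by
  have h := mom_sum (fun s => s ^ 2) (v 0) (v 1) (v 2) Real.goldenRatio
  have hg := Real.goldenRatio_sq
  simp only [mom_W]
  rw [h]
  unfold dotProduct
  rw [Fin.sum_univ_three]
  generalize v 0 = x
  generalize v 1 = y
  generalize v 2 = z
  generalize Real.goldenRatio = g at hg ⊢
  linear_combination (28 * x ^ 2 + 28 * y ^ 2 + 28 * z ^ 2) * hg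

theorem mom3 (v : Fin 3 → ℝ) : ∑ t, (v ⬝ᵥ mt t) ^ 3 = 0 := by
  have h := mom_sum (fun s => s ^ 3) (v 0) (v 1) (v 2) Real.goldenRatio
  simp only [mom_W]
  rw [h]
  ring

theorem mom4 (v : Fin 3 → ℝ) :
    ∑ t, (v ⬝ᵥ mt t) ^ 4 = 4 * (9 * Real.goldenRatio + 6) ^ 2 * (v ⬝ᵥ v) ^ 2 := by
  have h := mom_sum (fun s => s ^ 4) (v 0) (v 1) (v 2) Real.goldenRatio
  have hg := Real.goldenRatio_sq
  simp only [mom_W]
  rw [h]
  unfold dotProduct
  rw [Fin.sum_univ_three]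
  generalize v 0 = x
  generalize v 1 = y
  generalize v 2 = z
  generalize Real.goldenRatio = g at hg ⊢
  linear_combination (76 * x ^ 4 * g ^ 2 + 236 * x ^ 4 * g + 132 * x ^ 4 + 144 * x ^ 2 * y ^ 2 * g ^ 2 + 432 * x ^ 2 * y ^ 2 * g + 240 * x ^ 2 * y ^ 2 + 144 * x ^ 2 * z ^ 2 * g ^ 2 + 432 * x ^ 2 * z ^ 2 * g + 240 * x ^ 2 * z ^ 2 + 76 * y ^ 4 * g ^ 2 + 236 * y ^ 4 * g + 132 * y ^ 4 + 144 * y ^ 2 * z ^ 2 * g ^ 2 + 432 * y ^ 2 * z ^ 2 * g + 240 * y ^ 2 * z ^ 2 + 76 * z ^ 4 * g ^ 2 + 236 * z ^ 4 * g + 132 * z ^ 4) * hg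

end Pool.Agent.H77.EE
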