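import Mathlib
import Pool.Agent.H77.EE.Defs
import Pool.Agent.H77.EE.Comb
import Pool.Agent.H77.EE.Mom
import Pool.Agent.H77.EE.PhiA

/-!
# PhiB: the total flux of a cell is at least 177 / 25

`r t = (φ² St y t - C) / C = ch + g t`, `ch = (3 φ + 1) / 2`, `g t = (φ² / 2) (v · mt t) / y0`,
`ph y t = (r - 1) / (r + 1)`. With `a = 22 / 125`, `r1 = 24 / 5`, `r2 = 213 / 100`,
`κ = 2 / ((1 + a) (1 + r1)² (1 + r2)²)` the quotient
`p (r) = ((r - 1) - κ (r - a) (r - r1)² (r - r2)²) / (r + 1)` is a polynomial of degree four,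
`p = c0 + c1 r + c2 r² + c3 r³ + c4 r⁴`,
`c0 = -3653927209/4037204521`, `c1 = 713405150/576743503`, `c2 = -1790588750/4037204521`,
`c3 = 44750000/576743503`, `c4 = -62500000/12111613563`, and for `r ≥ a`
`(r - 1) / (r + 1) - p (r) = κ (r - a) (r - r1)² (r - r2)² / (r + 1) ≥ 0` (`pol_le`). Summing over the
triangles (`mom1` ... `mom4`, `w = n / y0²`, `0 ≤ w ≤ (3 φ - 1) / φ⁶ = 0.21478...`):
`Σ p (r t) = 20 p (ch) + (p''(ch) / 2) Σ g² + c4 Σ g⁴`,
`Σ g² = (φ⁴ / 4) (20 / 3) (9 φ + 6) w`, `Σ g⁴ = (φ⁸ / 16) 4 (9 φ + 6)² w²`,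
`p''(ch) / 2 = c2 + 3 c3 ch + 6 c4 ch²`. This is a concave function of `w` (as `c4 < 0`), at `w = 0` it is
`20 p (ch) = 9.6531`, at `w = (3 φ - 1) / φ⁶` it is `7.0858`, so it is at least `7.08 = 177 / 25`
(rational bounds for `φ` with six digits; all steps are `nlinarith` / `norm_num`). It may be convenient to
split: a lemma for real numbers `g t` with given power sums, then the estimate in one variable `w`.
-/

set_option autoImplicit false

namespace Pool.Agent.H77.EE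

theorem pol_le {r : ℝ} (hr : 22 / 125 ≤ r) :
    -3653927209 / 4037204521 + 713405150 / 576743503 * r - 1790588750 / 4037204521 * r ^ 2 +
      44750000 / 576743503 * r ^ 3 - 62500000 / 12111613563 * r ^ 4 ≤ (r - 1) / (r + 1) := by
  have h1 : 0 < r + 1 := by linarith
  rw [le_div_iff₀ h1]
  have key : r - 1 - (-3653927209 / 4037204521 + 713405150 / 576743503 * r -
      1790588750 / 4037204521 * r ^ 2 + 44750000 / 576743503 * r ^ 3 -
      62500000 / 12111613563 * r ^ 4) * (r + 1) =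
      62500000 / 12111613563 * ((r - 22 / 125) * ((r - 24 / 5) ^ 2 * (r - 213 / 100) ^ 2)) := by
    ring
  have h2 : 0 ≤ (r - 22 / 125) * ((r - 24 / 5) ^ 2 * (r - 213 / 100) ^ 2) :=
    mul_nonneg (by linarith) (by positivity)
  linarith

/-- sum of a quartic over twenty values with given power sums -/
private lemma PhiB_sum (c0 c1 c2 c3 c4 u A : ℝ) (g : Fin 20 → ℝ) (h1 : ∑ t, g t = 0)
    (h2 : ∑ t, g t ^ 2 = A) (h3 : ∑ t, g t ^ 3 = 0) (h4 : ∑ t, g t ^ 4 = 9 / 100 * A ^ 2) :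
    ∑ t, (c0 + c1 * (u + g t) + c2 * (u + g t) ^ 2 + c3 * (u + g t) ^ 3 + c4 * (u + g t) ^ 4) =
      20 * (c0 + c1 * u + c2 * u ^ 2 + c3 * u ^ 3 + c4 * u ^ 4) +
        (c2 + 3 * c3 * u + 6 * c4 * u ^ 2) * A + c4 * (9 / 100 * A ^ 2) := by
  have e : ∀ t, c0 + c1 * (u + g t) + c2 * (u + g t) ^ 2 + c3 * (u + g t) ^ 3 +
      c4 * (u + g t) ^ 4 = (c0 + c1 * u + c2 * u ^ 2 + c3 * u ^ 3 + c4 * u ^ 4) +
        (c1 + 2 * c2 * u + 3 * c3 * u ^ 2 + 4 * c4 * u ^ 3) * g t +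
        (c2 + 3 * c3 * u + 6 * c4 * u ^ 2) * g t ^ 2 + (c3 + 4 * c4 * u) * g t ^ 3 +
        c4 * g t ^ 4 := fun t => by ring
  rw [Finset.sum_congr rfl (fun t _ => e t)]
  simp only [Finset.sum_add_distrib, ← Finset.mul_sum, Finset.sum_const, Finset.card_univ,
    Fintype.card_fin, nsmul_eq_mul]
  rw [h1, h2, h3, h4]
  push_cast
  ring

/-- the estimate in one variable -/
private lemma PhiB_num {f A : ℝ} (hf : f ^ 2 = f + 1) (f1 : 1.618033 ≤ f) (f2 : f ≤ 1.618034)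
    (hA : 0 ≤ A) (hA2 : A ≤ 25 * f + 10) : 177 / 25 ≤
      20 * (-3653927209 / 4037204521 + 713405150 / 576743503 * ((3 * f + 1) / 2) +
        (-1790588750 / 4037204521) * ((3 * f + 1) / 2) ^ 2 +
        44750000 / 576743503 * ((3 * f + 1) / 2) ^ 3 +
        (-62500000 / 12111613563) * ((3 * f + 1) / 2) ^ 4) +
        (-1790588750 / 4037204521 + 3 * (44750000 / 576743503) * ((3 * f + 1) / 2) +
          6 * (-62500000 / 12111613563) * ((3 * f + 1) / 2) ^ 2) * A +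
        (-62500000 / 12111613563) * (9 / 100 * A ^ 2) := by
  have e2 : ((3 * f + 1) / 2) ^ 2 = (15 * f + 10) / 4 := by linear_combination (9 / 4) * hf
  have e3 : ((3 * f + 1) / 2) ^ 3 = (90 * f + 55) / 8 := by
    have : ((3 * f + 1) / 2) ^ 3 = ((3 * f + 1) / 2) ^ 2 * ((3 * f + 1) / 2) := by ring
    rw [this, e2]
    linear_combination (45 / 8) * hf
  have e4 : ((3 * f + 1) / 2) ^ 4 = (525 * f + 325) / 16 := by
    have : ((3 * f + 1) / 2) ^ 4 = (((3 * f + 1) / 2) ^ 2) ^ 2 := by ring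
    rw [this, e2]
    linear_combination (225 / 16) * hf
  rw [e2, e3, e4]
  have hA3 : A ≤ 50.45085 := by linarith
  have h1 : 0 ≤ A * (50.45085 - A) := mul_nonneg hA (by linarith)
  have h2 : 0 ≤ A * (f - 1.618033) := mul_nonneg hA (by linarith)
  have h3 : 0 ≤ A * (1.618034 - f) := mul_nonneg hA (by linarith)
  nlinarith [h1, h2, h3]

theorem phi_low {y : D} (h : Cone y) : 177 / 25 ≤ ∑ t, ph y t := by
  obtain ⟨f, hf⟩ : ∃ f : ℝ, f = Real.goldenRatio := ⟨_, rfl⟩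
  have hf2 : f ^ 2 = f + 1 := by rw [hf]; exact Real.goldenRatio_sq
  have hf0 : 0 < f := by rw [hf]; exact Real.goldenRatio_pos
  have f1 : 1.618033 ≤ f := by
    by_contra hcon
    push Not at hcon
    nlinarith
  have f2 : f ≤ 1.618034 := by
    by_contra hcon
    push Not at hcon
    nlinarith
  obtain ⟨h0, hC⟩ := h
  have hr := fun t => r_low ⟨h0, hC⟩ t
  have hCy : C y = 2 * y.1 := rfl
  obtain ⟨c, hc⟩ : ∃ c : ℝ, c = f ^ 2 / 2 / y.1 := ⟨_, rfl⟩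
  obtain ⟨w, hw⟩ : ∃ w : ℝ, w = (y.2 ⬝ᵥ y.2) / y.1 ^ 2 := ⟨_, rfl⟩
  have hn : 0 ≤ y.2 ⬝ᵥ y.2 := by
    simp only [dotProduct]
    exact Finset.sum_nonneg fun i _ => mul_self_nonneg _
  have hw0 : 0 ≤ w := by rw [hw]; positivity
  have hw1 : f ^ 6 * w ≤ 3 * f - 1 := by
    rw [hw, ← mul_div_assoc, div_le_iff₀ (by positivity), hf]
    exact hC
  -- the quotient
  have hrt : ∀ t, Real.goldenRatio ^ 2 * St y t =
      C y * (((3 * f + 1) / 2 + c * (y.2 ⬝ᵥ mt t)) + 1) := by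
    intro t
    rw [St_mt, hCy, hc, ← hf]
    have h3 : 3 * f ^ 2 = 3 * f + 3 := by linarith
    field_simp
    linear_combination (y.1 : ℝ) * h3
  have hC0 : 0 < C y := by rw [hCy]; linarith
  have hph : ∀ t, ph y t = (((3 * f + 1) / 2 + c * (y.2 ⬝ᵥ mt t)) - 1) /
      (((3 * f + 1) / 2 + c * (y.2 ⬝ᵥ mt t)) + 1) := by
    intro t
    unfold ph
    rw [hrt t]
    have e : C y * (((3 * f + 1) / 2 + c * (y.2 ⬝ᵥ mt t)) + 1) - 2 * C y =
        C y * (((3 * f + 1) / 2 + c * (y.2 ⬝ᵥ mt t)) - 1) := by ring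
    rw [e, mul_div_mul_left _ _ hC0.ne']
  have hra : ∀ t, 22 / 125 ≤ (3 * f + 1) / 2 + c * (y.2 ⬝ᵥ mt t) := by
    intro t
    have h1 := hr t
    rw [hrt t, mul_comm (1 + 22 / 125 : ℝ)] at h1
    have h2 := le_of_mul_le_mul_left h1 hC0
    linarith
  -- the power sums
  have s1 : ∑ t, c * (y.2 ⬝ᵥ mt t) = 0 := by
    rw [← Finset.mul_sum, mom1, mul_zero]
  have s3 : ∑ t, (c * (y.2 ⬝ᵥ mt t)) ^ 3 = 0 := by
    simp only [mul_pow]
    rw [← Finset.mul_sum, mom3, mul_zero]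
  have s2 : ∑ t, (c * (y.2 ⬝ᵥ mt t)) ^ 2 = c ^ 2 * (20 / 3 * (9 * f + 6) * (y.2 ⬝ᵥ y.2)) := by
    simp only [mul_pow]
    rw [← Finset.mul_sum, mom2, hf]
  have s4 : ∑ t, (c * (y.2 ⬝ᵥ mt t)) ^ 4 =
      9 / 100 * (c ^ 2 * (20 / 3 * (9 * f + 6) * (y.2 ⬝ᵥ y.2))) ^ 2 := by
    simp only [mul_pow]
    rw [← Finset.mul_sum, mom4, hf]
    ring
  have hA : c ^ 2 * (20 / 3 * (9 * f + 6) * (y.2 ⬝ᵥ y.2)) = 5 * (3 * f + 2) * (f ^ 4 * w) := by
    rw [hc, hw]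
    field_simp
    ring
  have hA0 : 0 ≤ c ^ 2 * (20 / 3 * (9 * f + 6) * (y.2 ⬝ᵥ y.2)) := by positivity
  have hA1 : c ^ 2 * (20 / 3 * (9 * f + 6) * (y.2 ⬝ᵥ y.2)) ≤ 25 * f + 10 := by
    rw [hA]
    -- `f ^ 4 w = (2 - f) f ^ 6 w`
    have e1 : f ^ 4 * w = (2 - f) * (f ^ 6 * w) := by
      have e2 : (2 - f) * f ^ 2 = 1 := by
        have : (2 - f) * f ^ 2 = 2 * f ^ 2 - f * f ^ 2 := by ring
        rw [this, hf2]
        linear_combination (-1 : ℝ) * hf2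
      calc f ^ 4 * w = f ^ 4 * w * ((2 - f) * f ^ 2) := by rw [e2, mul_one]
        _ = _ := by ring
    rw [e1]
    have h2 : (2 - f) * (f ^ 6 * w) ≤ (2 - f) * (3 * f - 1) :=
      mul_le_mul_of_nonneg_left hw1 (by linarith)
    calc 5 * (3 * f + 2) * ((2 - f) * (f ^ 6 * w))
        ≤ 5 * (3 * f + 2) * ((2 - f) * (3 * f - 1)) :=
          mul_le_mul_of_nonneg_left h2 (by positivity)
      _ = 25 * f + 10 := by
          have e3 : 5 * (3 * f + 2) * ((2 - f) * (3 * f - 1)) =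
              5 * (9 * f ^ 2 + 3 * f - 2) * (2 - f) := by ring
          rw [e3, hf2]
          linear_combination (-60 : ℝ) * hf2
  have hsum := PhiB_sum (-3653927209 / 4037204521) (713405150 / 576743503)
    (-1790588750 / 4037204521) (44750000 / 576743503) (-62500000 / 12111613563)
    ((3 * f + 1) / 2) _ (fun t => c * (y.2 ⬝ᵥ mt t)) s1 s2 s3 s4
  have hnum := PhiB_num hf2 f1 f2 hA0 hA1
  rw [← hsum] at hnum
  refine hnum.trans (Finset.sum_le_sum fun t _ => ?_)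
  rw [hph t]
  refine le_trans (le_of_eq ?_) (pol_le (hra t))
  ring

end Pool.Agent.H77.EE
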