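import Mathlib
import Pool.Agent.H77.EE.Defs
import Pool.Agent.H77.EE.CxA
import Pool.Agent.H77.EE.GlM
import Pool.Agent.H77.EE.PhiA
import Pool.Agent.H77.EE.PhiB

/-!
# Flux: the isoperimetric inequality

`(177 / 25) |N| ≤ Σ_{F ∈ N} Σ_t ph (σ F) t` (`phi_low`). The pairs `(F, t)` with `F ∈ N`, `nbr F t ∈ N`
contribute zero: the involution `(F, t) ↦ (nbr F t, tr F t)` of this set (`nbr_nbr`, `tr_tr`) changes the
sign (`gl_phi`, `hc` with `has ∅` trivial), so the sum `S` satisfies `S = - S` (`Finset.sum_involution` or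
`Finset.sum_bij`). The other pairs contribute at most `103 / 147` each (`phi_abs`). So
`(177 / 25) |N| ≤ (103 / 147) B`, and `10 (103 / 147) < 177 / 25`, `|N| > 0`. Use
`Fintype.ofFinite`, classical decidability, `Set.ncard_eq_toFinset_card'`.
-/

set_option autoImplicit false

namespace Pool.Agent.H77.EE

theorem flux {Φ V : Type} [Finite Φ] (K : Cx Φ V) {N : Set Φ} (hN : N.Nonempty) {σ : Φ → D}
    (hc : K.Cons N ∅ σ) (hpos : ∀ F ∈ N, Cone (σ F)) :
    10 * N.ncard < {p : Φ × Fin 20 | p.1 ∈ N ∧ K.nbr p.1 p.2 ∉ N}.ncard := by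
  classical
  haveI : Fintype Φ := Fintype.ofFinite Φ
  set M : Finset Φ := Finset.univ.filter (fun F => F ∈ N) with hM
  have hNM : N = (M : Set Φ) := by
    ext F; simp [hM]
  have hcard : N.ncard = M.card := by
    rw [hNM, Set.ncard_coe_finset]
  set B : Finset (Φ × Fin 20) :=
    Finset.univ.filter (fun p => p.1 ∈ N ∧ K.nbr p.1 p.2 ∉ N) with hB
  have hBB : {p : Φ × Fin 20 | p.1 ∈ N ∧ K.nbr p.1 p.2 ∉ N} = (B : Set (Φ × Fin 20)) := by
    ext p; simp [hB]
  have hBcard : {p : Φ × Fin 20 | p.1 ∈ N ∧ K.nbr p.1 p.2 ∉ N}.ncard = B.card := by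
    rw [hBB, Set.ncard_coe_finset]
  set I : Finset (Φ × Fin 20) :=
    Finset.univ.filter (fun p => p.1 ∈ N ∧ K.nbr p.1 p.2 ∈ N) with hI
  -- the inner pairs contribute zero
  have hI0 : ∑ p ∈ I, ph (σ p.1) p.2 = 0 := by
    have h1 : ∑ p ∈ I, ph (σ p.1) p.2 = ∑ p ∈ I, - ph (σ p.1) p.2 := by
      refine Finset.sum_bij' (fun p _ => (K.nbr p.1 p.2, K.tr p.1 p.2))
        (fun p _ => (K.nbr p.1 p.2, K.tr p.1 p.2)) ?_ ?_ ?_ ?_ ?_
      · intro p hp
        simp only [hI, Finset.mem_filter, Finset.mem_univ, true_and] at hp ⊢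
        refine ⟨hp.2, ?_⟩
        rw [nbr_nbr]; exact hp.1
      · intro p hp
        simp only [hI, Finset.mem_filter, Finset.mem_univ, true_and] at hp ⊢
        refine ⟨hp.2, ?_⟩
        rw [nbr_nbr]; exact hp.1
      · intro p _
        exact Prod.ext (nbr_nbr K p.1 p.2) (tr_tr K p.1 p.2)
      · intro p _
        exact Prod.ext (nbr_nbr K p.1 p.2) (tr_tr K p.1 p.2)
      · intro p hp
        simp only [hI, Finset.mem_filter, Finset.mem_univ, true_and] at hp
        have hg := gl_phi K (hc p.1 p.2 hp.1 hp.2 (by intro x hx; exact absurd hx (by simp)))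
        simp only [hg, neg_neg]
    rw [Finset.sum_neg_distrib] at h1
    linarith
  -- the total
  have htot : ∑ F ∈ M, ∑ t, ph (σ F) t = ∑ p ∈ I, ph (σ p.1) p.2 + ∑ p ∈ B, ph (σ p.1) p.2 := by
    have h2 : ∑ F ∈ M, ∑ t, ph (σ F) t
        = ∑ p ∈ (Finset.univ.filter (fun p : Φ × Fin 20 => p.1 ∈ N)), ph (σ p.1) p.2 := by
      have h3 : (Finset.univ.filter (fun p : Φ × Fin 20 => p.1 ∈ N)) = M ×ˢ Finset.univ := by
        ext p; simp [hM]
      rw [h3, Finset.sum_product]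
    rw [h2, ← Finset.sum_filter_add_sum_filter_not _ (fun p : Φ × Fin 20 => K.nbr p.1 p.2 ∈ N)]
    rw [Finset.filter_filter, Finset.filter_filter]
  have hlow : (177 / 25 : ℝ) * M.card ≤ ∑ F ∈ M, ∑ t, ph (σ F) t := by
    have : ∑ _F ∈ M, (177 / 25 : ℝ) ≤ ∑ F ∈ M, ∑ t, ph (σ F) t := by
      apply Finset.sum_le_sum
      intro F hF
      apply phi_low
      apply hpos
      simpa [hM] using hF
    rw [Finset.sum_const, nsmul_eq_mul] at this
    linarith
  have hup : ∑ p ∈ B, ph (σ p.1) p.2 ≤ (103 / 147 : ℝ) * B.card := by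
    have : ∑ p ∈ B, ph (σ p.1) p.2 ≤ ∑ _p ∈ B, (103 / 147 : ℝ) := by
      apply Finset.sum_le_sum
      intro p hp
      simp only [hB, Finset.mem_filter, Finset.mem_univ, true_and] at hp
      exact le_trans (le_abs_self _) (phi_abs (hpos p.1 hp.1) p.2)
    rw [Finset.sum_const, nsmul_eq_mul] at this
    linarith
  have hMpos : (0 : ℝ) < M.card := by
    have : 0 < M.card := by
      rw [Finset.card_pos]
      obtain ⟨F, hF⟩ := hN
      exact ⟨F, by simp [hM, hF]⟩
    exact_mod_cast this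
  rw [hcard, hBcard]
  have hfin : (10 * M.card : ℝ) < B.card := by
    rw [htot, hI0, zero_add] at hlow
    nlinarith [hlow, hup, hMpos]
  exact_mod_cast hfin

end Pool.Agent.H77.EE
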