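import Mathlib
import Pool.Agent.H77.EE.Defs
import Pool.Agent.H77.EE.Dev
import Pool.Agent.H77.EE.ConeD
import Pool.Agent.H77.EE.Flux

/-!
# AbsMain: the main theorem for a sweep

`N = {F | h F < 0}` is a lower set. `dev` with `W = ∅`, `s = N`, `F0` the lowest cell (in `N` as `N` is
nonempty), `y0 = (1, 0)` (`Cone`: `0 < 1`, `0 ≤ 3 φ - 1`); `hok`: if all cells other than `F ∈ N` at the edge
are lower than `F` then all cells at the edge are in `N`. `cone_dev`, `flux`.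
-/

set_option autoImplicit false

namespace Pool.Agent.H77.EE

theorem abs_main {Φ V : Type} [Finite Φ] (K : Cx Φ V) (w : Sw K) (hN : ∃ F, w.h F < 0)
    (hok : ∀ f : Fg Φ, (∀ G, (∀ x ∈ K.ed f, K.mem x G) → w.h G < 0) → 3 ∣ K.val (K.ed f)) :
    10 * {F | w.h F < 0}.ncard <
      {p : Φ × Fin 20 | w.h p.1 < 0 ∧ ¬ w.h (K.nbr p.1 p.2) < 0}.ncard := by
  have hex : ∃ F0 : Φ, ∀ G, w.h F0 ≤ w.h G := by
    obtain ⟨F, -⟩ := hN
    have : Nonempty Φ := ⟨F⟩
    exact Finite.exists_min w.h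
  obtain ⟨F0, hF0⟩ := hex
  have hF0N : w.h F0 < 0 := by
    obtain ⟨F, hF⟩ := hN
    exact lt_of_le_of_lt (hF0 F) hF
  have hlow : ∀ F ∈ {F : Φ | w.h F < 0}, ∀ G, w.h G < w.h F → G ∈ {F : Φ | w.h F < 0} :=
    fun F hF G hG => lt_trans hG hF
  obtain ⟨σ, hσ, hσ0⟩ := dev K w ∅ {F | w.h F < 0} hlow (by
    intro F hF t k _ _ hG
    apply hok (F, t, k)
    intro G hG'
    by_cases h : G = F
    · rw [h]; exact hF
    · exact lt_trans (hG G h hG') hF) (F0 := F0) hF0N (fun G _ => hF0 G) (1, 0)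
  have hc0 : Cone (σ F0) := by
    rw [hσ0]
    refine ⟨one_pos, ?_⟩
    have h1 := Real.one_lt_goldenRatio
    simp
    linarith
  have hcone := cone_dev K w hlow hσ hF0 hc0
  exact flux K ⟨F0, hF0N⟩ hσ hcone

end Pool.Agent.H77.EE
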