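import Mathlib
import Pool.Agent.H77.EE.Defs
import Pool.Agent.H77.EE.CxA
import Pool.Agent.H77.EE.FlagE
import Pool.Agent.H77.EE.Comb
import Pool.Agent.H77.EE.AbsMain

/-!
# AbsFV: exceptional edges outside a cell and outside the star of a vertex

`swap`: the involution `(F, t) ↦ (nbr F t, tr F t)`. `abs_cell`: otherwise `abs_main` applies
(`h G < 0` iff `G ≠ F0`): the number of cells with `h < 0` is `card Φ - 1 ≥ 3`, and the number of pairs
is, by `swap`, at most the number of pairs `(F0, t)`, which is `20`: `30 < 20`. `abs_vertex`: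
otherwise `abs_main` applies; `N = {F | v ∉ F}`; by `swap` the pairs are at most the pairs `(G, t)`,
`v ∈ G`, `v` not in `nbr G t`, so `v` not in the triangle `t` (`mem_of_has`-like: a vertex of `t` is
a vertex of `nbr G t` by `lab_pe`): `15` for every `G` (`card_avoid`), so
`10 (card Φ - p) < 15 p`, `2 card Φ < 5 p`.
-/

set_option autoImplicit false

namespace Pool.Agent.H77.EE

variable {Φ V : Type} [Finite Φ] (K : Cx Φ V)

theorem swap (N : Set Φ) :
    {p : Φ × Fin 20 | p.1 ∈ N ∧ K.nbr p.1 p.2 ∉ N}.ncard =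
      {p : Φ × Fin 20 | p.1 ∉ N ∧ K.nbr p.1 p.2 ∈ N}.ncard := by
  have hinv : ∀ p : Φ × Fin 20,
      ((K.nbr (K.nbr p.1 p.2) (K.tr p.1 p.2), K.tr (K.nbr p.1 p.2) (K.tr p.1 p.2)) :
        Φ × Fin 20) = p := by
    rintro ⟨F, t⟩
    simp only [nbr_nbr, tr_tr]
  have hinj : Function.Injective
      (fun p : Φ × Fin 20 => ((K.nbr p.1 p.2, K.tr p.1 p.2) : Φ × Fin 20)) := by
    intro p q h
    have h1 : K.nbr p.1 p.2 = K.nbr q.1 q.2 := congrArg Prod.fst h
    have h2 : K.tr p.1 p.2 = K.tr q.1 q.2 := congrArg Prod.snd h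
    rw [← hinv p, ← hinv q, h1, h2]
  have himg : (fun p : Φ × Fin 20 => ((K.nbr p.1 p.2, K.tr p.1 p.2) : Φ × Fin 20)) ''
      {p : Φ × Fin 20 | p.1 ∈ N ∧ K.nbr p.1 p.2 ∉ N} =
      {p : Φ × Fin 20 | p.1 ∉ N ∧ K.nbr p.1 p.2 ∈ N} := by
    ext q
    constructor
    · rintro ⟨p, ⟨h1, h2⟩, rfl⟩
      refine ⟨h2, ?_⟩
      rw [nbr_nbr]
      exact h1
    · rintro ⟨h1, h2⟩
      refine ⟨(K.nbr q.1 q.2, K.tr q.1 q.2), ⟨h2, ?_⟩, hinv q⟩
      rw [nbr_nbr]
      exact h1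
  rw [← himg, Set.ncard_image_of_injective _ hinj]

theorem abs_cell (w : Sw K) (F0 : Φ) (hw : ∀ F, w.h F < 0 ↔ F ≠ F0) (hcard : 4 ≤ Nat.card Φ) :
    ∃ f : Fg Φ, ¬ 3 ∣ K.val (K.ed f) ∧ ¬ ∀ x ∈ K.ed f, K.mem x F0 := by
  by_contra hno
  push Not at hno
  have hN : {F : Φ | w.h F < 0} = {F0}ᶜ := by
    ext F
    rw [Set.mem_ofPred_eq, hw, Set.mem_compl_iff, Set.mem_singleton_iff]
  have hNc : ({F0} : Set Φ).ncard + {F : Φ | w.h F < 0}.ncard = Nat.card Φ := by
    rw [hN]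
    exact Set.ncard_add_ncard_compl _
  rw [Set.ncard_singleton] at hNc
  have hex : ∃ F, w.h F < 0 := by
    have h1 : 0 < {F : Φ | w.h F < 0}.ncard := by omega
    exact (Set.ncard_pos (Set.toFinite _)).1 h1
  have hmain := abs_main K w hex (by
    intro f hf
    by_contra h3
    have h4 := hf F0 (hno f h3)
    exact (hw F0).1 h4 rfl)
  have hsw := swap K {F : Φ | w.h F < 0}
  have hsw' : {p : Φ × Fin 20 | w.h p.1 < 0 ∧ ¬ w.h (K.nbr p.1 p.2) < 0}.ncard ≤ 20 := by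
    refine le_trans (le_of_eq hsw) ?_
    have hsub : {p : Φ × Fin 20 | p.1 ∉ {F : Φ | w.h F < 0} ∧
        K.nbr p.1 p.2 ∈ {F : Φ | w.h F < 0}} ⊆
        (fun t : Fin 20 => ((F0, t) : Φ × Fin 20)) '' Set.univ := by
      rintro ⟨F, t⟩ ⟨h1, _⟩
      have h2 : ¬ w.h F < 0 := h1
      rw [hw, not_not] at h2
      exact ⟨t, trivial, by rw [h2]⟩
    refine (Set.ncard_le_ncard hsub (Set.toFinite _)).trans ?_
    refine (Set.ncard_image_le (Set.toFinite _)).trans ?_
    rw [Set.ncard_univ, Nat.card_eq_fintype_card, Fintype.card_fin]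
  omega

theorem abs_vertex (w : Sw K) (v : V) (hw : ∀ F, w.h F < 0 ↔ ¬ K.mem v F)
    (hne : ∃ F, ¬ K.mem v F) (hcard : 5 * {F | K.mem v F}.ncard ≤ 2 * Nat.card Φ) :
    ∃ f : Fg Φ, ¬ 3 ∣ K.val (K.ed f) ∧ ∀ G, (∀ x ∈ K.ed f, K.mem x G) → ¬ K.mem v G := by
  classical
  by_contra hno
  push Not at hno
  have hN : {F : Φ | w.h F < 0} = {F : Φ | K.mem v F}ᶜ := by
    ext F
    rw [Set.mem_ofPred_eq, hw, Set.mem_compl_iff, Set.mem_ofPred_eq]
  have hNc : {F : Φ | K.mem v F}.ncard + {F : Φ | w.h F < 0}.ncard = Nat.card Φ := by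
    rw [hN]
    exact Set.ncard_add_ncard_compl _
  have hex : ∃ F, w.h F < 0 := by
    obtain ⟨F, hF⟩ := hne
    exact ⟨F, (hw F).2 hF⟩
  have hmain := abs_main K w hex (by
    intro f hf
    by_contra h3
    obtain ⟨G, hG, hvG⟩ := hno f h3
    exact (hw G).1 (hf G hG) hvG)
  have hsw := swap K {F : Φ | w.h F < 0}
  have hsw' : {p : Φ × Fin 20 | w.h p.1 < 0 ∧ ¬ w.h (K.nbr p.1 p.2) < 0}.ncard ≤
      {F : Φ | K.mem v F}.ncard * 15 := by
    refine le_trans (le_of_eq hsw) ?_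
    have hfin : Fintype Φ := Fintype.ofFinite Φ
    set M : Finset Φ := Finset.univ.filter (fun F => K.mem v F) with hM
    have hMc : {F : Φ | K.mem v F}.ncard = M.card := by
      rw [← Set.ncard_coe_finset]
      congr 1
      ext F
      simp [hM]
    let iG : Φ → Fin 12 := fun G => if h : K.mem v G then h.choose else 0
    have hiG : ∀ G, K.mem v G → K.lab G (iG G) = v := by
      intro G h
      have h1 : iG G = h.choose := dif_pos h
      rw [h1]
      exact h.choose_spec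
    set T : Finset (Φ × Fin 20) := M.biUnion (fun G =>
      ({G} : Finset Φ) ×ˢ (Finset.univ.filter (fun t : Fin 20 => ∀ k, tv t k ≠ iG G))) with hT
    have hTc : T.card ≤ M.card * 15 := by
      refine Finset.card_biUnion_le_card_mul _ _ _ fun G _ => ?_
      rw [Finset.card_product, Finset.card_singleton, one_mul]
      exact (card_avoid (iG G)).le
    have hsub : {p : Φ × Fin 20 | p.1 ∉ {F : Φ | w.h F < 0} ∧
        K.nbr p.1 p.2 ∈ {F : Φ | w.h F < 0}} ⊆ (T : Set (Φ × Fin 20)) := by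
      rintro ⟨F, t⟩ ⟨h1, h2⟩
      have h1' : ¬ w.h F < 0 := h1
      rw [hw, not_not] at h1'
      have h2' : w.h (K.nbr F t) < 0 := h2
      rw [hw] at h2'
      rw [hT, Finset.mem_coe, Finset.mem_biUnion]
      refine ⟨F, by rw [hM]; exact Finset.mem_filter.2 ⟨Finset.mem_univ _, h1'⟩, ?_⟩
      rw [Finset.mem_product]
      refine ⟨Finset.mem_singleton_self _, Finset.mem_filter.2 ⟨Finset.mem_univ _, ?_⟩⟩
      intro k hk
      refine h2' ⟨tv (K.tr F t) (K.pe F t k), ?_⟩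
      rw [K.lab_pe]
      have h3 : tv t k = iG F := hk
      rw [h3]
      exact hiG F h1'
    refine (Set.ncard_le_ncard hsub (Set.toFinite _)).trans ?_
    rw [Set.ncard_coe_finset, hMc]
    exact hTc
  omega

end Pool.Agent.H77.EE
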