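import Mathlib
import Pool.Agent.H77.EE.Defs
import Pool.Agent.H77.EE.CxA
import Pool.Agent.H77.EE.GlM
import Pool.Agent.H77.EE.SwA

/-!
# Chain: prescribing the value at a higher cell

Strong induction on the height of `F1` (finitely many cells: induct on the number of cells with
smaller height). If `F1 = F0` take `y0 = y1`. Otherwise `w.h F0 < w.h F1` (`hmin`, `h_inj`), `low_exists`
(with `G = F0`) gives `t ⊇ W` with `G = nbr F1 t` lower; `gl_exists` gives `z` with `Gl F1 t y1 z`; the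
induction hypothesis for `G`, `z` (`has_nbr`) gives `y0`; if `σ F0 = y0` then `σ G = z`, and `Cons` with
`gl_unique'` gives `σ F1 = y1`.
-/

set_option autoImplicit false

namespace Pool.Agent.H77.EE

private theorem Chain_aux {Φ V : Type} [Finite Φ] (K : Cx Φ V) (w : Sw K) (W : Set V) {F0 : Φ}
    (hF0 : ∀ x ∈ W, K.mem x F0) (hmin : ∀ G, (∀ x ∈ W, K.mem x G) → w.h F0 ≤ w.h G) (n : ℕ) :
    ∀ F1 : Φ, {G | w.h G < w.h F1}.ncard = n → (∃ t, K.has W F1 t) → ∀ y1 : D,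
    ∃ y0 : D, ∀ σ : Φ → D, K.Cons {G | w.h G ≤ w.h F1} W σ → σ F0 = y0 → σ F1 = y1 := by
  induction n using Nat.strong_induction_on with
  | _ n ih =>
    intro F1 hn hF1 y1
    by_cases h01 : F1 = F0
    · subst h01
      exact ⟨y1, fun σ _ h => h⟩
    · obtain ⟨t0, ht0⟩ := hF1
      have hle : w.h F0 ≤ w.h F1 := hmin F1 fun x hx => (mem_of_has K ht0 hx).1
      have hlt : w.h F0 < w.h F1 := lt_of_le_of_ne hle fun h => h01 (w.h_inj h).symm
      obtain ⟨t, ht, hl⟩ := low_exists w ⟨t0, ht0⟩ hF0 hlt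
      obtain ⟨z, hz⟩ := gl_exists K F1 t y1
      have hcard : {G | w.h G < w.h (K.nbr F1 t)}.ncard < n := by
        rw [← hn]
        refine Set.ncard_lt_ncard ?_ (Set.toFinite _)
        refine ⟨fun G hG => lt_trans hG hl, fun h => ?_⟩
        have h1 : K.nbr F1 t ∈ {G | w.h G < w.h (K.nbr F1 t)} := h hl
        exact lt_irrefl (w.h (K.nbr F1 t)) h1
      obtain ⟨y0, hy0⟩ := ih _ hcard (K.nbr F1 t) rfl ⟨_, has_nbr K ht⟩ z
      refine ⟨y0, fun σ hσ h0 => ?_⟩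
      have h1 : σ (K.nbr F1 t) = z := by
        refine hy0 σ ?_ h0
        intro F s hF hn' hs
        exact hσ F s (le_trans hF hl.le) (le_trans hn' hl.le) hs
      have h2 := hσ F1 t (le_refl (w.h F1)) hl.le ht
      rw [h1] at h2
      exact gl_unique' K h2 hz

theorem chain {Φ V : Type} [Finite Φ] (K : Cx Φ V) (w : Sw K) (W : Set V) {F0 : Φ}
    (hF0 : ∀ x ∈ W, K.mem x F0) (hmin : ∀ G, (∀ x ∈ W, K.mem x G) → w.h F0 ≤ w.h G) (F1 : Φ)
    (hF1 : ∃ t, K.has W F1 t) (y1 : D) :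
    ∃ y0 : D, ∀ σ : Φ → D, K.Cons {G | w.h G ≤ w.h F1} W σ → σ F0 = y0 → σ F1 = y1 :=
  Chain_aux K w W hF0 hmin _ F1 rfl hF1 y1

end Pool.Agent.H77.EE
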