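import Mathlib
import Pool.Agent.H77.EE.Defs
import Pool.Agent.H77.EE.Comb
import Pool.Agent.H77.EE.GzM
import Pool.Agent.H77.EE.CxA
import Pool.Agent.H77.EE.GlM

/-!
# SpM: the special datum of a vertex

`sp i` is the scalar product with the vertex `i` in the honeycomb `{3,5,3}` (scaled):
`X (sp i) i = 4`, `X (sp i) j = 6 φ + 2` for adjacent `j`, `C (sp i) = 2 φ ^ 6`. It is positive and
glued along every triangle containing the vertex.
-/

set_option autoImplicit false

namespace Pool.Agent.H77.EE

/-- the special datum of the vertex `i` -/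
noncomputable def sp (i : Fin 12) : D :=
  (Real.goldenRatio ^ 6, (1 - 3 * Real.goldenRatio) • pt i)

private theorem sp_pow : Real.goldenRatio ^ 6 = 8 * Real.goldenRatio + 5 := by
  have h := Real.goldenRatio_sq
  calc Real.goldenRatio ^ 6 = (Real.goldenRatio ^ 2) ^ 3 := by ring
    _ = (Real.goldenRatio + 1) ^ 3 := by rw [h]
    _ = 8 * Real.goldenRatio + 5 := by
      linear_combination (Real.goldenRatio + 4) * h

private theorem sp_dot (i j : Fin 12) : pt i ⬝ᵥ pt j = ev (dp i j) := by
  have h1 := Real.goldenRatio_sq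
  simp only [dotProduct, Fin.sum_univ_three, pt, dp, zm, ev, Prod.fst_add, Prod.snd_add]
  push_cast
  linear_combination ((zt i 0).2 * (zt j 0).2 + (zt i 1).2 * (zt j 1).2 +
    (zt i 2).2 * (zt j 2).2 : ℝ) * h1

private theorem sp_dps : ∀ i : Fin 12, dp i i = (2, 1) := by
  decide

theorem sp_self (i : Fin 12) : X (sp i) i = 4 := by
  have h1 := Real.goldenRatio_sq
  unfold X sp
  simp only
  rw [smul_dotProduct, sp_dot, sp_dps, sp_pow, smul_eq_mul]
  unfold ev
  push_cast
  linear_combination (-3 : ℝ) * h1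

theorem sp_adj {i j : Fin 12} (h : adj i j) : X (sp i) j = 6 * Real.goldenRatio + 2 := by
  have h1 := Real.goldenRatio_sq
  have h2 : dp i j = (0, 1) := h
  unfold X sp
  simp only
  rw [smul_dotProduct, sp_dot, h2, sp_pow, smul_eq_mul]
  unfold ev
  push_cast
  linear_combination (-3 : ℝ) * h1

theorem sp_cone (i : Fin 12) : Cone (sp i) := by
  have h1 := Real.goldenRatio_sq
  have h0 := Real.goldenRatio_pos
  have h2 := Real.one_lt_goldenRatio
  refine ⟨by unfold sp; positivity, ?_⟩
  unfold sp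
  simp only
  rw [smul_dotProduct, dotProduct_smul, sp_dot, sp_dps, smul_eq_mul, smul_eq_mul]
  have e : ev (2, 1) = 2 + Real.goldenRatio := by
    unfold ev
    push_cast
    ring
  rw [e]
  have h3 : (3 * Real.goldenRatio - 1) * (2 + Real.goldenRatio) ≤ Real.goldenRatio ^ 6 := by
    rw [sp_pow]
    nlinarith
  have h4 : 0 < 3 * Real.goldenRatio - 1 := by linarith
  calc Real.goldenRatio ^ 6 * ((1 - 3 * Real.goldenRatio) *
        ((1 - 3 * Real.goldenRatio) * (2 + Real.goldenRatio)))
      = Real.goldenRatio ^ 6 * (3 * Real.goldenRatio - 1) *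
        ((3 * Real.goldenRatio - 1) * (2 + Real.goldenRatio)) := by ring
    _ ≤ Real.goldenRatio ^ 6 * (3 * Real.goldenRatio - 1) * Real.goldenRatio ^ 6 :=
      mul_le_mul_of_nonneg_left h3 (by positivity)
    _ = (3 * Real.goldenRatio - 1) * (Real.goldenRatio ^ 6) ^ 2 := by ring

private theorem sp_St (t : Fin 20) (k : Fin 3) :
    St (sp (tv t k)) t = 12 * Real.goldenRatio + 8 := by
  have key : ∀ j, X (sp (tv t k)) (tv t j) = if j = k then 4 else 6 * Real.goldenRatio + 2 := by
    intro j
    by_cases h : j = k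
    · rw [if_pos h, h, sp_self]
    · rw [if_neg h]
      exact sp_adj (tv_adj (Ne.symm h))
  unfold St
  simp only [key]
  rw [Fin.sum_univ_three]
  fin_cases k <;> simp <;> ring

theorem sp_gz {t t' : Fin 20} {p : Fin 3 → Fin 3} (hp : Function.Injective p) (k : Fin 3) :
    Gz t (sp (tv t k)) t' p (sp (tv t' (p k))) := by
  have h1 := Real.goldenRatio_sq
  refine ⟨fun j => ?_, ?_⟩
  · by_cases h : j = k
    · rw [h, sp_self, sp_self]
    · rw [sp_adj (tv_adj (Ne.symm h)), sp_adj (tv_adj (fun e => h (hp e).symm))]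
  · rw [sp_St]
    unfold C sp
    simp only
    rw [sp_pow]
    linear_combination (-(12 * Real.goldenRatio + 20) : ℝ) * h1 + 0

/-- special data are glued along the triangles containing the vertex -/
theorem sp_gl {Φ V : Type} (K : Cx Φ V) {F : Φ} {t : Fin 20} {i i' : Fin 12}
    (h : ∃ k, tv t k = i) (h' : K.lab (K.nbr F t) i' = K.lab F i) : K.Gl F t (sp i) (sp i') := by
  obtain ⟨k, rfl⟩ := h
  have h1 := K.lab_pe F t k
  have h2 : i' = tv (K.tr F t) (K.pe F t k) := K.lab_inj _ (h'.trans h1.symm)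
  rw [h2]
  exact sp_gz (K.pe_inj F t) k

end Pool.Agent.H77.EE
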