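import Mathlib
import Pool.Agent.H77.EE.Defs
import Pool.Agent.H77.EE.CxA
import Pool.Agent.H77.EE.GlM
import Pool.Agent.H77.EE.SwA
import Pool.Agent.H77.EE.FlagE
import Pool.Agent.H77.EE.StepM
import Pool.Agent.H77.EE.Dev
import Pool.Agent.H77.EE.Chain
import Pool.Agent.H77.EE.ConeD
import Pool.Agent.H77.EE.SpM

/-!
# DevV: the development when the edges through one vertex `v` are arbitrary

Let `Fv` be the lowest cell containing `v`, in `s`. The value at the lowest cell `F0` is chosen such
that the value at `Fv` is the special datum of `v` (`chain`). Then, inductively, all cells of `s`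
containing `v` have the special datum (`sp_gl`, `low_exists` for `W = {v}`), so the extensions across
two lower triangles at an edge containing `v` agree without any condition on the edge.
-/

set_option autoImplicit false

namespace Pool.Agent.H77.EE

private lemma devV_aux {Φ V : Type} [Finite Φ] (K : Cx Φ V) (w : Sw K) (v : V)
    {F0 Fv : Φ} (hmin : ∀ G, w.h F0 ≤ w.h G) (hv : K.mem v Fv)
    (hminv : ∀ G, K.mem v G → w.h Fv ≤ w.h G) (y0 : D)
    (hy0 : ∀ σ : Φ → D, K.Cons {G | w.h G ≤ w.h Fv} ∅ σ → σ F0 = y0 →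
      ∀ i, K.lab Fv i = v → σ Fv = sp i) (n : ℕ) :
    ∀ s : Set Φ, s.ncard = n → (∀ F ∈ s, ∀ G, w.h G < w.h F → G ∈ s) →
    (∀ F ∈ s, ∀ t k, v ∉ K.ed (F, t, k) →
      (∀ G, G ≠ F → (∀ x ∈ K.ed (F, t, k), K.mem x G) → w.h G < w.h F) →
      3 ∣ K.val (K.ed (F, t, k))) → F0 ∈ s →
    ∃ σ : Φ → D, K.Cons s ∅ σ ∧ σ F0 = y0 ∧ ∀ F ∈ s, ∀ i, K.lab F i = v → σ F = sp i := by
  classical
  have hasE : ∀ (F : Φ) (t : Fin 20), K.has ∅ F t := fun F t x hx => absurd hx (Set.notMem_empty x)
  induction n with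
  | zero =>
    intro s hn _ _ hF0
    rw [Set.ncard_eq_zero (Set.toFinite s)] at hn
    rw [hn] at hF0
    exact absurd hF0 (Set.notMem_empty F0)
  | succ n ih =>
    intro s hn hs hok hF0
    obtain ⟨F, hF, hmax⟩ := Set.exists_max_image s w.h (Set.toFinite s) ⟨F0, hF0⟩
    have hlow : ∀ G, G ∈ s → G ≠ F → w.h G < w.h F := fun G hG hne =>
      lt_of_le_of_ne (hmax G hG) (fun h => hne (w.h_inj h))
    have hsle : {G | w.h G ≤ w.h F} ⊆ s := by
      intro G hG
      rcases lt_or_eq_of_le (show w.h G ≤ w.h F from hG) with h | h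
      · exact hs F hF G h
      · rw [w.h_inj h]; exact hF
    -- the value at `Fv` is special as soon as `Fv` is the highest cell
    have hFv : F = Fv → ∀ σ : Φ → D, K.Cons s ∅ σ → σ F0 = y0 →
        ∀ i, K.lab F i = v → σ F = sp i := by
      rintro rfl σ hσ h0 i hi
      exact hy0 σ (fun G t hG hG' hW => hσ G t (hsle hG) (hsle hG') hW) h0 i hi
    by_cases hFF : F = F0
    · have hc : K.Cons s ∅ (fun _ => y0) := by
        intro G t hG hG' hW
        exfalso
        have h1 : w.h F0 ≤ w.h G := hmin G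
        have h2 : w.h F0 ≤ w.h (K.nbr G t) := hmin _
        have h3 : w.h G ≤ w.h F0 := hFF ▸ hmax G hG
        have h4 : w.h (K.nbr G t) ≤ w.h F0 := hFF ▸ hmax _ hG'
        exact K.nbr_ne G t (w.h_inj ((le_antisymm h4 h2).trans (le_antisymm h1 h3)))
      refine ⟨fun _ => y0, hc, rfl, ?_⟩
      intro G hG i hi
      have hGF : G = F := by
        apply w.h_inj
        refine le_antisymm (hmax G hG) ?_
        rw [hFF]
        exact hmin G
      rw [hGF] at hi
      have h5 : F = Fv := by
        apply w.h_inj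
        refine le_antisymm ?_ (hminv F ⟨i, hi⟩)
        rw [hFF]
        exact hmin Fv
      exact hFv h5 (fun _ => y0) hc rfl i hi
    · have hcard : (s \ {F}).ncard = n := by
        have h1 := Set.ncard_sdiff_singleton_add_one hF (Set.toFinite s)
        omega
      obtain ⟨σ', hσ', hσ0, hσv⟩ := ih (s \ {F}) hcard
        (fun A hA G hG => ⟨hs A hA.1 G hG, fun h => by
          have h1 : G = F := h
          rw [h1] at hG
          exact absurd (hmax A hA.1) (not_le.mpr hG)⟩)
        (fun A hA => hok A hA.1)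
        ⟨hF0, fun h => hFF (Eq.symm h)⟩
      have hF0F : w.h F0 < w.h F := lt_of_le_of_ne (hmin F) (fun h => hFF (w.h_inj h).symm)
      obtain ⟨t0, -, hlt0⟩ := low_exists w (W := ∅) (F := F) (G := F0) ⟨0, hasE F 0⟩
        (fun x hx => absurd hx (Set.notMem_empty x)) hF0F
      choose E hE using fun t => gl_exists' K F t (σ' (K.nbr F t))
      have hC : K.Cons {G | w.h G < w.h F} ∅ σ' := by
        intro G t hG hG' hW
        refine hσ' G t ⟨hs F hF G hG, fun h => ?_⟩ ⟨hs F hF _ hG', fun h => ?_⟩ hW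
        · have h1 : G = F := h
          have h2 : w.h G < w.h F := hG
          rw [h1] at h2
          exact lt_irrefl _ h2
        · have h1 : K.nbr G t = F := h
          have h2 : w.h (K.nbr G t) < w.h F := hG'
          rw [h1] at h2
          exact lt_irrefl _ h2
      -- the extension across a lower triangle containing `v` is special
      have hEv : ∀ t i, K.lab F i = v → (∃ k, tv t k = i) → w.h (K.nbr F t) < w.h F →
          E t = sp i := by
        intro t i hi hk hlt
        obtain ⟨k, hk⟩ := hk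
        have h1 := K.lab_pe F t k
        have h2 : K.lab (K.nbr F t) (tv (K.tr F t) (K.pe F t k)) = v := by
          rw [h1, hk, hi]
        have h3 : K.nbr F t ∈ s \ {F} := ⟨hs F hF _ hlt, fun h => by
          have h4 : K.nbr F t = F := h
          exact K.nbr_ne F t h4⟩
        have h4 := hσv _ h3 _ h2
        have h5 : K.Gl F t (sp i) (sp (tv (K.tr F t) (K.pe F t k))) :=
          sp_gl K ⟨k, hk⟩ (by rw [h1, hk])
        have h6 := hE t
        rw [h4] at h6
        exact gl_unique' K h6 h5
      have hEc : ∀ t, w.h (K.nbr F t) < w.h F → E t = E t0 := by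
        intro t hlt
        refine low_const w (W := ∅) E ?_ (hasE F t) (hasE F t0) hlt hlt0
        intro r k hW hk hl hl'
        by_cases hve : v ∈ K.ed (F, r, k)
        · obtain ⟨j, hj, hjv⟩ := hve
          have hj' : j ≠ k := hj
          have hjv' : K.lab F (tv r j) = v := hjv
          obtain ⟨j', hj'1, hj'2⟩ := fl_edge hj'
          rw [hEv r (tv r j) hjv' ⟨j, rfl⟩ hl, hEv (fl r k) (tv r j) hjv' ⟨j', hj'2⟩ hl']
        · exact step K w hC hW hk hl hl'
            (hok F hF r k hve (fun G hGF hG => edge_low w hl hl' hGF hG)) (hE r) (hE (fl r k))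
      have hcons : K.Cons s ∅ (Function.update σ' F (E t0)) := by
        intro G t hG hG' hW
        by_cases h1 : G = F
        · subst h1
          have h2 : w.h (K.nbr G t) < w.h G := hlow _ hG' (K.nbr_ne G t)
          rw [Function.update_self, Function.update_of_ne (K.nbr_ne G t), ← hEc t h2]
          exact hE t
        · by_cases h2 : K.nbr G t = F
          · rw [Function.update_of_ne h1]
            have h3 : K.nbr F (K.tr G t) = G := by
              rw [← h2]
              exact nbr_nbr K G t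
            have h5 : w.h (K.nbr F (K.tr G t)) < w.h F := by
              rw [h3]
              exact hlow G hG h1
            have h6 := hE (K.tr G t)
            rw [hEc _ h5, h3] at h6
            have h7 : K.Gl (K.nbr G t) (K.tr G t) (E t0) (σ' G) := by
              rw [h2]
              exact h6
            have h8 := gl_symm' K h7
            rw [h2, Function.update_self]
            exact h8
          · rw [Function.update_of_ne h1, Function.update_of_ne h2]
            exact hσ' G t ⟨hG, h1⟩ ⟨hG', h2⟩ hW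
      have h0 : Function.update σ' F (E t0) F0 = y0 := by
        rw [Function.update_of_ne (fun h => hFF (Eq.symm h))]
        exact hσ0
      refine ⟨Function.update σ' F (E t0), hcons, h0, ?_⟩
      intro G hG i hi
      by_cases hGF : G = F
      · subst hGF
        by_cases hGv : G = Fv
        · exact hFv hGv _ hcons h0 i hi
        · have h1 : w.h Fv < w.h G :=
            lt_of_le_of_ne (hminv G ⟨i, hi⟩) (fun h => hGv (w.h_inj h).symm)
          obtain ⟨t1, k1, hk1⟩ := vertex_tri i
          obtain ⟨t, ht, hlt⟩ := low_exists w (W := {v}) (F := G) (G := Fv)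
            ⟨t1, fun x hx => ⟨k1, by
              have hx' : x = v := hx
              rw [hk1, hi, hx']⟩⟩
            (fun x hx => by
              have hx' : x = v := hx
              rw [hx']
              exact hv) h1
          obtain ⟨k, hk⟩ := ht v rfl
          have hk' : tv t k = i := K.lab_inj G (hk.trans hi.symm)
          rw [Function.update_self, ← hEc t hlt]
          exact hEv t i hi ⟨k, hk'⟩ hlt
      · rw [Function.update_of_ne hGF]
        exact hσv G ⟨hG, hGF⟩ i hi

/-- data on a lower set with no condition on the edges through `v` -/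
theorem devV {Φ V : Type} [Finite Φ] (K : Cx Φ V) (w : Sw K) (v : V) (s : Set Φ)
    (hs : ∀ F ∈ s, ∀ G, w.h G < w.h F → G ∈ s)
    (hok : ∀ F ∈ s, ∀ t k, v ∉ K.ed (F, t, k) →
      (∀ G, G ≠ F → (∀ x ∈ K.ed (F, t, k), K.mem x G) → w.h G < w.h F) →
      3 ∣ K.val (K.ed (F, t, k)))
    {F0 : Φ} (hF0 : F0 ∈ s) (hmin : ∀ G, w.h F0 ≤ w.h G) :
    ∃ σ : Φ → D, K.Cons s ∅ σ ∧ ∃ F1 ∈ s, Cone (σ F1) := by
  classical
  by_cases hex : ∃ F ∈ s, K.mem v F
  · obtain ⟨F2, hF2, hF2v⟩ := hex
    obtain ⟨Fv, hFv, hminv⟩ := Set.exists_min_image {F | K.mem v F} w.h (Set.toFinite _)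
      ⟨F2, hF2v⟩
    have hFvs : Fv ∈ s := by
      rcases lt_or_eq_of_le (hminv F2 hF2v) with h | h
      · exact hs F2 hF2 Fv h
      · rw [w.h_inj h]; exact hF2
    obtain ⟨i, hi⟩ := hFv
    obtain ⟨y0, hy0⟩ := chain K w ∅ (F0 := F0) (fun x hx => absurd hx (Set.notMem_empty x))
      (fun G _ => hmin G) Fv ⟨0, fun x hx => absurd hx (Set.notMem_empty x)⟩ (sp i)
    obtain ⟨σ, hσ, -, hσv⟩ := devV_aux K w v hmin ⟨i, hi⟩ hminv y0 (by
      intro σ h1 h2 j hj
      rw [hy0 σ h1 h2, K.lab_inj Fv (hi.trans hj.symm)]) s.ncard s rfl hs hok hF0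
    refine ⟨σ, hσ, Fv, hFvs, ?_⟩
    rw [hσv Fv hFvs i hi]
    exact sp_cone i
  · push Not at hex
    obtain ⟨σ, hσ, hσ0⟩ := dev K w ∅ s hs (by
      intro F hF t k _ _ hG
      refine hok F hF t k (fun hv => ?_) hG
      exact hex F hF (mem_ed K (F, t, k) v hv)) hF0 (fun G _ => hmin G) (1, 0)
    refine ⟨σ, hσ, F0, hF0, ?_⟩
    rw [hσ0]
    refine ⟨one_pos, ?_⟩
    have h1 := Real.one_lt_goldenRatio
    simp
    linarith

/-- positivity spreads downwards to the lowest cell -/
theorem cone_down {Φ V : Type} [Finite Φ] (K : Cx Φ V) (w : Sw K) {s : Set Φ} {σ : Φ → D}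
    (hs : ∀ F ∈ s, ∀ G, w.h G < w.h F → G ∈ s) (hc : K.Cons s ∅ σ) {F0 : Φ}
    (hmin : ∀ G, w.h F0 ≤ w.h G) {F1 : Φ} (hF1 : F1 ∈ s) (h1 : Cone (σ F1)) :
    Cone (σ F0) := by
  classical
  by_contra hcon
  obtain ⟨F, ⟨hF, hFc⟩, hmin'⟩ := Set.exists_min_image {F | F ∈ s ∧ Cone (σ F)} w.h
    (Set.toFinite _) ⟨F1, hF1, h1⟩
  have hne : F ≠ F0 := by
    rintro rfl
    exact hcon hFc
  have hlt : w.h F0 < w.h F := lt_of_le_of_ne (hmin F) (fun h => hne (w.h_inj h).symm)
  obtain ⟨t, ht, hlt'⟩ := low_exists w (W := ∅) (F := F) (G := F0)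
    ⟨0, fun x hx => absurd hx (Set.notMem_empty x)⟩
    (fun x hx => absurd hx (Set.notMem_empty x)) hlt
  have hG : K.nbr F t ∈ s := hs F hF _ hlt'
  have h2 : Cone (σ (K.nbr F t)) := gl_cone K (hc F t hF hG ht) hFc
  exact absurd (hmin' _ ⟨hG, h2⟩) (not_le.2 hlt')

end Pool.Agent.H77.EE
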