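import Mathlib
import Pool.Agent.H77.EE.Defs
import Pool.Agent.H77.EE.Comb
import Pool.Agent.H77.EE.CxA
import Pool.Agent.H77.EE.FlagE
import Pool.Agent.H77.EE.ConeD
import Pool.Agent.H77.EE.Flux
import Pool.Agent.H77.EE.DevV

/-!
# AbsV: the main theorems for a sweep, with one vertex removed

`abs_main_v`: as `abs_main`, no condition on the edges through `v`. `abs_cell_v`, `abs_vertex_v`: there
is an exceptional edge which does not contain `v` and is not contained in a given cell (is in no cell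
through a given vertex `u` of small degree).
-/

set_option autoImplicit false

namespace Pool.Agent.H77.EE

variable {Φ V : Type} [Finite Φ] (K : Cx Φ V)

theorem abs_main_v (w : Sw K) (v : V) (hN : ∃ F, w.h F < 0)
    (hok : ∀ f : Fg Φ, v ∉ K.ed f → (∀ G, (∀ x ∈ K.ed f, K.mem x G) → w.h G < 0) →
      3 ∣ K.val (K.ed f)) :
    10 * {F | w.h F < 0}.ncard <
      {p : Φ × Fin 20 | w.h p.1 < 0 ∧ ¬ w.h (K.nbr p.1 p.2) < 0}.ncard := by
  have hex : ∃ F0 : Φ, ∀ G, w.h F0 ≤ w.h G := by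
    obtain ⟨F, -⟩ := hN
    have : Nonempty Φ := ⟨F⟩
    exact Finite.exists_min w.h
  obtain ⟨F0, hF0⟩ := hex
  have hF0N : w.h F0 < 0 := by
    obtain ⟨F, hF⟩ := hN
    exact lt_of_le_of_lt (hF0 F) hF
  have hlow : ∀ F ∈ {F : Φ | w.h F < 0}, ∀ G, w.h G < w.h F → G ∈ {F : Φ | w.h F < 0} :=
    fun F hF G hG => lt_trans hG hF
  obtain ⟨σ, hσ, F1, hF1, hc1⟩ := devV K w v {F | w.h F < 0} hlow (by
    intro F hF t k hv hG
    apply hok (F, t, k) hv
    intro G hG'
    by_cases h : G = F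
    · rw [h]; exact hF
    · exact lt_trans (hG G h hG') hF) (F0 := F0) hF0N hF0
  have hc0 := cone_down K w hlow hσ hF0 hF1 hc1
  have hcone := cone_dev K w hlow hσ hF0 hc0
  exact flux K ⟨F0, hF0N⟩ hσ hcone

/-- the pairs of `abs_main_v` seen from the other side -/
theorem pairs_le (w : Sw K) :
    {p : Φ × Fin 20 | w.h p.1 < 0 ∧ ¬ w.h (K.nbr p.1 p.2) < 0}.ncard ≤
      {p : Φ × Fin 20 | ¬ w.h p.1 < 0 ∧ w.h (K.nbr p.1 p.2) < 0}.ncard := by
  refine Set.ncard_le_ncard_of_injOn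
    (fun p : Φ × Fin 20 => (K.nbr p.1 p.2, K.tr p.1 p.2)) ?_ ?_ (Set.toFinite _)
  · rintro ⟨F, t⟩ ⟨h1, h2⟩
    refine ⟨h2, ?_⟩
    show w.h (K.nbr (K.nbr F t) (K.tr F t)) < 0
    rw [nbr_nbr]
    exact h1
  · rintro ⟨F, t⟩ - ⟨F', t'⟩ - h
    simp only [Prod.mk.injEq] at h
    obtain ⟨h1, h2⟩ := h
    have h3 : F = F' := by
      rw [← nbr_nbr K F t, ← nbr_nbr K F' t', h1, h2]
    subst h3
    have h4 : t = t' := K.nbr_inj F h1
    rw [h4]

theorem abs_cell_v (w : Sw K) (F0 : Φ) (v : V) (hw : ∀ F, w.h F < 0 ↔ F ≠ F0)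
    (hcard : 4 ≤ Nat.card Φ) :
    ∃ f : Fg Φ, ¬ 3 ∣ K.val (K.ed f) ∧ v ∉ K.ed f ∧ ¬ ∀ x ∈ K.ed f, K.mem x F0 := by
  classical
  by_contra hcon
  push Not at hcon
  have hne : ∃ F, F ≠ F0 := by
    have h1 : Nontrivial Φ := by
      rw [← Finite.one_lt_card_iff_nontrivial]
      omega
    exact exists_ne F0
  have key := abs_main_v K w v (by
    obtain ⟨F, hF⟩ := hne
    exact ⟨F, (hw F).2 hF⟩) (by
    intro f hvf hG
    by_contra h3
    exact (hw F0).1 (hG F0 (hcon f h3 hvf)) rfl)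
  have h1 := pairs_le K w
  have h2 : {p : Φ × Fin 20 | ¬ w.h p.1 < 0 ∧ w.h (K.nbr p.1 p.2) < 0}.ncard ≤ 20 := by
    have h3 : {p : Φ × Fin 20 | ¬ w.h p.1 < 0 ∧ w.h (K.nbr p.1 p.2) < 0}.ncard ≤
        (Set.univ : Set (Fin 20)).ncard := by
      refine Set.ncard_le_ncard_of_injOn (fun p : Φ × Fin 20 => p.2) (fun _ _ => Set.mem_univ _)
        ?_ (Set.toFinite _)
      rintro ⟨F, t⟩ ⟨hF, -⟩ ⟨F', t'⟩ ⟨hF', -⟩ h
      have e1 : F = F0 := by
        by_contra hh
        exact hF ((hw F).2 hh)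
      have e2 : F' = F0 := by
        by_contra hh
        exact hF' ((hw F').2 hh)
      have e3 : t = t' := h
      rw [e1, e2, e3]
    rw [Set.ncard_univ, Nat.card_eq_fintype_card, Fintype.card_fin] at h3
    exact h3
  have h4 : {F : Φ | w.h F < 0} = {F0}ᶜ := by
    ext F
    rw [Set.mem_compl_iff, Set.mem_singleton_iff]
    exact hw F
  have h5 : ({F0}ᶜ : Set Φ).ncard = Nat.card Φ - 1 := by
    have h6 := Set.ncard_add_ncard_compl ({F0} : Set Φ)
    rw [Set.ncard_singleton] at h6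
    omega
  rw [h4, h5] at key
  omega

theorem abs_vertex_v (w : Sw K) (u v : V) (hw : ∀ F, w.h F < 0 ↔ ¬ K.mem u F)
    (hne : ∃ F, ¬ K.mem u F) (hcard : 5 * {F | K.mem u F}.ncard ≤ 2 * Nat.card Φ) :
    ∃ f : Fg Φ, ¬ 3 ∣ K.val (K.ed f) ∧ v ∉ K.ed f ∧
      ∀ G, (∀ x ∈ K.ed f, K.mem x G) → ¬ K.mem u G := by
  classical
  by_contra hcon
  push Not at hcon
  have key := abs_main_v K w v (by
    obtain ⟨F, hF⟩ := hne
    exact ⟨F, (hw F).2 hF⟩) (by
    intro f hvf hG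
    by_contra h3
    obtain ⟨G, hG1, hG2⟩ := hcon f h3 hvf
    exact (hw G).1 (hG G hG1) hG2)
  have h1 := pairs_le K w
  have hmem : ∀ F, ¬ w.h F < 0 → K.mem u F := by
    intro F hF
    by_contra hh
    exact hF ((hw F).2 hh)
  have h2 : {p : Φ × Fin 20 | ¬ w.h p.1 < 0 ∧ w.h (K.nbr p.1 p.2) < 0}.ncard ≤
      {F | K.mem u F}.ncard * 15 := by
    have hfin : {F : Φ | K.mem u F}.Finite := Set.toFinite _
    let T : Φ → Finset (Fin 20) := fun F =>
      Finset.univ.filter (fun t : Fin 20 => ∀ k, K.lab F (tv t k) ≠ u)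
    have hT : ∀ F, K.mem u F → (T F).card = 15 := by
      rintro F ⟨i, hi⟩
      rw [← card_avoid i]
      congr 1
      ext t
      simp only [T, Finset.mem_filter, Finset.mem_univ, true_and]
      constructor
      · intro h k hk
        exact h k (by rw [hk, hi])
      · intro h k hk
        exact h k (K.lab_inj F (hk.trans hi.symm))
    have hsub : {p : Φ × Fin 20 | ¬ w.h p.1 < 0 ∧ w.h (K.nbr p.1 p.2) < 0} ⊆
        ((hfin.toFinset.sigma T).image (fun q => ((q.1, q.2) : Φ × Fin 20)) : Finset _) := by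
      rintro ⟨F, t⟩ ⟨hF, hF'⟩
      rw [Finset.mem_coe, Finset.mem_image]
      refine ⟨⟨F, t⟩, ?_, rfl⟩
      rw [Finset.mem_sigma]
      refine ⟨by simpa using hmem F hF, ?_⟩
      simp only [T, Finset.mem_filter, Finset.mem_univ, true_and]
      intro k hk
      apply (hw _).1 hF'
      exact ⟨tv (K.tr F t) (K.pe F t k), (K.lab_pe F t k).trans hk⟩
    calc {p : Φ × Fin 20 | ¬ w.h p.1 < 0 ∧ w.h (K.nbr p.1 p.2) < 0}.ncard
        ≤ (((hfin.toFinset.sigma T).image (fun q => ((q.1, q.2) : Φ × Fin 20)) :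
            Finset (Φ × Fin 20)) : Set (Φ × Fin 20)).ncard :=
          Set.ncard_le_ncard hsub (Set.toFinite _)
      _ = ((hfin.toFinset.sigma T).image (fun q => ((q.1, q.2) : Φ × Fin 20))).card :=
          Set.ncard_coe_finset _
      _ ≤ (hfin.toFinset.sigma T).card := Finset.card_image_le
      _ = ∑ F ∈ hfin.toFinset, (T F).card := Finset.card_sigma _ _
      _ = ∑ F ∈ hfin.toFinset, 15 := Finset.sum_congr rfl (fun F hF => hT F (by simpa using hF))
      _ = {F | K.mem u F}.ncard * 15 := by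
          rw [Finset.sum_const, smul_eq_mul, Set.ncard_eq_toFinset_card _ hfin]
  have h4 : {F : Φ | w.h F < 0} = {F | K.mem u F}ᶜ := by
    ext F
    exact hw F
  have h6 := Set.ncard_add_ncard_compl {F : Φ | K.mem u F}
  rw [h4] at key
  omega

end Pool.Agent.H77.EE
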