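import Mathlib
import Pool.Agent.H77.EE.Defs
import Pool.Agent.H77.EE.Comb
import Pool.Agent.H77.IC.Defs
import Pool.Agent.H77.IC.Facet
import Pool.Agent.H77.IC.Expose

/-!
# GeoA: facets and labels

`lab_mem_P`, `lab_mem`, `ext_lab`: from `Lab.range` and `ext_face`. `inter_clq`: `F ∩ H` is exposed
in `F` (functional `g.a H`: it is at most `1` at `y - o0`, `y ∈ F`, with equality iff `y ∈ H`;
`Pool.Agent.H27.Content.exposed_of_max` with `LinearMap.toContinuousLinearMap`); `Lab.clq`: the second
alternative means that all vertices of `F` are in `H`, so `F ⊆ H` (`face_hull_ext`, convexity of `H`),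
`F = H` by `facet_unique`. `mem_iff`: a vertex of `P` is in `F` iff it is a label.
-/

set_option autoImplicit false

open Set Module Pool.Agent.H77.IC

namespace Pool.Agent.H77.EE

variable {S : Finset E4} (g : Geo S)

theorem lab_mem (F : Fc S) (i : Fin 12) : g.lab F i ∈ F.1 := by
  have h : g.lab F i ∈ F.1.extremePoints ℝ := by
    rw [← (g.lab_ok F).range]
    exact mem_range_self i
  exact extremePoints_subset h

theorem lab_ext (F : Fc S) (i : Fin 12) :
    g.lab F i ∈ (convexHull ℝ (S : Set E4)).extremePoints ℝ := by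
  have h : g.lab F i ∈ F.1.extremePoints ℝ := by
    rw [← (g.lab_ok F).range]
    exact mem_range_self i
  rw [ext_face F.2.1] at h
  exact h.2

theorem mem_lab (F : Fc S) {x : E4} (hx : x ∈ (convexHull ℝ (S : Set E4)).extremePoints ℝ) :
    x ∈ F.1 ↔ ∃ i, g.lab F i = x := by
  constructor
  · intro h
    have h1 : x ∈ F.1.extremePoints ℝ := by
      rw [ext_face F.2.1]
      exact ⟨h, hx⟩
    rw [← (g.lab_ok F).range] at h1
    exact h1
  · rintro ⟨i, rfl⟩
    exact lab_mem g F i

theorem inter_clq {F H : Fc S} (hHF : H ≠ F) {i j : Fin 12} (hi : g.lab F i ∈ H.1)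
    (hj : g.lab F j ∈ H.1) (hij : i ≠ j) : adj i j := by
  have hmem : ∀ y ∈ F.1, (g.a H y = 1 + g.a H g.o0 ↔ y ∈ H.1) := by
    intro y hy
    rw [← g.a_eq H y (F.2.1.subset hy), map_sub]
    constructor
    · intro h; linarith
    · intro h; linarith
  have hG : IsExposed ℝ F.1
      {x ∈ F.1 | LinearMap.toContinuousLinearMap (g.a H) x = 1 + g.a H g.o0} := by
    refine Pool.Agent.H27.Content.exposed_of_max (LinearMap.toContinuousLinearMap (g.a H)) _ ?_
    intro y hy
    have h := g.a_le H y (F.2.1.subset hy)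
    rw [map_sub] at h
    change g.a H y ≤ _
    linarith
  rcases (g.lab_ok F).clq _ hG with h | h
  · exact h i j ⟨lab_mem g F i, (hmem _ (lab_mem g F i)).2 hi⟩
      ⟨lab_mem g F j, (hmem _ (lab_mem g F j)).2 hj⟩ hij
  · exfalso
    apply hHF
    have hsub : F.1 ⊆ H.1 := by
      have hHc : Convex ℝ H.1 := H.2.1.convex (convex_convexHull ℝ _)
      rw [face_hull_ext S F.2.1]
      refine convexHull_min ?_ hHc
      rw [← (g.lab_ok F).range]
      rintro _ ⟨l, rfl⟩
      exact (hmem _ (lab_mem g F l)).1 (h l).2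
    exact (Subtype.ext (facet_unique F.2 H.2 hsub)).symm

theorem edge_geo {F H : Fc S} {i j i' j' : Fin 12} (hi : g.lab F i = g.lab H i')
    (hj : g.lab F j = g.lab H j') (h : adj i j) : adj i' j' := by
  have h1 := ((g.lab_ok F).nbs i j).1 h
  refine ((g.lab_ok H).nbs i' j').2 ?_
  have h2 := edge_trans S F.2 H.2 h1 (hi ▸ lab_mem g H i') (hj ▸ lab_mem g H j')
  rw [hi, hj] at h2
  exact h2

end Pool.Agent.H77.EE
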