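import Mathlib
import Pool.Agent.H77.EE.Defs
import Pool.Agent.H77.EE.Comb
import Pool.Agent.H77.EE.CxA
import Pool.Agent.H77.EE.GeoA
import Pool.Agent.H77.IC.Defs
import Pool.Agent.H77.IC.Facet
import Pool.Agent.H77.IC.Expose

/-!
# EdT: flags and edges

`K.lab = g.lab`. `ed_pair`: for `f = (F, t, k)` the set `ed f` is `{lab F (tv t (k + 1)), lab F (tv t (k + 2))}`,
these are adjacent (`tv_adj`), so `Lab.nbs` applies. `pair_ed`: `x`, `y` are labels (`nb` gives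
extreme points of `F`, `Lab.range`), `Lab.nbs`, `edge_tri`. `mem_geo`: `mem_lab`. `val_geo`: the map
`F ↦ F.1` from `{F : Fc S | ∀ z ∈ {x, y}, K.mem z F}` to `{F | IsFacet P F ∧ x ∈ F ∧ y ∈ F}` is a bijection
(`Set.ncard_image_of_injective`, `Subtype.val_injective`); `x`, `y` are vertices of `P`.
-/

set_option autoImplicit false

open Set Module Pool.Agent.H77.IC

namespace Pool.Agent.H77.EE

variable {S : Finset E4} (g : Geo S) (K : Cx (Fc S) E4) (hK : K.lab = g.lab)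

private theorem edT_fin (j k : Fin 3) : j ≠ k ↔ j = k + 1 ∨ j = k + 2 := by
  revert j k
  decide

private theorem edT_set (F : Fc S) (t : Fin 20) (k : Fin 3) :
    K.ed (F, t, k) = {K.lab F (tv t (k + 1)), K.lab F (tv t (k + 2))} := by
  ext x
  constructor
  · rintro ⟨j, hj, hx⟩
    rcases (edT_fin j k).1 hj with h | h
    · left
      rw [← hx, ← h]
    · right
      rw [Set.mem_singleton_iff, ← hx, ← h]
  · rintro (h | h)
    · exact ⟨k + 1, (edT_fin _ _).2 (Or.inl rfl), h.symm⟩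
    · exact ⟨k + 2, (edT_fin _ _).2 (Or.inr rfl), (Set.mem_singleton_iff.1 h).symm⟩

include hK

theorem ed_pair (f : Fg (Fc S)) : ∃ x y, K.ed f = {x, y} ∧ y ∈ nb f.1.1 x := by
  obtain ⟨F, t, k⟩ := f
  refine ⟨_, _, edT_set K F t k, ?_⟩
  have h1 : adj (tv t (k + 1)) (tv t (k + 2)) := tv_adj (by
    revert k
    decide)
  rw [hK]
  exact ((g.lab_ok F).nbs _ _).1 h1

theorem pair_ed {F : Fc S} {x y : E4} (h : y ∈ nb F.1 x) :
    ∃ f : Fg (Fc S), f.1 = F ∧ K.ed f = {x, y} := by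
  have hx : x ∈ Set.range (g.lab F) := by
    rw [(g.lab_ok F).range]
    exact h.2.1
  have hy : y ∈ Set.range (g.lab F) := by
    rw [(g.lab_ok F).range]
    exact h.2.2.1
  obtain ⟨i, rfl⟩ := hx
  obtain ⟨j, rfl⟩ := hy
  obtain ⟨t, k, htk⟩ := edge_tri (((g.lab_ok F).nbs i j).2 h)
  refine ⟨(F, t, k), rfl, ?_⟩
  rw [edT_set K F t k, hK]
  rcases htk with ⟨h1, h2⟩ | ⟨h1, h2⟩
  · rw [h1, h2]
  · rw [h1, h2, Set.pair_comm]

theorem mem_geo {x : E4} (hx : x ∈ (convexHull ℝ (S : Set E4)).extremePoints ℝ) (F : Fc S) :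
    K.mem x F ↔ x ∈ F.1 := by
  rw [mem_lab g F hx, ← hK]
  rfl

theorem val_geo {x y : E4} (hx : x ∈ (convexHull ℝ (S : Set E4)).extremePoints ℝ)
    (hy : y ∈ (convexHull ℝ (S : Set E4)).extremePoints ℝ) :
    K.val {x, y} = val (convexHull ℝ (S : Set E4)) x y := by
  have h1 : {F : Set E4 | IsFacet (convexHull ℝ (S : Set E4)) F ∧ x ∈ F ∧ y ∈ F} =
      Subtype.val '' {F : Fc S | ∀ z ∈ ({x, y} : Set E4), K.mem z F} := by
    ext F
    constructor
    · rintro ⟨hF, hxF, hyF⟩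
      refine ⟨⟨F, hF⟩, ?_, rfl⟩
      rintro z (h | h)
      · rw [h]
        exact (mem_geo g K hK hx ⟨F, hF⟩).2 hxF
      · rw [Set.mem_singleton_iff.1 h]
        exact (mem_geo g K hK hy ⟨F, hF⟩).2 hyF
    · rintro ⟨H, hH, rfl⟩
      exact ⟨H.2, (mem_geo g K hK hx H).1 (hH x (Or.inl rfl)),
        (mem_geo g K hK hy H).1 (hH y (Or.inr rfl))⟩
  unfold Cx.val val
  rw [h1, Set.ncard_image_of_injective _ Subtype.val_injective]

end Pool.Agent.H77.EE
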