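import Mathlib
import Pool.Agent.H77.EE.Defs
import Pool.Agent.H77.EE.Comb
import Pool.Agent.H77.EE.CxA
import Pool.Agent.H77.EE.GeoA
import Pool.Agent.H77.EE.EdT
import Pool.Agent.H77.IC.Defs
import Pool.Agent.H77.IC.Facet
import Pool.Agent.H77.IC.Tilt
import Pool.Agent.H77.IC.Valence

/-!
# AdjM: adjacent facets

For `G = nbr F t` the set `F ∩ G` is an exposed face of `F` (as in `inter_clq`) whose vertices are exactly
those of `t` (they contain them, and a fourth would give four pairwise adjacent vertices: `inter_clq`,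
`no4`, `tv_adj`), so its direction has rank 2 (`tri_rank`).
-/

set_option autoImplicit false

open Set Module Pool.Agent.H77.IC

namespace Pool.Agent.H77.EE

theorem adj_rank {S : Finset E4} (g : Geo S) (K : Cx (Fc S) E4) (hK : K.lab = g.lab)
    (F : Fc S) (t : Fin 20) :
    finrank ℝ (affineSpan ℝ (F.1 ∩ (K.nbr F t).1)).direction = 2 := by
  have hHF : K.nbr F t ≠ F := K.nbr_ne F t
  obtain ⟨-, a, M, hM, hFe⟩ := facet_eq (K.nbr F t).2
  have hex : IsExposed ℝ F.1 (F.1 ∩ (K.nbr F t).1) := by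
    have h1 : IsExposed ℝ F.1 {w ∈ F.1 | a w = M} :=
      Pool.Agent.H27.Content.exposed_of_max a M fun w hw => hM w (F.2.1.subset hw)
    have h2 : F.1 ∩ (K.nbr F t).1 = {w ∈ F.1 | a w = M} := by
      ext w
      constructor
      · rintro ⟨hw1, hw2⟩
        rw [hFe] at hw2
        exact ⟨hw1, hw2.2⟩
      · rintro ⟨hw1, hw2⟩
        refine ⟨hw1, ?_⟩
        rw [hFe]
        exact ⟨F.2.1.subset hw1, hw2⟩
    rw [h2]
    exact h1
  have hkH : ∀ k, g.lab F (tv t k) ∈ (K.nbr F t).1 := by
    intro k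
    have h1 := K.lab_pe F t k
    rw [hK] at h1
    rw [← h1]
    exact lab_mem g _ _
  have hok := g.lab_ok F
  have hGe : (F.1 ∩ (K.nbr F t).1) ∩ F.1.extremePoints ℝ =
      {g.lab F (tv t 0), g.lab F (tv t 1), g.lab F (tv t 2)} := by
    ext w
    constructor
    · rintro ⟨⟨-, hw2⟩, hw3⟩
      rw [← hok.range] at hw3
      obtain ⟨i, rfl⟩ := hw3
      by_cases h0 : i = tv t 0
      · left
        rw [h0]
      by_cases h1 : i = tv t 1
      · right
        left
        rw [h1]
      by_cases h2 : i = tv t 2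
      · right
        right
        rw [h2]
        rfl
      exfalso
      have hi : ∀ k, i ≠ tv t k → adj i (tv t k) := fun k hk =>
        inter_clq g hHF hw2 (hkH k) hk
      exact no4 (hi 0 h0) (hi 1 h1) (hi 2 h2) (tv_adj (t := t) (k := 0) (l := 1) (by decide))
        (tv_adj (t := t) (k := 0) (l := 2) (by decide))
        (tv_adj (t := t) (k := 1) (l := 2) (by decide))
    · intro hw
      have hk : ∃ k, w = g.lab F (tv t k) := by
        rcases hw with h | h | h
        · exact ⟨0, h⟩
        · exact ⟨1, h⟩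
        · exact ⟨2, h⟩
      obtain ⟨k, rfl⟩ := hk
      refine ⟨⟨lab_mem g F _, hkH k⟩, ?_⟩
      rw [← hok.range]
      exact ⟨_, rfl⟩
  have hne : ∀ k l, k ≠ l → g.lab F (tv t k) ≠ g.lab F (tv t l) := fun k l hkl h =>
    hkl (tv_inj t (hok.inj h))
  exact tri_rank S F.2 hex hGe (hne 1 0 (by decide)) (hne 2 0 (by decide)) (hne 1 2 (by decide))

end Pool.Agent.H77.EE
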