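import Mathlib
import Pool.Agent.H77.EE.Defs
import Pool.Agent.H77.IC.Defs
import Pool.Agent.H77.IC.Facet
import Pool.Agent.H77.IC.Tilt
import Pool.Agent.H77.IC.Expose

/-!
# BdF: every boundary point lies in a facet

As `vertex_in_facet` in `Pool/Agent/H77/IC/Tilt.lean` (copy the proof): a boundary point `x` of the convex
set `P` with nonempty interior lies in an exposed face different from `P` (a supporting functional,
`geometric_hahn_banach_open_point` for the interior of `P`, nonzero; `exposed_of_max`; the face is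
not `P` since the functional is not constant on `P`); take such a face with `finrank` of the direction
maximal; if it is less than 3 then `bigger` gives a larger one (`dir_lt`).
-/

set_option autoImplicit false

open Set Module Pool.Agent.H77.IC

namespace Pool.Agent.H77.EE

open Pool.Agent.H27.Content

private theorem BdF_dir_le_ker {G : Set E4} {a : E4 →L[ℝ] ℝ} {α : ℝ}
    (h : ∀ y ∈ G, a y = α) : (affineSpan ℝ G).direction ≤ LinearMap.ker a.toLinearMap := by
  rw [direction_affineSpan, vectorSpan_def, Submodule.span_le]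
  rintro v ⟨x, hx, y, hy, rfl⟩
  simp [h x hx, h y hy]

private theorem BdF_finrank_ker {a : E4 →L[ℝ] ℝ} (ha : a ≠ 0) :
    finrank ℝ (LinearMap.ker a.toLinearMap) = 3 := by
  have h3 := LinearMap.finrank_range_add_finrank_ker a.toLinearMap
  have h4 : LinearMap.range a.toLinearMap = ⊤ := by
    apply LinearMap.range_eq_top.2
    apply LinearMap.surjective_of_ne_zero
    intro h0
    apply ha
    ext v
    exact LinearMap.congr_fun h0 v
  rw [h4, finrank_top, finrank_self] at h3
  have h5 : finrank ℝ E4 = 4 := by simp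
  omega

/-- a proper exposed face has rank at most three -/
private theorem BdF_rank_le {a : E4 →L[ℝ] ℝ} {α : ℝ} {G : Set E4} (h : ∀ y ∈ G, a y = α)
    (ha : a ≠ 0) : finrank ℝ (affineSpan ℝ G).direction ≤ 3 := by
  have h1 := BdF_dir_le_ker h
  rw [← BdF_finrank_ker ha]
  exact Submodule.finrank_mono h1

theorem boundary_facet (S : Finset E4) (hS : (interior (convexHull ℝ (S : Set E4))).Nonempty)
    {x : E4} (hx : x ∈ convexHull ℝ (S : Set E4))
    (hx' : x ∉ interior (convexHull ℝ (S : Set E4))) :
    ∃ F, IsFacet (convexHull ℝ (S : Set E4)) F ∧ x ∈ F := by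
  set P := convexHull ℝ (S : Set E4) with hP
  have hconv : Convex ℝ P := convex_convexHull ℝ _
  obtain ⟨l, hl⟩ := geometric_hahn_banach_open_point hconv.interior isOpen_interior hx'
  have hl' : ∀ y ∈ P, l y ≤ l x := by
    intro y hy
    have h1 : y ∈ closure (interior P) := by
      rw [hconv.closure_interior_eq_closure_of_nonempty_interior hS]
      exact subset_closure hy
    have h2 : closure (interior P) ⊆ {z | l z ≤ l x} :=
      closure_minimal (fun z hz => (hl z hz).le) (isClosed_le l.continuous continuous_const)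
    exact h2 h1
  have hxe : IsExposed ℝ P {y ∈ P | l y = l x} := exposed_of_max l (l x) hl'
  have hxm : x ∈ {y ∈ P | l y = l x} := ⟨hx, rfl⟩
  have hxP' : {y ∈ P | l y = l x} ≠ P := by
    intro h
    obtain ⟨z, hz⟩ := hS
    have h1 : z ∈ {y ∈ P | l y = l x} := by rw [h]; exact interior_subset hz
    have h2 := hl z hz
    linarith [h1.2]
  have hfin : {G : Set E4 | IsExposed ℝ P G ∧ x ∈ G ∧ G ≠ P}.Finite :=
    (finite_faces S).subset fun G hG => hG.1
  obtain ⟨G, ⟨hG, hxG, hGP⟩, hmax⟩ := hfin.exists_maximalFor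
    (fun G => finrank ℝ (affineSpan ℝ G).direction) _ ⟨_, hxe, hxm, hxP'⟩
  refine ⟨G, ⟨hG, ?_⟩, hxG⟩
  obtain ⟨a, α, ha, hGe⟩ := exposed_eq hG ⟨x, hxG⟩
  have haG : ∀ y ∈ G, a y = α := fun y hy => by rw [hGe] at hy; exact hy.2
  have ha0 : a ≠ 0 := by
    intro h0
    apply hGP
    have h1 := haG x hxG
    rw [h0] at h1
    rw [hGe, h0, ← h1]
    simp
  have h3 := BdF_rank_le haG ha0
  rcases h3.lt_or_eq with h | h
  · obtain ⟨G', hG', hs, hne, hP'⟩ := bigger S hS hG ⟨x, hxG⟩ h
    have h4 := dir_lt hG hG' ⟨x, hxG⟩ hs (Ne.symm hne)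
    have h5 := hmax (j := G') ⟨hG', hs hxG, hP'⟩ h4.le
    exact absurd h5 (not_le.2 h4)
  · exact h

end Pool.Agent.H77.EE
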