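import Mathlib
import Pool.Agent.H77.EE.Defs
import Pool.Agent.H77.EE.GeoA
import Pool.Agent.H77.IC.Defs
import Pool.Agent.H77.IC.Facet
import Pool.Agent.H2.IR.Hyper

/-!
# VisM: visibility with the normalised functional

If `1 < a F (z - o0)` take the functional `a F` (continuous, `LinearMap.toContinuousLinearMap`) and
`M = 1 + a F o0`. Conversely let `a`, `M` be as in `Visible`. By `facet_hyper` there are `a'`, `M'` such that
`a' u = 0` implies that `u` is in the direction of the affine span of `F`, on which `a` and `a F` vanish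
(both are constant on `F`; `vectorSpan`, `Submodule.span_le`); `a F` is not zero and vanishes on
`ker a'`, so `a F = c a'` with `c ≠ 0` (`LinearMap` with larger kernel is a multiple:
`mem_span_singleton` of the dual, or evaluate at a vector with `a' = 1`), and `a` vanishes on
`ker (a F)`: `a = d a F`. For a point `y ∈ F`: `a z - M = a (z - y) = d (a F (z - y)) = d (a F (z - o0) - 1)`, and the
same for `o0` in place of `z`: `a o0 - M = - d`, which is at most `0`, so `d ≥ 0`, and `d (a F (z - o0) - 1) > 0`.
-/

set_option autoImplicit false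

open Set Module Pool.Agent.H77.IC

namespace Pool.Agent.H77.EE

theorem vis_iff {S : Finset E4} (hS : (interior (convexHull ℝ (S : Set E4))).Nonempty)
    (g : Geo S) (F : Fc S) (z : E4) :
    Visible (convexHull ℝ (S : Set E4)) F.1 z ↔ 1 < g.a F (z - g.o0) := by
  constructor
  · rintro ⟨a, M, hle, heq, hz⟩
    obtain ⟨a', M', -, -, -, hdir⟩ := Pool.Agent.H2.IR.facet_hyper S hS F.2
    obtain ⟨⟨p, hp⟩, -⟩ := facet_eq F.2
    have hpP : p ∈ convexHull ℝ (S : Set E4) := F.2.1.subset hp
    have hA1 : g.a F (p - g.o0) = 1 := (g.a_eq F p hpP).2 hp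
    have hAd : ∀ u ∈ (affineSpan ℝ F.1).direction, g.a F u = 0 := by
      have h : (affineSpan ℝ F.1).direction ≤ LinearMap.ker (g.a F) := by
        rw [direction_affineSpan, vectorSpan_def, Submodule.span_le]
        rintro v ⟨x, hx, y, hy, rfl⟩
        have h1 := (g.a_eq F x (F.2.1.subset hx)).2 hx
        have h2 := (g.a_eq F y (F.2.1.subset hy)).2 hy
        show g.a F (x -ᵥ y) = 0
        rw [vsub_eq_sub, map_sub]
        rw [map_sub] at h1 h2
        linarith
      exact fun u hu => h hu
    have had : ∀ u ∈ (affineSpan ℝ F.1).direction, a u = 0 := by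
      have h : (affineSpan ℝ F.1).direction ≤ LinearMap.ker (a : E4 →ₗ[ℝ] ℝ) := by
        rw [direction_affineSpan, vectorSpan_def, Submodule.span_le]
        rintro v ⟨x, hx, y, hy, rfl⟩
        show a (x -ᵥ y) = 0
        rw [vsub_eq_sub, map_sub, heq x hx, heq y hy, sub_self]
      exact fun u hu => h hu
    have hw : a' (p - g.o0) ≠ 0 := by
      intro h
      have h1 := hAd _ (hdir _ h)
      rw [hA1] at h1
      exact one_ne_zero h1
    have key : ∀ u, a u = g.a F u * a (p - g.o0) := by
      intro u
      have h0 : a' (u - (a' u / a' (p - g.o0)) • (p - g.o0)) = 0 := by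
        rw [map_sub, map_smul, smul_eq_mul, div_mul_cancel₀ _ hw, sub_self]
      have h1 := had _ (hdir _ h0)
      have h2 := hAd _ (hdir _ h0)
      rw [map_sub, map_smul, smul_eq_mul] at h1 h2
      rw [hA1, mul_one] at h2
      have h3 : g.a F u = a' u / a' (p - g.o0) := by linarith
      rw [h3]
      linarith
    have hd : 0 ≤ a (p - g.o0) := by
      rw [map_sub, heq p hp]
      have := hle g.o0 (interior_subset g.o0_mem)
      linarith
    have hzz : a z - M = (g.a F (z - g.o0) - 1) * a (p - g.o0) := by
      have h1 : z - p = (z - g.o0) - (p - g.o0) := by abel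
      have h2 : a z - M = a (z - p) := by rw [map_sub, heq p hp]
      rw [h2, key (z - p), h1, map_sub, hA1]
    have hpos : 0 < (g.a F (z - g.o0) - 1) * a (p - g.o0) := by
      rw [← hzz]
      linarith
    by_contra hcon
    have h4 : g.a F (z - g.o0) - 1 ≤ 0 := by linarith [not_lt.1 hcon]
    linarith [mul_nonpos_of_nonpos_of_nonneg h4 hd]
  · intro h
    refine ⟨LinearMap.toContinuousLinearMap (g.a F), 1 + g.a F g.o0, ?_, ?_, ?_⟩
    · intro y hy
      have h1 := g.a_le F y hy
      rw [map_sub] at h1
      change g.a F y ≤ _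
      linarith
    · intro y hy
      have h1 := (g.a_eq F y (F.2.1.subset hy)).2 hy
      rw [map_sub] at h1
      change g.a F y = _
      linarith
    · rw [map_sub] at h
      change _ < g.a F z
      linarith

end Pool.Agent.H77.EE
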