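import Mathlib
import Pool.Agent.H77.EE.Defs
import Pool.Agent.H77.EE.VisM
import Pool.Agent.H77.IC.Defs
import Pool.Agent.H77.IC.Facet

/-!
# Bey: a point beyond the facets containing a given point

`z = p + ε (p - o0)`, `a F (z - o0) = (1 + ε) a F (p - o0)`; `a F (p - o0) ≤ 1` with equality iff `p ∈ F`
(`a_le`, `a_eq`); `ε > 0` small for the finitely many other facets. `vis_iff`.
-/

set_option autoImplicit false

open Set Module Pool.Agent.H77.IC

namespace Pool.Agent.H77.EE

theorem beyond {S : Finset E4} (hS : (interior (convexHull ℝ (S : Set E4))).Nonempty)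
    (g : Geo S) {p : E4} (hp : p ∈ convexHull ℝ (S : Set E4)) :
    ∃ z, ∀ F : Fc S, 1 < g.a F (z - g.o0) ↔ p ∈ F.1 := by
  have _hS := hS
  haveI : Finite (Fc S) := (facet_finite S).to_subtype
  have hev : ∀ F : Fc S, p ∉ F.1 →
      ∀ᶠ ε : ℝ in nhdsWithin 0 (Ioi 0), (1 + ε) * g.a F (p - g.o0) < 1 := by
    intro F hF
    have hlt : g.a F (p - g.o0) < 1 :=
      lt_of_le_of_ne (g.a_le F p hp) (fun h => hF ((g.a_eq F p hp).1 h))
    have hc : Filter.Tendsto (fun ε : ℝ => (1 + ε) * g.a F (p - g.o0)) (nhdsWithin 0 (Ioi 0))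
        (nhds ((1 + 0) * g.a F (p - g.o0))) := by
      apply Filter.Tendsto.mono_left _ nhdsWithin_le_nhds
      exact ((continuous_const.add continuous_id).mul continuous_const).tendsto 0
    rw [add_zero, one_mul] at hc
    exact hc.eventually_lt_const hlt
  have hall : ∀ᶠ ε : ℝ in nhdsWithin 0 (Ioi 0),
      ∀ F : Fc S, p ∉ F.1 → (1 + ε) * g.a F (p - g.o0) < 1 := by
    rw [Filter.eventually_all]
    intro F
    by_cases hF : p ∈ F.1
    · exact Filter.Eventually.of_forall fun ε h => absurd hF h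
    · exact (hev F hF).mono fun ε h _ => h
  obtain ⟨ε, hε, hε0⟩ := (hall.and self_mem_nhdsWithin).exists
  have hε0 : 0 < ε := hε0
  refine ⟨p + ε • (p - g.o0), fun F => ?_⟩
  have hz : g.a F (p + ε • (p - g.o0) - g.o0) = (1 + ε) * g.a F (p - g.o0) := by
    have : p + ε • (p - g.o0) - g.o0 = (1 + ε) • (p - g.o0) := by
      rw [add_smul, one_smul]
      abel
    rw [this, map_smul, smul_eq_mul]
  rw [hz]
  constructor
  · intro h
    by_contra hF
    exact absurd (hε F hF) (not_lt.2 h.le)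
  · intro hF
    rw [(g.a_eq F p hp).2 hF]
    linarith

end Pool.Agent.H77.EE
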