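import Mathlib

/-!
# CycG: a finite graph without vertices of degree one has a cycle

`G` has an edge `a b`, finitely many vertices on edges (`hfin`), and no vertex with exactly one
neighbour. If `G` were acyclic: among the paths of `G` take one with the maximal number of vertices
(paths have distinct vertices, all in the finite set of vertices with a neighbour, or the path has one
vertex), say from `u` to `v` starting with the edge `u u'`; `u` has a second neighbour `w ≠ u'`; if `w` is not on
the path then `cons` is a longer path; if it is, the part of the path from `u` to `w` (`takeUntil`) with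
the edge `w u` is a cycle (`SimpleGraph.Walk.IsPath.isCycle_cons`-like lemma, or the uniqueness of paths
in an acyclic graph: `SimpleGraph.IsAcyclic.path_unique`). Alternatively: induce `G` on the finite
set of its non-isolated vertices and count (`SimpleGraph.IsAcyclic` forests have fewer edges than
vertices), or use `SimpleGraph.IsTree` leaf lemmas for a connected component.
-/

set_option autoImplicit false

namespace Pool.Agent.H77.EE

private theorem CycG_sup {V : Type} (G : SimpleGraph V) : ∀ {u v : V} (p : G.Walk u v),
    (∃ w, G.Adj u w) → ∀ x ∈ p.support, ∃ w, G.Adj x w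
  | _, _, SimpleGraph.Walk.nil, h, x, hx => by
    rw [SimpleGraph.Walk.support_nil, List.mem_singleton] at hx
    rw [hx]
    exact h
  | _, _, SimpleGraph.Walk.cons h1 p, h, x, hx => by
    rw [SimpleGraph.Walk.support_cons, List.mem_cons] at hx
    rcases hx with hx | hx
    · rw [hx]
      exact h
    · exact CycG_sup G p ⟨_, h1.symm⟩ x hx

private theorem CycG_long {V : Type} (G : SimpleGraph V) (hG : G.IsAcyclic)
    (hne : ∃ v w, G.Adj v w) (hdeg : ∀ v w, G.Adj v w → ∃ w', w' ≠ w ∧ G.Adj v w') (n : ℕ) :
    ∃ (u v : V) (p : G.Walk u v), p.IsPath ∧ p.length = n + 1 := by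
  induction n with
  | zero =>
    obtain ⟨v, w, h⟩ := hne
    refine ⟨v, w, SimpleGraph.Walk.cons h SimpleGraph.Walk.nil, ?_, rfl⟩
    rw [SimpleGraph.Walk.cons_isPath_iff]
    refine ⟨SimpleGraph.Walk.IsPath.nil, ?_⟩
    rw [SimpleGraph.Walk.support_nil, List.mem_singleton]
    exact h.ne
  | succ n ih =>
    obtain ⟨u, v, p, hp, hl⟩ := ih
    cases p with
    | nil => simp at hl
    | cons h p =>
      rename_i u'
      obtain ⟨w, hw, huw⟩ := hdeg _ _ h
      by_cases hmem : w ∈ (SimpleGraph.Walk.cons h p).support
      · exfalso
        rw [SimpleGraph.Walk.support_cons, List.mem_cons] at hmem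
        rcases hmem with hm | hm
        · exact huw.ne hm.symm
        · classical
          rw [SimpleGraph.Walk.cons_isPath_iff] at hp
          have h1 : (SimpleGraph.Walk.cons h (p.takeUntil w hm)).IsPath := by
            rw [SimpleGraph.Walk.cons_isPath_iff]
            exact ⟨hp.1.takeUntil hm, fun hc => hp.2 (p.support_takeUntil_subset hm hc)⟩
          have h2 : (SimpleGraph.Walk.cons huw SimpleGraph.Walk.nil).IsPath := by
            rw [SimpleGraph.Walk.cons_isPath_iff]
            refine ⟨SimpleGraph.Walk.IsPath.nil, ?_⟩
            rw [SimpleGraph.Walk.support_nil, List.mem_singleton]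
            exact huw.ne
          have h3 := hG.path_unique ⟨_, h1⟩ ⟨_, h2⟩
          have h4 := congrArg (fun q : G.Path u w => (q : G.Walk u w).length) h3
          simp only [SimpleGraph.Walk.length_cons, SimpleGraph.Walk.length_nil] at h4
          have h5 : (p.takeUntil w hm).length = 0 := by omega
          exact hw (SimpleGraph.Walk.eq_of_length_eq_zero h5).symm
      · refine ⟨w, v, SimpleGraph.Walk.cons huw.symm (SimpleGraph.Walk.cons h p), ?_, ?_⟩
        · rw [SimpleGraph.Walk.cons_isPath_iff]
          exact ⟨hp, hmem⟩
        · rw [SimpleGraph.Walk.length_cons, hl]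

theorem not_acyclic {V : Type} (G : SimpleGraph V) (hfin : {v | ∃ w, G.Adj v w}.Finite)
    (hne : ∃ v w, G.Adj v w) (hdeg : ∀ v w, G.Adj v w → ∃ w', w' ≠ w ∧ G.Adj v w') :
    ¬ G.IsAcyclic := by
  classical
  intro hG
  obtain ⟨u, v, p, hp, hl⟩ := CycG_long G hG hne hdeg hfin.toFinset.card
  have hu : ∃ w, G.Adj u w := by
    cases p with
    | nil => simp at hl
    | cons h p => exact ⟨_, h⟩
  have h1 : p.support.toFinset ⊆ hfin.toFinset := by
    intro x hx
    rw [Set.Finite.mem_toFinset]
    exact CycG_sup G p hu x (List.mem_toFinset.1 hx)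
  have h2 := Finset.card_le_card h1
  rw [List.toFinset_card_of_nodup hp.support_nodup, SimpleGraph.Walk.length_support, hl] at h2
  omega

end Pool.Agent.H77.EE
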