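import Mathlib
import Pool.Agent.H77.EE.Defs

/-!
# Fan: the five triangles at a vertex

The five triangles containing the vertex `i` are connected by the flips which keep `i`, even if
the flip across the edge to one vertex `j ≠ i` is not used. Finite check: for fixed `i`, `j` the
flips `(t, k)` with `i` among the `tv t m`, `tv t k ≠ i` and `j` not among the `tv t m`, `m ≠ k`,
connect the five triangles (`fan_rc`: reachable in at most four steps).
-/

set_option autoImplicit false

namespace Pool.Agent.H77.EE

/-- allowed flip -/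
private def fan_ok (i j : Fin 12) (t : Fin 20) (k : Fin 3) : Bool :=
  decide (tv t k ≠ i) && (decide (k = 0) || decide (tv t 0 ≠ j)) &&
    (decide (k = 1) || decide (tv t 1 ≠ j)) && (decide (k = 2) || decide (tv t 2 ≠ j))

/-- reachable in at most `n` allowed flips -/
private def fan_rc (i j : Fin 12) : ℕ → Fin 20 → Fin 20 → Bool
  | 0, t, t' => decide (t = t')
  | n + 1, t, t' => decide (t = t') || (fan_ok i j t 0 && fan_rc i j n (fl t 0) t') ||
      (fan_ok i j t 1 && fan_rc i j n (fl t 1) t') || (fan_ok i j t 2 && fan_rc i j n (fl t 2) t')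

private def fan_in (i : Fin 12) (t : Fin 20) : Bool :=
  decide (tv t 0 = i) || decide (tv t 1 = i) || decide (tv t 2 = i)

private theorem fan_check : ∀ i j : Fin 12, i ≠ j → ∀ t : Fin 20, fan_in i t = true →
    ∀ t' : Fin 20, fan_in i t' = true → fan_rc i j 4 t t' = true := by
  decide +kernel

private theorem fan_keep : ∀ (i : Fin 12) (t : Fin 20) (k : Fin 3), fan_in i t = true →
    tv t k ≠ i → fan_in i (fl t k) = true := by
  decide +kernel

private theorem fan_in_iff {i : Fin 12} {t : Fin 20} : fan_in i t = true ↔ ∃ m, tv t m = i := by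
  unfold fan_in
  simp only [Bool.or_eq_true, decide_eq_true_eq]
  constructor
  · rintro ((h | h) | h)
    · exact ⟨0, h⟩
    · exact ⟨1, h⟩
    · exact ⟨2, h⟩
  · rintro ⟨m, hm⟩
    fin_cases m
    · exact Or.inl (Or.inl hm)
    · exact Or.inl (Or.inr hm)
    · exact Or.inr hm

private theorem fan_ok_iff {i j : Fin 12} {t : Fin 20} {k : Fin 3} (h : fan_ok i j t k = true) :
    tv t k ≠ i ∧ ∀ m, m ≠ k → tv t m ≠ j := by
  unfold fan_ok at h
  simp only [Bool.and_eq_true, Bool.or_eq_true, decide_eq_true_eq] at h
  obtain ⟨⟨⟨h0, h1⟩, h2⟩, h3⟩ := h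
  refine ⟨h0, fun m hm => ?_⟩
  fin_cases m
  · rcases h1 with h | h
    · exact absurd h.symm hm
    · exact h
  · rcases h2 with h | h
    · exact absurd h.symm hm
    · exact h
  · rcases h3 with h | h
    · exact absurd h.symm hm
    · exact h

theorem fan {T : Type} (E : Fin 20 → T) {i j : Fin 12} (hij : i ≠ j)
    (hE : ∀ t k, (∃ m, tv t m = i) → tv t k ≠ i → (∀ m, m ≠ k → tv t m ≠ j) → E t = E (fl t k))
    {t t' : Fin 20} (ht : ∃ m, tv t m = i) (ht' : ∃ m, tv t' m = i) : E t = E t' := by
  have key : ∀ (n : ℕ) (t : Fin 20), fan_in i t = true → fan_rc i j n t t' = true →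
      E t = E t' := by
    intro n
    induction n with
    | zero =>
      intro t _ h
      unfold fan_rc at h
      rw [decide_eq_true_eq] at h
      rw [h]
    | succ n ih =>
      intro t hin h
      unfold fan_rc at h
      simp only [Bool.or_eq_true, Bool.and_eq_true, decide_eq_true_eq] at h
      have step : ∀ k, fan_ok i j t k = true → fan_rc i j n (fl t k) t' = true → E t = E t' := by
        intro k h1 h2
        obtain ⟨h3, h4⟩ := fan_ok_iff h1
        rw [hE t k (fan_in_iff.1 hin) h3 h4]
        exact ih (fl t k) (fan_keep i t k hin h3) h2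
      rcases h with ((h | h) | h) | h
      · rw [h]
      · exact step 0 h.1 h.2
      · exact step 1 h.1 h.2
      · exact step 2 h.1 h.2
  exact key 4 t (fan_in_iff.2 ht) (fan_check i j hij t (fan_in_iff.2 ht) t' (fan_in_iff.2 ht'))

end Pool.Agent.H77.EE
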