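import Mathlib
import Pool.Agent.H77.EE.Defs
import Pool.Agent.H77.IC.Defs
import Pool.Agent.H77.IC.Facet
import Pool.Agent.H2.IR.Hyper

/-!
# FunM: normalised functional of a facet
-/

set_option autoImplicit false

open Set Module Pool.Agent.H77.IC

namespace Pool.Agent.H77.EE

private lemma FunM_const {P : Set E4} {a : E4 →L[ℝ] ℝ} {M : ℝ} {o0 : E4} (ho : o0 ∈ interior P)
    (hle : ∀ y ∈ P, a y ≤ M) (h0 : a o0 = M) : a = 0 := by
  ext v
  have hc : Continuous (fun r : ℝ => o0 + r • v) := by fun_prop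
  have hmem : {r : ℝ | o0 + r • v ∈ interior P} ∈ nhds (0 : ℝ) := by
    apply (isOpen_interior.preimage hc).mem_nhds
    simpa using ho
  obtain ⟨ε, hε, hball⟩ := Metric.mem_nhds_iff.1 hmem
  have h1 : ε / 2 ∈ Metric.ball (0 : ℝ) ε := by
    simp [abs_of_pos hε]; linarith
  have h2 : -(ε / 2) ∈ Metric.ball (0 : ℝ) ε := by
    simp [abs_of_pos hε]; linarith
  have h3 := hle _ (interior_subset (hball h1))
  have h4 := hle _ (interior_subset (hball h2))
  rw [map_add, map_smul, h0, smul_eq_mul] at h3 h4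
  have h5 : ε / 2 * a v = 0 := by linarith
  rcases mul_eq_zero.1 h5 with h | h
  · linarith
  · simpa using h

theorem fun_exists (S : Finset E4) {o0 : E4} (ho : o0 ∈ interior (convexHull ℝ (S : Set E4)))
    {F : Set E4} (hF : IsFacet (convexHull ℝ (S : Set E4)) F) :
    ∃ a : E4 →ₗ[ℝ] ℝ, (∀ y ∈ convexHull ℝ (S : Set E4), a (y - o0) ≤ 1) ∧
      ∀ y ∈ convexHull ℝ (S : Set E4), (a (y - o0) = 1 ↔ y ∈ F) := by
  obtain ⟨hne, a, M, hM, hFa⟩ := facet_eq hF
  have hlt : a o0 < M := by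
    refine lt_of_le_of_ne (hM _ (interior_subset ho)) ?_
    intro h0
    have ha : a = 0 := FunM_const ho hM h0
    have hM0 : M = 0 := by rw [← h0, ha]; rfl
    have hFP : F = convexHull ℝ (S : Set E4) := by
      rw [hFa]
      ext y
      constructor
      · exact fun h => h.1
      · intro h
        refine ⟨h, ?_⟩
        rw [ha, hM0]
        rfl
    have hF3 : finrank ℝ (affineSpan ℝ F).direction = 3 := hF.2
    have h1 : affineSpan ℝ (interior (convexHull ℝ (S : Set E4))) = ⊤ :=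
      isOpen_interior.affineSpan_eq_top ⟨o0, ho⟩
    have h2 : affineSpan ℝ F = ⊤ := by
      rw [hFP, ← top_le_iff, ← h1]
      exact affineSpan_mono ℝ interior_subset
    rw [h2, AffineSubspace.direction_top, finrank_top, finrank_euclideanSpace_fin] at hF3
    omega
  have hpos : 0 < M - a o0 := by linarith
  refine ⟨(M - a o0)⁻¹ • (a : E4 →ₗ[ℝ] ℝ), ?_, ?_⟩
  · intro y hy
    have h1 := hM y hy
    change (M - a o0)⁻¹ * a (y - o0) ≤ 1
    rw [map_sub, inv_mul_le_iff₀ hpos]
    linarith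
  · intro y hy
    change (M - a o0)⁻¹ * a (y - o0) = 1 ↔ y ∈ F
    rw [map_sub, inv_mul_eq_iff_eq_mul₀ hpos.ne', mul_one, hFa]
    constructor
    · intro h
      exact ⟨hy, by linarith⟩
    · rintro ⟨-, h⟩
      rw [h]

end Pool.Agent.H77.EE
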