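import Mathlib
import Pool.Agent.H77.EE.Defs
import Pool.Agent.H77.IC.Defs

/-!
# GenM: a generic vector near a given one

There is `w` with `l w ≠ 0` for all `l ∈ L` (`Module.exists_dual_forall_apply_ne_zero` for the dual space
and evaluation, or `exists_nonzero` of `Pool/Agent/H77/IC/Sep.lean` through the inner product, or
the finite union of proper subspaces). For `u = u0 + δ w` each `l ∈ L` vanishes for at most one `δ`, and for
small `δ > 0` the sign of `a u - 1` is that of `a u0 - 1 ≠ 0` for the finitely many `a ∈ A`.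
-/

set_option autoImplicit false

open Set Module Pool.Agent.H77.IC

namespace Pool.Agent.H77.EE

private lemma GenM_ev (l : E4 →ₗ[ℝ] ℝ) (u w : E4) (h : l u ≠ 0 ∨ l w ≠ 0) :
    ∀ᶠ d : ℝ in nhdsWithin 0 (Ioi 0), l (u + d • w) ≠ 0 := by
  have he : ∀ d : ℝ, l (u + d • w) = l u + d * l w := by
    intro d
    rw [map_add, map_smul, smul_eq_mul]
  have hc : Continuous fun d : ℝ => l u + d * l w := by fun_prop
  by_cases h0 : l u = 0
  · have hw : l w ≠ 0 := by
      rcases h with h | h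
      · exact absurd h0 h
      · exact h
    filter_upwards [self_mem_nhdsWithin] with d hd
    rw [he, h0, zero_add]
    exact mul_ne_zero (ne_of_gt hd) hw
  · have h1 : ∀ᶠ d : ℝ in nhds 0, l u + d * l w ≠ 0 := by
      apply hc.continuousAt.eventually_ne
      simpa using h0
    filter_upwards [mem_nhdsWithin_of_mem_nhds h1] with d hd
    rw [he]
    exact hd

private lemma GenM_evA (a : E4 →ₗ[ℝ] ℝ) (u w : E4) (h : a u ≠ 1) :
    ∀ᶠ d : ℝ in nhdsWithin 0 (Ioi 0), (a (u + d • w) < 1 ↔ a u < 1) := by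
  have he : ∀ d : ℝ, a (u + d • w) = a u + d * a w := by
    intro d
    rw [map_add, map_smul, smul_eq_mul]
  have hc : Continuous fun d : ℝ => a u + d * a w := by fun_prop
  rcases lt_or_gt_of_ne h with h1 | h1
  · have h2 : ∀ᶠ d : ℝ in nhds 0, a u + d * a w < 1 := by
      apply hc.continuousAt.eventually_lt continuousAt_const
      simpa using h1
    filter_upwards [mem_nhdsWithin_of_mem_nhds h2] with d hd
    rw [he]
    exact ⟨fun _ => h1, fun _ => hd⟩
  · have h2 : ∀ᶠ d : ℝ in nhds 0, 1 < a u + d * a w := by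
      apply continuousAt_const.eventually_lt hc.continuousAt
      simpa using h1
    filter_upwards [mem_nhdsWithin_of_mem_nhds h2] with d hd
    rw [he]
    constructor
    · intro h3
      exact absurd h3 (not_lt.mpr hd.le)
    · intro h3
      exact absurd h3 (not_lt.mpr h1.le)

private lemma GenM_ex (L : Finset (E4 →ₗ[ℝ] ℝ)) (hL : ∀ l ∈ L, l ≠ 0) :
    ∃ w : E4, ∀ l ∈ L, l w ≠ 0 := by
  classical
  induction L using Finset.induction_on with
  | empty => exact ⟨0, by simp⟩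
  | insert l0 L _ ih =>
    obtain ⟨w, hw⟩ := ih (fun l hl => hL l (Finset.mem_insert_of_mem hl))
    have hl0 : l0 ≠ 0 := hL l0 (Finset.mem_insert_self _ _)
    obtain ⟨v, hv⟩ : ∃ v, l0 v ≠ 0 := by
      by_contra hcon
      push Not at hcon
      exact hl0 (LinearMap.ext (fun v => by rw [hcon v, LinearMap.zero_apply]))
    have h1 : ∀ᶠ d : ℝ in nhdsWithin 0 (Ioi 0), ∀ l ∈ insert l0 L, l (w + d • v) ≠ 0 := by
      rw [Filter.eventually_all_finset]
      intro l hl
      rcases Finset.mem_insert.mp hl with rfl | hl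
      · exact GenM_ev _ w v (Or.inr hv)
      · exact GenM_ev l w v (Or.inl (hw l hl))
    obtain ⟨d, hd⟩ := h1.exists
    exact ⟨w + d • v, hd⟩

theorem generic (L A : Finset (E4 →ₗ[ℝ] ℝ)) (hL : ∀ l ∈ L, l ≠ 0) (u0 : E4)
    (hA : ∀ a ∈ A, a u0 ≠ 1) :
    ∃ u : E4, (∀ l ∈ L, l u ≠ 0) ∧ ∀ a ∈ A, (a u < 1 ↔ a u0 < 1) := by
  obtain ⟨w, hw⟩ := GenM_ex L hL
  have h1 : ∀ᶠ d : ℝ in nhdsWithin 0 (Ioi 0), ∀ l ∈ L, l (u0 + d • w) ≠ 0 := by
    rw [Filter.eventually_all_finset]
    intro l hl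
    exact GenM_ev l u0 w (Or.inr (hw l hl))
  have h2 : ∀ᶠ d : ℝ in nhdsWithin 0 (Ioi 0), ∀ a ∈ A, (a (u0 + d • w) < 1 ↔ a u0 < 1) := by
    rw [Filter.eventually_all_finset]
    intro a ha
    exact GenM_evA a u0 w (hA a ha)
  obtain ⟨d, hd1, hd2⟩ := (h1.and h2).exists
  exact ⟨u0 + d • w, hd1, hd2⟩

end Pool.Agent.H77.EE
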