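import Mathlib
import Pool.Agent.H77.EE.Defs
import Pool.Agent.H77.EE.Comb
import Pool.Agent.H77.IC.Defs

/-!
# IcoP: the faces of the regular icosahedron

Copy of the private part of `Pool/Agent/H77/IC/IcoVert.lean` for the public `zt`, `dp`, `ev`, `pt`
(the definitions are the same, so `pt_dot`, `ico_eq`, `pt_mem`, `pt_inj`, `ext_eq`, `edge_face`,
`tri_face`, `of_face`, `pt_anti`, `zero_all`, `nonneg_max`, `far_pair`, `near_pair` can be copied
verbatim; declare them `private` with new names). `face_clique`: let `H` be exposed with functional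
`l`, maximum `M` (`of_face`; if no `pt i` is in `H` the first alternative is trivial). If all pairs of
different `i`, `j` with `pt i, pt j ∈ H` are adjacent we are done; otherwise, as in `adj_of_face`,
`M = 0` and `l = 0` at all vertices, so all vertices are in `H`.
-/

set_option autoImplicit false

open Set Module Pool.Agent.H77.IC

namespace Pool.Agent.H77.EE

private def IcoP_zpos (z : ℤ × ℤ) : Bool := decide (0 < 5 * z.1 + 8 * z.2) && decide (0 < 10 * z.1 + 17 * z.2)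

private theorem IcoP_phi_lo : (8 : ℝ) / 5 < Real.goldenRatio := by
  have h1 := Real.goldenRatio_sq
  have h2 := Real.goldenRatio_pos
  nlinarith

private theorem IcoP_phi_hi : Real.goldenRatio < (17 : ℝ) / 10 := by
  have h1 := Real.goldenRatio_sq
  have h2 := Real.goldenRatio_pos
  nlinarith

private theorem IcoP_ev_add (z w : ℤ × ℤ) : ev (z + w) = ev z + ev w := by
  unfold ev; push_cast [Prod.fst_add, Prod.snd_add]; ring

private theorem IcoP_ev_sub (z w : ℤ × ℤ) : ev (z - w) = ev z - ev w := by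
  unfold ev; push_cast [Prod.fst_sub, Prod.snd_sub]; ring

private theorem IcoP_ev_zm (z w : ℤ × ℤ) : ev (zm z w) = ev z * ev w := by
  have h1 := Real.goldenRatio_sq
  unfold ev zm
  push_cast
  linear_combination (-(z.2 : ℝ) * w.2) * h1

private theorem IcoP_ev_pos {z : ℤ × ℤ} (h : IcoP_zpos z = true) : 0 < ev z := by
  unfold IcoP_zpos at h
  simp only [Bool.and_eq_true, decide_eq_true_eq] at h
  have h1 : (0 : ℝ) < 5 * z.1 + 8 * z.2 := by exact_mod_cast h.1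
  have h2 : (0 : ℝ) < 10 * z.1 + 17 * z.2 := by exact_mod_cast h.2
  have h3 := IcoP_phi_lo
  have h4 := IcoP_phi_hi
  unfold ev
  rcases le_total 0 (z.2 : ℝ) with h5 | h5
  · nlinarith
  · nlinarith

private theorem IcoP_pt_dot (i j : Fin 12) : pt i ⬝ᵥ pt j = ev (dp i j) := by
  unfold dp
  rw [IcoP_ev_add, IcoP_ev_add, IcoP_ev_zm, IcoP_ev_zm, IcoP_ev_zm]
  simp only [dotProduct, Fin.sum_univ_three, pt]

private noncomputable def IcoP_fn (m : Fin 3 → ℝ) : StrongDual ℝ (Fin 3 → ℝ) :=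
  ∑ k, m k • (ContinuousLinearMap.proj k : (Fin 3 → ℝ) →L[ℝ] ℝ)

private theorem IcoP_fn_apply (m x : Fin 3 → ℝ) : IcoP_fn m x = m ⬝ᵥ x := by
  unfold IcoP_fn
  simp [dotProduct, Fin.sum_univ_three]

private theorem IcoP_ico_eq : Ico = convexHull ℝ (Set.range pt) := by
  unfold Pool.Agent.H77.IC.Ico
  congr 1
  ext v
  simp only [Set.mem_ofPred_eq, Set.mem_range]
  constructor
  · rintro ⟨s, t, hs, ht, h⟩
    rcases hs with rfl | rfl <;> rcases ht with rfl | rfl <;> rcases h with rfl | rfl | rfl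
    · exact ⟨0, by ext k; fin_cases k <;> simp [pt, ev, zt]⟩
    · exact ⟨1, by ext k; fin_cases k <;> simp [pt, ev, zt]⟩
    · exact ⟨2, by ext k; fin_cases k <;> simp [pt, ev, zt]⟩
    · exact ⟨3, by ext k; fin_cases k <;> simp [pt, ev, zt]⟩
    · exact ⟨4, by ext k; fin_cases k <;> simp [pt, ev, zt]⟩
    · exact ⟨5, by ext k; fin_cases k <;> simp [pt, ev, zt]⟩
    · exact ⟨6, by ext k; fin_cases k <;> simp [pt, ev, zt]⟩
    · exact ⟨7, by ext k; fin_cases k <;> simp [pt, ev, zt]⟩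
    · exact ⟨8, by ext k; fin_cases k <;> simp [pt, ev, zt]⟩
    · exact ⟨9, by ext k; fin_cases k <;> simp [pt, ev, zt]⟩
    · exact ⟨10, by ext k; fin_cases k <;> simp [pt, ev, zt]⟩
    · exact ⟨11, by ext k; fin_cases k <;> simp [pt, ev, zt]⟩
  · rintro ⟨i, rfl⟩
    fin_cases i
    · exact ⟨1, 1, Or.inl rfl, Or.inl rfl, Or.inl (by ext k; fin_cases k <;> simp [pt, ev, zt])⟩
    · exact ⟨1, 1, Or.inl rfl, Or.inl rfl, Or.inr (Or.inl (by ext k; fin_cases k <;> simp [pt, ev, zt]))⟩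
    · exact ⟨1, 1, Or.inl rfl, Or.inl rfl, Or.inr (Or.inr (by ext k; fin_cases k <;> simp [pt, ev, zt]))⟩
    · exact ⟨1, -1, Or.inl rfl, Or.inr rfl, Or.inl (by ext k; fin_cases k <;> simp [pt, ev, zt])⟩
    · exact ⟨1, -1, Or.inl rfl, Or.inr rfl, Or.inr (Or.inl (by ext k; fin_cases k <;> simp [pt, ev, zt]))⟩
    · exact ⟨1, -1, Or.inl rfl, Or.inr rfl, Or.inr (Or.inr (by ext k; fin_cases k <;> simp [pt, ev, zt]))⟩
    · exact ⟨-1, 1, Or.inr rfl, Or.inl rfl, Or.inl (by ext k; fin_cases k <;> simp [pt, ev, zt])⟩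
    · exact ⟨-1, 1, Or.inr rfl, Or.inl rfl, Or.inr (Or.inl (by ext k; fin_cases k <;> simp [pt, ev, zt]))⟩
    · exact ⟨-1, 1, Or.inr rfl, Or.inl rfl, Or.inr (Or.inr (by ext k; fin_cases k <;> simp [pt, ev, zt]))⟩
    · exact ⟨-1, -1, Or.inr rfl, Or.inr rfl, Or.inl (by ext k; fin_cases k <;> simp [pt, ev, zt])⟩
    · exact ⟨-1, -1, Or.inr rfl, Or.inr rfl, Or.inr (Or.inl (by ext k; fin_cases k <;> simp [pt, ev, zt]))⟩
    · exact ⟨-1, -1, Or.inr rfl, Or.inr rfl, Or.inr (Or.inr (by ext k; fin_cases k <;> simp [pt, ev, zt]))⟩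

private theorem IcoP_pt_mem (i : Fin 12) : pt i ∈ Ico := by
  rw [IcoP_ico_eq]; exact subset_convexHull ℝ _ ⟨i, rfl⟩

/-- A bound at the twelve points is a bound on the hull. -/
private theorem IcoP_ico_le (m : Fin 3 → ℝ) (c : ℝ) (h : ∀ k, m ⬝ᵥ pt k ≤ c) {x : Fin 3 → ℝ}
    (hx : x ∈ Ico) : m ⬝ᵥ x ≤ c := by
  rw [IcoP_ico_eq] at hx
  have hc : Convex ℝ {y : Fin 3 → ℝ | IcoP_fn m y ≤ c} :=
    convex_halfSpace_le (LinearMap.isLinear (IcoP_fn m).toLinearMap) c
  have := convexHull_min (s := Set.range pt) (t := {y : Fin 3 → ℝ | IcoP_fn m y ≤ c}) (by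
    rintro _ ⟨k, rfl⟩
    show IcoP_fn m (pt k) ≤ c
    rw [IcoP_fn_apply]; exact h k) hc hx
  have h2 : IcoP_fn m x ≤ c := this
  rwa [IcoP_fn_apply] at h2

private theorem IcoP_dp_self (i : Fin 12) : dp i i = (2, 1) := by
  revert i; decide

private theorem IcoP_dp_ne {i j : Fin 12} (h : i ≠ j) : IcoP_zpos ((2, 1) - dp i j) = true := by
  revert i j; decide

private theorem IcoP_ev_dp_le (i j : Fin 12) : ev (dp i j) ≤ ev (2, 1) := by
  rcases eq_or_ne i j with rfl | h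
  · rw [IcoP_dp_self]
  · have := IcoP_ev_pos (IcoP_dp_ne h)
    rw [IcoP_ev_sub] at this
    linarith

theorem pt_inj : Function.Injective pt := by
  intro i j h
  by_contra hne
  have h1 := IcoP_ev_pos (IcoP_dp_ne hne)
  rw [IcoP_ev_sub, ← IcoP_pt_dot, ← h, IcoP_pt_dot, IcoP_dp_self] at h1
  linarith

private theorem IcoP_pt_extreme (i : Fin 12) : pt i ∈ Ico.extremePoints ℝ := by
  have key : ∀ x ∈ Ico, pt i ⬝ᵥ x = ev (2, 1) → x = pt i := by
    intro x hx h
    have h1 : x ⬝ᵥ x ≤ ev (2, 1) := by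
      apply IcoP_ico_le x _ _ hx
      intro k
      rw [dotProduct_comm]
      apply IcoP_ico_le (pt k) _ _ hx
      intro j
      rw [IcoP_pt_dot]
      exact IcoP_ev_dp_le k j
    have h2 : pt i ⬝ᵥ pt i = ev (2, 1) := by rw [IcoP_pt_dot, IcoP_dp_self]
    have h3 : (x 0 - pt i 0) ^ 2 + (x 1 - pt i 1) ^ 2 + (x 2 - pt i 2) ^ 2 ≤ 0 := by
      simp only [dotProduct, Fin.sum_univ_three] at h h1 h2
      nlinarith
    have h4 : (x 0 - pt i 0) = 0 := by
      nlinarith [sq_nonneg (x 0 - pt i 0), sq_nonneg (x 1 - pt i 1), sq_nonneg (x 2 - pt i 2)]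
    have h5 : (x 1 - pt i 1) = 0 := by
      nlinarith [sq_nonneg (x 0 - pt i 0), sq_nonneg (x 1 - pt i 1), sq_nonneg (x 2 - pt i 2)]
    have h6 : (x 2 - pt i 2) = 0 := by
      nlinarith [sq_nonneg (x 0 - pt i 0), sq_nonneg (x 1 - pt i 1), sq_nonneg (x 2 - pt i 2)]
    ext k
    fin_cases k
    · exact sub_eq_zero.mp h4
    · exact sub_eq_zero.mp h5
    · exact sub_eq_zero.mp h6
  have hle : ∀ x ∈ Ico, pt i ⬝ᵥ x ≤ ev (2, 1) := by
    intro x hx
    apply IcoP_ico_le (pt i) _ _ hx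
    intro j
    rw [IcoP_pt_dot]
    exact IcoP_ev_dp_le i j
  rw [mem_extremePoints]
  refine ⟨IcoP_pt_mem i, ?_⟩
  rintro x hx y hy ⟨a, b, ha, hb, hab, hxy⟩
  have h0 : pt i ⬝ᵥ pt i = ev (2, 1) := by rw [IcoP_pt_dot, IcoP_dp_self]
  have h1 : a * (pt i ⬝ᵥ x) + b * (pt i ⬝ᵥ y) = ev (2, 1) := by
    rw [← h0]
    nth_rewrite 4 [← hxy]
    rw [dotProduct_add, dotProduct_smul, dotProduct_smul, smul_eq_mul, smul_eq_mul]
  have h2 := hle x hx
  have h3 := hle y hy
  constructor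
  · apply key x hx
    have hb' : b = 1 - a := by linarith
    subst hb'
    nlinarith
  · apply key y hy
    have ha' : a = 1 - b := by linarith
    subst ha'
    nlinarith

private theorem IcoP_ext_eq : Ico.extremePoints ℝ = Set.range pt := by
  apply Set.Subset.antisymm
  · rw [IcoP_ico_eq]
    exact extremePoints_convexHull_subset
  · rintro _ ⟨i, rfl⟩
    exact IcoP_pt_extreme i

/-- An exposed face from a functional. -/
private theorem IcoP_face_of (m : Fin 3 → ℝ) (c : ℝ) (T : Set (Fin 12)) (hT : T.Nonempty)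
    (h1 : ∀ k ∈ T, m ⬝ᵥ pt k = c) (h2 : ∀ k, k ∉ T → m ⬝ᵥ pt k < c) :
    ∃ H : Set (Fin 3 → ℝ), IsExposed ℝ Ico H ∧ H ∩ Ico.extremePoints ℝ = pt '' T := by
  classical
  have hle : ∀ k, m ⬝ᵥ pt k ≤ c := by
    intro k
    by_cases hk : k ∈ T
    · exact (h1 k hk).le
    · exact (h2 k hk).le
  have hmax : ∀ x ∈ Ico, m ⬝ᵥ x ≤ c := fun x hx => IcoP_ico_le m c hle hx
  refine ⟨{x | x ∈ Ico ∧ ∀ y ∈ Ico, IcoP_fn m y ≤ IcoP_fn m x}, fun _ => ⟨IcoP_fn m, rfl⟩, ?_⟩
  obtain ⟨k0, hk0⟩ := hT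
  rw [IcoP_ext_eq]
  ext x
  constructor
  · rintro ⟨⟨hx, hy⟩, ⟨k, rfl⟩⟩
    refine ⟨k, ?_, rfl⟩
    by_contra hk
    have h3 := hy (pt k0) (IcoP_pt_mem k0)
    rw [IcoP_fn_apply, IcoP_fn_apply, h1 k0 hk0] at h3
    exact absurd (h2 k hk) (not_lt.mpr h3)
  · rintro ⟨k, hk, rfl⟩
    refine ⟨⟨IcoP_pt_mem k, fun y hy => ?_⟩, ⟨k, rfl⟩⟩
    rw [IcoP_fn_apply, IcoP_fn_apply, h1 k hk]
    exact hmax y hy

/-- What an exposed face says at the twelve points. -/
private theorem IcoP_of_face {H : Set (Fin 3 → ℝ)} (hH : IsExposed ℝ Ico H) {i : Fin 12}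
    (hi : pt i ∈ H) : ∃ l : StrongDual ℝ (Fin 3 → ℝ), (∀ k, l (pt k) ≤ l (pt i)) ∧
      ∀ k, pt k ∈ H ↔ l (pt k) = l (pt i) := by
  obtain ⟨l, hl⟩ := hH ⟨_, hi⟩
  refine ⟨l, ?_, ?_⟩
  · intro k
    rw [hl] at hi
    exact hi.2 _ (IcoP_pt_mem k)
  · intro k
    rw [hl] at hi ⊢
    constructor
    · rintro ⟨-, h⟩
      exact le_antisymm (hi.2 _ (IcoP_pt_mem k)) (h _ (IcoP_pt_mem i))
    · intro h
      refine ⟨IcoP_pt_mem k, fun y hy => ?_⟩
      rw [h]
      exact hi.2 y hy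

private theorem IcoP_exists_anti : ∀ i : Fin 12, ∃ j : Fin 12, ∀ k : Fin 3, zt i k + zt j k = 0 := by
  decide

private theorem IcoP_pt_anti (i : Fin 12) : ∃ j, pt j = - pt i := by
  obtain ⟨j, hj⟩ := IcoP_exists_anti i
  refine ⟨j, ?_⟩
  ext k
  have h := hj k
  have h2 : ev (zt i k + zt j k) = 0 := by rw [h]; simp [ev]
  rw [IcoP_ev_add] at h2
  show ev (zt j k) = - ev (zt i k)
  linarith

/-- If the maximum of `l` is zero then `l` vanishes at all points. -/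
private theorem IcoP_zero_all (l : StrongDual ℝ (Fin 3 → ℝ)) (h : ∀ k, l (pt k) ≤ 0) (k : Fin 12) :
    l (pt k) = 0 := by
  obtain ⟨j, hj⟩ := IcoP_pt_anti k
  have h1 := h j
  rw [hj, map_neg] at h1
  have h2 := h k
  linarith

private theorem IcoP_nonneg_max (l : StrongDual ℝ (Fin 3 → ℝ)) (i : Fin 12)
    (h : ∀ k, l (pt k) ≤ l (pt i)) : 0 ≤ l (pt i) := by
  obtain ⟨j, hj⟩ := IcoP_pt_anti i
  have h1 := h j
  rw [hj, map_neg] at h1
  linarith

private theorem IcoP_far_pair : ∀ i j : Fin 12, i ≠ j → dp i j ≠ (0, 1) →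
    (∀ k : Fin 3, zt i k + zt j k = 0) ∨
    ∃ p q : Fin 12, ∀ k : Fin 3, zt p k + zt q k = zm (0, 1) (zt i k + zt j k) := by
  decide +kernel

private theorem IcoP_edge_check : ∀ i j : Fin 12, dp i j = (0, 1) →
    ∀ k : Fin 12, k ≠ i → k ≠ j → IcoP_zpos ((2, 2) - (dp i k + dp j k)) = true := by
  decide +kernel

private theorem IcoP_tri_check : ∀ i j : Fin 12, dp i j = (0, 1) → ∀ p : Fin 12, dp i p = (0, 1) →
    dp j p = (0, 1) → ∀ k : Fin 12, k ≠ i → k ≠ j → k ≠ p →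
    IcoP_zpos ((2, 3) - (dp i k + dp j k + dp p k)) = true := by
  decide +kernel

private theorem IcoP_dp_symm : ∀ i j : Fin 12, dp i j = dp j i := by
  decide

private theorem IcoP_edge_face {i j : Fin 12} (h : dp i j = (0, 1)) :
    ∃ H : Set (Fin 3 → ℝ), IsExposed ℝ Ico H ∧ H ∩ Ico.extremePoints ℝ = {pt i, pt j} := by
  have := IcoP_face_of (pt i + pt j) (ev (2, 2)) {i, j} ⟨i, by simp⟩ (by
    intro k hk
    rw [add_dotProduct, IcoP_pt_dot, IcoP_pt_dot, ← IcoP_ev_add]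
    congr 1
    rcases hk with rfl | hk
    · rw [IcoP_dp_self, IcoP_dp_symm j k, h]; rfl
    · have hk : k = j := hk
      subst hk
      rw [IcoP_dp_self, h]; rfl) (by
    intro k hk
    rw [add_dotProduct, IcoP_pt_dot, IcoP_pt_dot, ← IcoP_ev_add]
    have h1 : k ≠ i := fun e => hk (by simp [e])
    have h2 : k ≠ j := fun e => hk (by simp [e])
    have h3 := IcoP_ev_pos (IcoP_edge_check i j h k h1 h2)
    rw [IcoP_ev_sub] at h3
    linarith)
  rwa [Set.image_pair] at this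

private theorem IcoP_tri_face {i j p : Fin 12} (h : dp i j = (0, 1)) (hp : dp i p = (0, 1))
    (hq : dp j p = (0, 1)) :
    ∃ H : Set (Fin 3 → ℝ), IsExposed ℝ Ico H ∧
      H ∩ Ico.extremePoints ℝ = {pt i, pt j, pt p} := by
  have := IcoP_face_of (pt i + pt j + pt p) (ev (2, 3)) {i, j, p} ⟨i, by simp⟩ (by
    intro k hk
    rw [add_dotProduct, add_dotProduct, IcoP_pt_dot, IcoP_pt_dot, IcoP_pt_dot, ← IcoP_ev_add, ← IcoP_ev_add]
    congr 1
    rcases hk with rfl | hk | hk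
    · rw [IcoP_dp_self, IcoP_dp_symm j k, h, IcoP_dp_symm p k, hp]; rfl
    · subst hk
      rw [IcoP_dp_self, h, IcoP_dp_symm p k, hq]; rfl
    · have hk : k = p := hk
      subst hk
      rw [IcoP_dp_self, hp, hq]; rfl) (by
    intro k hk
    rw [add_dotProduct, add_dotProduct, IcoP_pt_dot, IcoP_pt_dot, IcoP_pt_dot, ← IcoP_ev_add, ← IcoP_ev_add]
    have h1 : k ≠ i := fun e => hk (by simp [e])
    have h2 : k ≠ j := fun e => hk (by simp [e])
    have h3 : k ≠ p := fun e => hk (by simp [e])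
    have h4 := IcoP_ev_pos (IcoP_tri_check i j h p hp hq k h1 h2 h3)
    rw [IcoP_ev_sub] at h4
    linarith)
  rwa [Set.image_insert_eq, Set.image_pair] at this


theorem ext_ico : Ico.extremePoints ℝ = Set.range pt := by
  exact IcoP_ext_eq

theorem ico_face_edge {i j : Fin 12} (h : adj i j) :
    ∃ H : Set (Fin 3 → ℝ), IsExposed ℝ Ico H ∧ H ∩ Ico.extremePoints ℝ = {pt i, pt j} := by
  exact IcoP_edge_face h

theorem ico_face_tri (t : Fin 20) :
    ∃ H : Set (Fin 3 → ℝ), IsExposed ℝ Ico H ∧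
      H ∩ Ico.extremePoints ℝ = {pt (tv t 0), pt (tv t 1), pt (tv t 2)} := by
  exact IcoP_tri_face (tv_adj (by decide)) (tv_adj (by decide)) (tv_adj (by decide))

theorem ico_face_clique {H : Set (Fin 3 → ℝ)} (hH : IsExposed ℝ Ico H) :
    (∀ i j, pt i ∈ H → pt j ∈ H → i ≠ j → adj i j) ∨ ∀ i, pt i ∈ H := by
  by_cases hc : ∀ i j, pt i ∈ H → pt j ∈ H → i ≠ j → adj i j
  · exact Or.inl hc
  right
  push Not at hc
  obtain ⟨i, j, hi, hj, hij, hne⟩ := hc
  obtain ⟨l, hl1, hl2⟩ := IcoP_of_face hH hi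
  have hlj : l (pt j) = l (pt i) := (hl2 j).mp hj
  have h0 := IcoP_nonneg_max l i hl1
  have hM : l (pt i) = 0 := by
    rcases IcoP_far_pair i j hij hne with h | ⟨p, q, h⟩
    · have h1 : pt i + pt j = 0 := by
        ext k
        show ev (zt i k) + ev (zt j k) = 0
        rw [← IcoP_ev_add, h k]
        simp [ev]
      have h2 : l (pt i) + l (pt j) = 0 := by rw [← map_add, h1, map_zero]
      linarith
    · have h1 : pt p + pt q = Real.goldenRatio • (pt i + pt j) := by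
        ext k
        show ev (zt p k) + ev (zt q k) = Real.goldenRatio * (ev (zt i k) + ev (zt j k))
        rw [← IcoP_ev_add, h k, IcoP_ev_zm, IcoP_ev_add]
        simp [ev]
      have h2 : l (pt p) + l (pt q) = Real.goldenRatio * (l (pt i) + l (pt j)) := by
        rw [← map_add, h1, map_smul, map_add, smul_eq_mul]
      have h3 := hl1 p
      have h4 := hl1 q
      have h5 := IcoP_phi_lo
      nlinarith
  intro k
  rw [hl2 k, hM]
  exact IcoP_zero_all l (fun k => by rw [← hM]; exact hl1 k) k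

end Pool.Agent.H77.EE
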