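import Mathlib
import Pool.Agent.H77.EE.Defs
import Pool.Agent.H77.EE.Comb
import Pool.Agent.H77.EE.IcoP
import Pool.Agent.H77.IC.Defs

/-!
# LabM: the labelling of a combinatorial icosahedron

From `IsIco F`: `g` maps the vertices of `F` bijectively to `range pt` (`ext_ico`);
`lab i` is the vertex of `F` with `g (lab i) = pt i` (`BijOn.surjOn`, `choose`). Then
`lab '' T` corresponds to `pt '' T` (`g '' (lab '' T) = pt '' T`). `tri`: `ico_face_tri`. `nbs`: from left to
right `ico_face_edge`, from right to left the face `G` with vertices `lab i, lab j` gives a face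
`H` of `Ico` with vertices `pt i, pt j`; `ico_face_clique` (not all twelve vertices). `clq`: for `G`
exposed apply the equivalence to `T = G ∩ ext F` and `ico_face_clique` to the resulting `H`;
`lab i ∈ G ↔ pt i ∈ H`.
-/

set_option autoImplicit false

open Set Module Pool.Agent.H77.IC

namespace Pool.Agent.H77.EE

theorem lab_exists {F : Set E4} (h : IsIco F) : ∃ lab : Fin 12 → E4, Lab F lab := by
  obtain ⟨g, hg, hT⟩ := h
  rw [ext_ico] at hg hT
  have hsurj : ∀ i : Fin 12, ∃ x : E4, x ∈ F.extremePoints ℝ ∧ g x = pt i := by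
    intro i
    obtain ⟨x, hx, hgx⟩ := hg.surjOn (mem_range_self i)
    exact ⟨x, hx, hgx⟩
  choose lab hlab hglab using hsurj
  have hinj : Function.Injective lab := by
    intro i j hij
    apply pt_inj
    rw [← hglab i, ← hglab j, hij]
  have hrange : Set.range lab = F.extremePoints ℝ := by
    apply Subset.antisymm
    · rintro _ ⟨i, rfl⟩
      exact hlab i
    · intro x hx
      obtain ⟨i, hi⟩ := hg.mapsTo hx
      refine ⟨i, ?_⟩
      apply hg.injOn (hlab i) hx
      rw [hglab i, hi]
  have himg : ∀ A : Set (Fin 12), g '' (lab '' A) = pt '' A := by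
    intro A
    rw [image_image]
    apply image_congr
    intro i _
    exact hglab i
  have key : ∀ A : Set (Fin 12),
      (∃ G : Set E4, IsExposed ℝ F G ∧ G ∩ F.extremePoints ℝ = lab '' A) ↔
        (∃ H : Set (Fin 3 → ℝ), IsExposed ℝ Ico H ∧ H ∩ Set.range pt = pt '' A) := by
    intro A
    rw [← himg A]
    apply hT
    rintro _ ⟨i, _, rfl⟩
    exact hlab i
  refine ⟨lab, hinj, hrange, ?_, ?_, ?_⟩
  · intro t
    have hA : lab '' {tv t 0, tv t 1, tv t 2} = {lab (tv t 0), lab (tv t 1), lab (tv t 2)} := by
      rw [image_insert_eq, image_insert_eq, image_singleton]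
    have hB : pt '' {tv t 0, tv t 1, tv t 2} = {pt (tv t 0), pt (tv t 1), pt (tv t 2)} := by
      rw [image_insert_eq, image_insert_eq, image_singleton]
    rw [← hA, key, hB, ← ext_ico]
    exact ico_face_tri t
  · intro i j
    have hA : lab '' {i, j} = {lab i, lab j} := by
      rw [image_insert_eq, image_singleton]
    have hB : pt '' {i, j} = {pt i, pt j} := by
      rw [image_insert_eq, image_singleton]
    constructor
    · intro hij
      have hne : i ≠ j := by
        rintro rfl
        exact adj_irrefl i hij
      refine ⟨fun he => hne (hinj he).symm, hlab i, hlab j, ?_⟩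
      rw [← hA, key, hB, ← ext_ico]
      exact ico_face_edge hij
    · rintro ⟨hne, _, _, hG⟩
      have hne' : i ≠ j := fun he => hne (by rw [he])
      rw [← hA, key, hB] at hG
      obtain ⟨H, hH, hHe⟩ := hG
      have hi : pt i ∈ H := by
        have : pt i ∈ H ∩ Set.range pt := by
          rw [hHe]
          exact mem_insert _ _
        exact this.1
      have hj : pt j ∈ H := by
        have : pt j ∈ H ∩ Set.range pt := by
          rw [hHe]
          exact mem_insert_of_mem _ (mem_singleton _)
        exact this.1
      rcases ico_face_clique hH with h1 | h1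
      · exact h1 i j hi hj hne'
      · exfalso
        have h12 : ∀ i j : Fin 12, ∃ k : Fin 12, k ≠ i ∧ k ≠ j := by
          decide +kernel
        obtain ⟨k, hki, hkj⟩ := h12 i j
        have hk : pt k ∈ H ∩ Set.range pt := ⟨h1 k, mem_range_self k⟩
        rw [hHe] at hk
        rcases hk with hk | hk
        · exact hki (pt_inj hk)
        · exact hkj (pt_inj hk)
  · intro G hG
    have hA : lab '' {i | lab i ∈ G} = G ∩ F.extremePoints ℝ := by
      ext x
      constructor
      · rintro ⟨i, hi, rfl⟩
        exact ⟨hi, hlab i⟩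
      · rintro ⟨hx, hx'⟩
        rw [← hrange] at hx'
        obtain ⟨i, rfl⟩ := hx'
        exact ⟨i, hx, rfl⟩
    obtain ⟨H, hH, hHe⟩ := (key {i | lab i ∈ G}).mp ⟨G, hG, hA.symm⟩
    have hiff : ∀ i, pt i ∈ H ↔ lab i ∈ G := by
      intro i
      constructor
      · intro hi
        have h1 : pt i ∈ H ∩ Set.range pt := ⟨hi, mem_range_self i⟩
        rw [hHe] at h1
        obtain ⟨j, hj, hje⟩ := h1
        rw [← pt_inj hje]
        exact hj
      · intro hi
        have h1 : pt i ∈ pt '' {i | lab i ∈ G} := ⟨i, hi, rfl⟩
        rw [← hHe] at h1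
        exact h1.1
    rcases ico_face_clique hH with h1 | h1
    · left
      intro i j hi hj hij
      exact h1 i j ((hiff i).mpr hi) ((hiff j).mpr hj) hij
    · right
      intro i
      exact (hiff i).mp (h1 i)

end Pool.Agent.H77.EE
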