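import Mathlib
import Pool.Agent.H77.EE.Defs
import Pool.Agent.H77.EE.LabM
import Pool.Agent.H77.EE.FunM
import Pool.Agent.H77.IC.Defs
import Pool.Agent.H77.IC.Facet
import Pool.Agent.H77.IC.CoreA

/-!
# GeoM: all choices

`o0` any interior point, `a F` from `fun_exists`, `lab F` from `lab_exists`, `o F` from `facet_core`;
`o_lt`: `a G (o F - o0) ≤ 1` and equality gives `o F ∈ G`, `F = G` by `eq_of_core`.
-/

set_option autoImplicit false

open Set Module Pool.Agent.H77.IC

namespace Pool.Agent.H77.EE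

theorem geo_exists (S : Finset E4) (hS : (interior (convexHull ℝ (S : Set E4))).Nonempty)
    (hI : ∀ F, IsFacet (convexHull ℝ (S : Set E4)) F → IsIco F) : Nonempty (Geo S) := by
  classical
  obtain ⟨o0, ho⟩ := hS
  choose a ha1 ha2 using fun F : Fc S => fun_exists S ho F.2
  choose o ho' using fun F : Fc S => facet_core S F.2
  choose lab hlab using fun F : Fc S => lab_exists (hI F.1 F.2)
  refine ⟨⟨o0, a, o, lab, ho, ha1, ha2, fun F => (ho' F).1, ho', ?_, hlab⟩⟩
  intro F G hGF
  have hoP : o F ∈ convexHull ℝ (S : Set E4) := F.2.1.subset (ho' F).1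
  refine lt_of_le_of_ne (ha1 G _ hoP) ?_
  intro h
  apply hGF
  have h1 := eq_of_core G.2 F.2 (ho' F) ((ha2 G _ hoP).1 h)
  exact Subtype.ext h1.symm

end Pool.Agent.H77.EE
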