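import Mathlib
import Pool.Agent.H77.EE.Defs
import Pool.Agent.H77.EE.CxA
import Pool.Agent.H77.EE.GlM
import Pool.Agent.H77.EE.SwA
import Pool.Agent.H77.EE.StepM
import Pool.Agent.H77.EE.Orbit
import Pool.Agent.H77.EE.WalkS
import Pool.Agent.H77.EE.Dev
import Pool.Agent.H77.EE.Chain
import Pool.Agent.H77.EE.Fan

/-!
# Local: no vertex lies on exactly one exceptional edge

`W = {v}`, `f1 = (F1, t1, k1)`, `e0 = ed f1 ∋ v`, `F1` is the highest cell. Suppose `3 ∤ val e0`. Let `F0` be the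
lowest cell containing `v`. `F1 ≠ F0` since `nbr F1 t1` contains `v` (`mem_of_has`) and is lower
(`hmax`, `nbr_ne`, `h_inj`). `dev` for `s = {G | h G < h F1}`, `W = {v}`: the condition `hok` for `F ∈ s`, an
edge `e = ed (F, t, k) ∋ v` (`has_fl`) all of whose other cells are lower than `F`: `e = e0` is impossible as
`F1` contains `e0` (`mem_ed`), is not `F` and not lower, so `hv` applies. So for every `y0` there is `σ`, glued
on `s`. Extension to `F1`: the triangles `t ∋ v` of `F1` all have lower neighbours. Choose `E t` with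
`Gl F1 t (E t) (σ (nbr F1 t))`. `step` gives `E t = E (fl t k)` for all flags `(F1, t, k)` with
`v ∈ ed`, `ed ≠ e0`; with `i`, `j` the labels in `F1` of the two ends `v`, `u` of `e0` this is the
hypothesis of `fan`, so all `E t`, `t ∋ v`, are the same `y`; `σ1 = update σ F1 y` is `Cons` for the set of all
cells and `W = {v}` (as in `Dev`). With `y0` from `chain` for `y1 = (1, 0)` we get `σ1 F1 = (1, 0)`, `X = 1`,
`C = 2`. Walk around `e0` from `f1` (`orbit`, `walk_seq` with `d i = σ1 (om^[i] f1).1`, `n = val e0`; all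
triangles met contain `e0 ∋ v`): `(Wk 2)^[n] (2, 1) = (2, 1)`, so `Wk_one`, `Wk_fix` give a contradiction.
-/

set_option autoImplicit false

namespace Pool.Agent.H77.EE

private theorem Local_third : ∀ a b : Fin 3, a ≠ b → ∃ c : Fin 3, c ≠ a ∧ c ≠ b := by
  decide

open Classical in
private theorem Local_ext {Φ V : Type} [Finite Φ] (K : Cx Φ V) (w : Sw K) {F1 : Φ} {t1 : Fin 20}
    {k1 : Fin 3} {v : V} {jv jo : Fin 3} (hjv' : K.lab F1 (tv t1 jv) = v)
    (hjo : jo ≠ k1) (hjov : jo ≠ jv) (hlow : ∀ G, G ≠ F1 → w.h G < w.h F1)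
    (hv : ∀ f : Fg Φ, v ∈ K.ed f → K.ed f ≠ K.ed (F1, t1, k1) → 3 ∣ K.val (K.ed f))
    {σ : Φ → D} (hσ : K.Cons {G | w.h G < w.h F1} {v} σ) :
    ∃ y : D, K.Cons {G | w.h G ≤ w.h F1} {v} (Function.update σ F1 y) := by
  classical
  have hne : ∀ {G : Φ}, w.h G < w.h F1 → G ≠ F1 := fun h h' => by
    rw [h'] at h
    exact lt_irrefl _ h
  choose E hE using fun t => gl_exists' K F1 t (σ (K.nbr F1 t))
  have hij : tv t1 jv ≠ tv t1 jo := fun h => hjov (tv_inj t1 h).symm
  have hkey : ∀ t k, (∃ m, tv t m = tv t1 jv) → tv t k ≠ tv t1 jv →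
      (∀ m, m ≠ k → tv t m ≠ tv t1 jo) → E t = E (fl t k) := by
    rintro t k ⟨m, hm⟩ hk hj
    have hW : K.has {v} F1 t := by
      intro x hx
      rw [Set.mem_singleton_iff] at hx
      exact ⟨m, by rw [hm, hx, hjv']⟩
    have hkn : K.lab F1 (tv t k) ∉ ({v} : Set V) := by
      rw [Set.mem_singleton_iff, ← hjv']
      exact fun h => hk (K.lab_inj F1 h)
    have hmk : m ≠ k := fun h => hk (h ▸ hm)
    have hved : v ∈ K.ed (F1, t, k) := ⟨m, hmk, by rw [← hjv', ← hm]⟩
    have hedne : K.ed (F1, t, k) ≠ K.ed (F1, t1, k1) := by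
      intro h
      have h1 : K.lab F1 (tv t1 jo) ∈ K.ed (F1, t1, k1) := ⟨jo, hjo, rfl⟩
      rw [← h] at h1
      obtain ⟨m', hm', h2⟩ := h1
      exact hj m' hm' (K.lab_inj F1 h2)
    exact step K w hσ hW hkn (hlow _ (K.nbr_ne F1 t)) (hlow _ (K.nbr_ne F1 (fl t k)))
      (hv _ hved hedne) (hE t) (hE (fl t k))
  have hconst : ∀ t, K.has {v} F1 t → E t = E t1 := by
    intro t ht
    obtain ⟨m, hm⟩ := ht v rfl
    rw [← hjv'] at hm
    exact fan E hij hkey ⟨m, K.lab_inj F1 hm⟩ ⟨jv, rfl⟩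
  refine ⟨E t1, ?_⟩
  intro G t _ _ hW
  by_cases h1 : G = F1
  · subst h1
    rw [Function.update_self, Function.update_of_ne (K.nbr_ne G t), ← hconst t hW]
    exact hE t
  · by_cases h2 : K.nbr G t = F1
    · rw [Function.update_of_ne h1]
      have h3 : K.nbr F1 (K.tr G t) = G := by
        rw [← h2]
        exact nbr_nbr K G t
      have h4 : K.has {v} F1 (K.tr G t) := by
        rw [← h2]
        exact has_nbr K hW
      have h6 := hE (K.tr G t)
      rw [hconst _ h4, h3] at h6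
      have h7 : K.Gl (K.nbr G t) (K.tr G t) (E t1) (σ G) := by
        rw [h2]
        exact h6
      have h8 := gl_symm' K h7
      rw [h2, Function.update_self]
      exact h8
    · rw [Function.update_of_ne h1, Function.update_of_ne h2]
      exact hσ G t (hlow G h1) (hlow _ h2) hW

theorem local_main {Φ V : Type} [Finite Φ] (K : Cx Φ V) (w : Sw K) (f1 : Fg Φ) {v : V}
    (hv1 : v ∈ K.ed f1) (hmax : ∀ G, w.h G ≤ w.h f1.1)
    (hv : ∀ f : Fg Φ, v ∈ K.ed f → K.ed f ≠ K.ed f1 → 3 ∣ K.val (K.ed f)) :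
    3 ∣ K.val (K.ed f1) := by
  classical
  by_contra hnot
  have horb := orbit K w f1
  obtain ⟨F1, t1, k1⟩ := f1
  have hv1' := hv1
  obtain ⟨jv, hjv, hjv'⟩ := hv1'
  obtain ⟨jo, hjo, hjov⟩ := Local_third k1 jv hjv.symm
  have hmax' : ∀ G, w.h G ≤ w.h F1 := hmax
  have hlow : ∀ G, G ≠ F1 → w.h G < w.h F1 := fun G hG =>
    lt_of_le_of_ne (hmax' G) fun h => hG (w.h_inj h)
  have hhas : K.has {v} F1 t1 := by
    intro x hx
    rw [Set.mem_singleton_iff] at hx
    exact ⟨jv, by rw [hx]; exact hjv'⟩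
  have hmem1 : K.mem v F1 := ⟨tv t1 jv, hjv'⟩
  obtain ⟨F0, hF0v, hF0⟩ := Set.exists_min_image {G | K.mem v G} w.h (Set.toFinite _)
    ⟨F1, hmem1⟩
  have hmin : ∀ G, (∀ x ∈ ({v} : Set V), K.mem x G) → w.h F0 ≤ w.h G := fun G hG =>
    hF0 G (hG v rfl)
  have hF0m : ∀ x ∈ ({v} : Set V), K.mem x F0 := by
    intro x hx
    rw [Set.mem_singleton_iff] at hx
    rw [hx]
    exact hF0v
  have hF0lt : w.h F0 < w.h F1 :=
    lt_of_le_of_lt (hF0 _ (mem_of_has K hhas (Set.mem_singleton v)).2)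
      (hlow _ (K.nbr_ne F1 t1))
  have hF01 : F0 ≠ F1 := fun h => by
    rw [h] at hF0lt
    exact lt_irrefl _ hF0lt
  obtain ⟨y0, hy0⟩ := chain K w {v} hF0m hmin F1 ⟨t1, hhas⟩ ((1, 0) : D)
  obtain ⟨σ, hσ, hσ0⟩ := dev K w {v} {G | w.h G < w.h F1}
    (fun F hF G hG => lt_trans hG hF)
    (by
      intro F hF t k hW hk hG
      have hvm : v ∈ K.ed (F, t, k) := (has_fl K hW hk).2 rfl
      refine hv (F, t, k) hvm fun heq => ?_
      have h1 : w.h F < w.h F1 := hF
      have h2 : F1 ≠ F := fun h => by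
        rw [h] at h1
        exact lt_irrefl _ h1
      have h3 : w.h F1 < w.h F := hG F1 h2 (by
        rw [heq]
        exact mem_ed K (F1, t1, k1))
      exact absurd h3 (not_lt.mpr (hmax' F)))
    (F0 := F0) hF0lt hmin y0
  obtain ⟨y, hy⟩ := Local_ext K w hjv' hjo hjov hlow hv hσ
  have hone : Function.update σ F1 y F1 = ((1, 0) : D) := by
    refine hy0 _ hy ?_
    rw [Function.update_of_ne hF01]
    exact hσ0
  have hwalk := walk_seq K (F1, t1, k1)
    (fun i => Function.update σ F1 y (K.om^[i] (F1, t1, k1)).1) (K.val (K.ed (F1, t1, k1)))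
    (by
      intro i _
      have h1 : K.ed (K.om^[i] (F1, t1, k1)) = K.ed (F1, t1, k1) := ed_om K _ i
      have h2 : K.has {v} (Cx.al (K.om^[i] (F1, t1, k1))).1 (Cx.al (K.om^[i] (F1, t1, k1))).2.1 := by
        intro x hx
        rw [Set.mem_singleton_iff] at hx
        refine has_ed K (Cx.al (K.om^[i] (F1, t1, k1))) x ?_
        rw [ed_al, h1, hx]
        exact hv1
      have h3 := hy (K.om^[i] (F1, t1, k1)).1
        (fl (K.om^[i] (F1, t1, k1)).2.1 (K.om^[i] (F1, t1, k1)).2.2) (hmax' _) (hmax' _) h2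
      rw [Function.iterate_succ_apply']
      exact h3)
  have h1 := hwalk.1
  simp only [horb.1, Function.iterate_zero, id_eq] at h1
  rw [hone] at h1
  have e1 : ∀ (t : Fin 20) (k : Fin 3), st ((1, 0) : D) t k = (2, 1) := by
    intro t k
    unfold st C X
    simp
  have e2 : sm ((1, 0) : D) t1 k1 = 2 := by
    unfold sm X
    simp
    norm_num
  rw [e1, e2] at h1
  exact Wk_fix (Wk_one hnot h1.symm)

end Pool.Agent.H77.EE
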