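import Mathlib
import Pool.Agent.H77.EE.Defs
import Pool.Agent.H77.EE.Comb
import Pool.Agent.H77.EE.GeoA
import Pool.Agent.H77.IC.Defs
import Pool.Agent.H77.IC.Facet
import Pool.Agent.H77.IC.Sep
import Pool.Agent.H77.IC.CoreA

/-!
# SpanM: four independent points

`v k = g.lab F (tv t k)`. The vectors `v 1 - v 0`, `v 2 - v 0` are independent (`not_proportional`, all
three are different vertices of `P`: `lab_ext`, `Lab.inj`, `tv_inj`). `o F - v 0` is not in their span: let `G` be
the face of `F` with vertices `v 0, v 1, v 2` (`Lab.tri`), `r` a functional with maximum `M` on `F` exactly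
on `G` (`exposed_eq` for the polytope `F` or the definition of `IsExposed`); if `o F` were in the span
then `r (o F) = M` and `core_max` gives `F ⊆ G`, so all vertices of `F` would be `v 0, v 1, v 2`; but there are
twelve. So the three vectors are independent, they lie in the kernel of `a F`, and `v 0 - o0` does not
(`a F (v 0 - o0) = 1`). Four independent vectors of the 4-dimensional space span it; `l` vanishes on
them: `l (v 1 - v 0) = l (v 1 - o0) - l (v 0 - o0)` and so on.
-/

set_option autoImplicit false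

open Set Module Pool.Agent.H77.IC

namespace Pool.Agent.H77.EE

private theorem span_avoid (t : Fin 20) : ∃ i : Fin 12, ∀ k : Fin 3, i ≠ tv t k := by
  revert t
  decide +kernel

theorem span_zero {S : Finset E4} (g : Geo S) (F : Fc S) (t : Fin 20) (l : E4 →ₗ[ℝ] ℝ)
    (h : ∀ k, l (g.lab F (tv t k) - g.o0) = 0) (ho : l (g.o F - g.o0) = 0) : l = 0 := by
  obtain ⟨G, hG, hGT⟩ := (g.lab_ok F).tri t
  have hin : ∀ k : Fin 3, g.lab F (tv t k) ∈ G := by
    intro k
    have h1 : g.lab F (tv t k) ∈ G ∩ F.1.extremePoints ℝ := by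
      rw [hGT]
      fin_cases k <;> simp
    exact h1.1
  obtain ⟨r, hr⟩ := hG ⟨_, hin 0⟩
  have hP : ∀ k, g.lab F k ∈ convexHull ℝ (S : Set E4) := fun k => F.2.1.subset (lab_mem g F k)
  have hoP : g.o F ∈ convexHull ℝ (S : Set E4) := F.2.1.subset (g.o_mem F)
  have aF : ∀ k, g.a F (g.lab F k - g.o0) = 1 := fun k => (g.a_eq F _ (hP k)).2 (lab_mem g F k)
  have aO : g.a F (g.o F - g.o0) = 1 := (g.a_eq F _ hoP).2 (g.o_mem F)
  have rmax : ∀ k : Fin 3, ∀ y ∈ F.1, r y ≤ r (g.lab F (tv t k)) := by
    intro k y hy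
    have h1 := hin k
    rw [hr] at h1
    exact h1.2 y hy
  have req : ∀ k k' : Fin 3, r (g.lab F (tv t k)) = r (g.lab F (tv t k')) := fun k k' =>
    le_antisymm (rmax k' _ (lab_mem g F _)) (rmax k _ (lab_mem g F _))
  have rO : r (g.o F) ≠ r (g.lab F (tv t 0)) := by
    intro hc
    have hall := core_max (g.o_core F) (r : E4 →ₗ[ℝ] ℝ) (r (g.lab F (tv t 0)))
      (fun y hy => rmax 0 y hy) hc
    obtain ⟨i, hi⟩ := span_avoid t
    have h1 : g.lab F i ∈ G := by
      rw [hr]
      refine ⟨lab_mem g F i, fun y hy => ?_⟩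
      have e1 := hall y hy
      have e2 := hall _ (lab_mem g F i)
      simp only [ContinuousLinearMap.coe_coe] at e1 e2
      rw [e1, e2]
    have h2 : g.lab F i ∈ F.1.extremePoints ℝ := by
      rw [← (g.lab_ok F).range]
      exact ⟨i, rfl⟩
    have h3 : g.lab F i ∈ G ∩ F.1.extremePoints ℝ := ⟨h1, h2⟩
    rw [hGT] at h3
    simp only [mem_insert_iff, mem_singleton_iff] at h3
    rcases h3 with h3 | h3 | h3
    · exact hi 0 ((g.lab_ok F).inj h3)
    · exact hi 1 ((g.lab_ok F).inj h3)
    · exact hi 2 ((g.lab_ok F).inj h3)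
  have hne : ∀ k k' : Fin 3, k ≠ k' → g.lab F (tv t k) ≠ g.lab F (tv t k') := fun k k' hk hc =>
    hk (tv_inj t ((g.lab_ok F).inj hc))
  set v0 := g.lab F (tv t 0) with hv0
  set v1 := g.lab F (tv t 1) with hv1
  set v2 := g.lab F (tv t 2) with hv2
  have np := fun c : ℝ => not_proportional (convex_convexHull ℝ (S : Set E4)) (lab_ext g F (tv t 0))
    (lab_ext g F (tv t 2)) (lab_ext g F (tv t 1)) (hne 2 0 (by decide)) (hne 1 0 (by decide))
    (hne 2 1 (by decide)) c
  have li : LinearIndependent ℝ ![v1 - v0, v2 - v0, g.o F - v0, v0 - g.o0] := by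
    rw [Fintype.linearIndependent_iff]
    intro c hc
    simp only [Fin.sum_univ_four, Matrix.cons_val_zero, Matrix.cons_val_one, Matrix.cons_val]
      at hc
    have a1 : g.a F (v1 - v0) = 0 := by
      have : v1 - v0 = (v1 - g.o0) - (v0 - g.o0) := by abel
      rw [this, map_sub, aF, aF, sub_self]
    have a2 : g.a F (v2 - v0) = 0 := by
      have : v2 - v0 = (v2 - g.o0) - (v0 - g.o0) := by abel
      rw [this, map_sub, aF, aF, sub_self]
    have a3 : g.a F (g.o F - v0) = 0 := by
      have : g.o F - v0 = (g.o F - g.o0) - (v0 - g.o0) := by abel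
      rw [this, map_sub, aF, aO, sub_self]
    have c3 : c 3 = 0 := by
      have h1 := congrArg (g.a F) hc
      rw [map_add, map_add, map_add, map_smul, map_smul, map_smul, map_smul, a1, a2, a3, aF,
        map_zero] at h1
      simpa using h1
    rw [c3, zero_smul, add_zero] at hc
    have c2 : c 2 = 0 := by
      have h1 := congrArg r hc
      rw [map_add, map_add, map_smul, map_smul, map_smul, map_sub, map_sub, map_sub, map_zero,
        req 1 0, req 2 0, sub_self, smul_zero, smul_zero, zero_add, zero_add, smul_eq_mul,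
        mul_eq_zero] at h1
      rcases h1 with h1 | h1
      · exact h1
      · exact absurd (sub_eq_zero.1 h1) rO
    rw [c2, zero_smul, add_zero] at hc
    have c1 : c 1 = 0 := by
      by_contra hn
      apply np (-(c 1)⁻¹ * c 0)
      have h1 : c 1 • (v2 - v0) = -(c 0 • (v1 - v0)) := by
        rw [eq_neg_iff_add_eq_zero, add_comm]
        exact hc
      have h2 : (c 1)⁻¹ • (c 1 • (v2 - v0)) = (c 1)⁻¹ • -(c 0 • (v1 - v0)) := by rw [h1]
      rw [smul_smul, inv_mul_cancel₀ hn, one_smul] at h2
      rw [h2, smul_neg, smul_smul, neg_mul, neg_smul]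
    rw [c1, zero_smul, add_zero] at hc
    have c0 : c 0 = 0 := by
      rcases smul_eq_zero.1 hc with h1 | h1
      · exact h1
      · exact absurd (sub_eq_zero.1 h1) (hne 1 0 (by decide))
    intro i
    fin_cases i
    · exact c0
    · exact c1
    · exact c2
    · exact c3
  have sp := li.span_eq_top_of_card_eq_finrank (by simp)
  have lv : ∀ k, l (g.lab F (tv t k)) = l g.o0 := by
    intro k
    have := h k
    rw [map_sub] at this
    linarith
  have lo : l (g.o F) = l g.o0 := by
    rw [map_sub] at ho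
    linarith
  apply LinearMap.ext_on_range (v := ![v1 - v0, v2 - v0, g.o F - v0, v0 - g.o0]) sp
  intro i
  fin_cases i
  · show l (v1 - v0) = 0
    rw [map_sub, lv, lv, sub_self]
  · show l (v2 - v0) = 0
    rw [map_sub, lv, lv, sub_self]
  · show l (g.o F - v0) = 0
    rw [map_sub, lo, lv, sub_self]
  · show l (v0 - g.o0) = 0
    rw [map_sub, lv, sub_self]

end Pool.Agent.H77.EE
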