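import Mathlib
import Pool.Agent.H77.EE.Defs
import Pool.Agent.H77.EE.Comb
import Pool.Agent.H77.EE.GeoA
import Pool.Agent.H77.EE.SpanM
import Pool.Agent.H77.IC.Defs
import Pool.Agent.H77.IC.Facet

/-!
# MuM: the functionals `mu F H`

`mu F H = λ⁻¹ (a H - a F)`, `λ = 1 - a H (o F - o0) > 0` (`o_lt`). `mu_o`: `a F (o F - o0) = 1` (`o_mem`,
`a_eq`). `mu_v`: `a F (v - o0) = 1` for a vertex `v` of `F` (`lab_mem`), so the value is
`λ⁻¹ (a H (v - o0) - 1)`. `mu_inj`: with `r = λ / λ'`: `a H - a F = r (a H' - a F)`, that is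
`a H = (1 - r) a F + r a H'`, `r > 0`; by symmetry `r ≤ 1`. If `r < 1`: for `y ∈ H`,
`1 = (1 - r) a F (y - o0) + r a H' (y - o0)` with both at most `1`, so `y ∈ F`: `H ⊆ F`, `H = F`
(`facet_unique`), a contradiction. If `r = 1` then `a H = a H'`, `H = H'` by `a_eq`.
-/

set_option autoImplicit false

open Set Module Pool.Agent.H77.IC

namespace Pool.Agent.H77.EE

variable {S : Finset E4} (g : Geo S)

private theorem mum_eq (F H : Fc S) (x : E4) : g.mu F H x =
    (1 - g.a H (g.o F - g.o0))⁻¹ * (g.a H x - g.a F x) := by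
  unfold Geo.mu
  simp

private theorem mum_pos {F H : Fc S} (h : H ≠ F) : 0 < 1 - g.a H (g.o F - g.o0) := by
  have := g.o_lt F H h
  linarith

private theorem mum_P (F : Fc S) {y : E4} (hy : y ∈ F.1) : y ∈ convexHull ℝ (S : Set E4) :=
  F.2.1.subset hy

theorem mu_o {F H : Fc S} (h : H ≠ F) : g.mu F H (g.o F - g.o0) = -1 := by
  have h1 := mum_pos g h
  have h2 : g.a F (g.o F - g.o0) = 1 := (g.a_eq F _ (mum_P F (g.o_mem F))).2 (g.o_mem F)
  rw [mum_eq, h2, show g.a H (g.o F - g.o0) - 1 = -(1 - g.a H (g.o F - g.o0)) by ring,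
    mul_neg, inv_mul_cancel₀ h1.ne']

theorem mu_le {F H : Fc S} (h : H ≠ F) (i : Fin 12) : g.mu F H (g.lab F i - g.o0) ≤ 0 := by
  have h1 := mum_pos g h
  have hi := mum_P F (lab_mem g F i)
  have h2 : g.a F (g.lab F i - g.o0) = 1 := (g.a_eq F _ hi).2 (lab_mem g F i)
  have h3 := g.a_le H _ hi
  rw [mum_eq, h2]
  exact mul_nonpos_of_nonneg_of_nonpos (inv_nonneg.2 h1.le) (by linarith)

theorem mu_zero {F H : Fc S} (h : H ≠ F) (i : Fin 12) :
    g.mu F H (g.lab F i - g.o0) = 0 ↔ g.lab F i ∈ H.1 := by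
  have h1 := mum_pos g h
  have hi := mum_P F (lab_mem g F i)
  have h2 : g.a F (g.lab F i - g.o0) = 1 := (g.a_eq F _ hi).2 (lab_mem g F i)
  rw [mum_eq, h2, mul_eq_zero, ← g.a_eq H _ hi]
  constructor
  · rintro (h3 | h3)
    · exact absurd h3 (inv_ne_zero h1.ne')
    · linarith
  · intro h3
    right
    linarith

private theorem mum_aux {F H H' : Fc S} (h : H ≠ F) {r : ℝ} (hr0 : 0 < r) (hr1 : r ≤ 1)
    (he : ∀ x, g.a H x - g.a F x = r * (g.a H' x - g.a F x)) : H = H' := by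
  rcases hr1.lt_or_eq with hlt | heq
  · exfalso
    apply h
    apply Subtype.ext
    apply facet_unique H.2 F.2
    intro y hy
    have hyP := mum_P H hy
    have e1 := (g.a_eq H y hyP).2 hy
    have e2 := he (y - g.o0)
    have b1 := g.a_le F y hyP
    have b2 := g.a_le H' y hyP
    apply (g.a_eq F y hyP).1
    rw [e1] at e2
    have h3 : r * g.a H' (y - g.o0) ≤ r * 1 := mul_le_mul_of_nonneg_left b2 hr0.le
    have h4 : (1 - r) * 1 ≤ (1 - r) * g.a F (y - g.o0) := by linarith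
    have h5 := le_of_mul_le_mul_left h4 (by linarith)
    linarith
  · apply Subtype.ext
    apply facet_unique H.2 H'.2
    intro y hy
    have hyP := mum_P H hy
    have e1 := (g.a_eq H y hyP).2 hy
    have e2 := he (y - g.o0)
    rw [heq, e1] at e2
    apply (g.a_eq H' y hyP).1
    linarith

theorem mu_inj {F H H' : Fc S} (h : H ≠ F) (h' : H' ≠ F) (he : g.mu F H = g.mu F H') :
    H = H' := by
  have p := mum_pos g h
  have p' := mum_pos g h'
  have e : ∀ x, (1 - g.a H (g.o F - g.o0))⁻¹ * (g.a H x - g.a F x) =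
      (1 - g.a H' (g.o F - g.o0))⁻¹ * (g.a H' x - g.a F x) := by
    intro x
    rw [← mum_eq, ← mum_eq, he]
  set s := 1 - g.a H (g.o F - g.o0) with hs
  set s' := 1 - g.a H' (g.o F - g.o0) with hs'
  have e1 : ∀ x, g.a H x - g.a F x = s / s' * (g.a H' x - g.a F x) := by
    intro x
    have h1 := e x
    have h2 : s * (s⁻¹ * (g.a H x - g.a F x)) = s * (s'⁻¹ * (g.a H' x - g.a F x)) := by rw [h1]
    rw [← mul_assoc, mul_inv_cancel₀ p.ne', one_mul] at h2
    rw [h2, div_eq_mul_inv]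
    ring
  have e2 : ∀ x, g.a H' x - g.a F x = s' / s * (g.a H x - g.a F x) := by
    intro x
    have h1 := e x
    have h2 : s' * (s⁻¹ * (g.a H x - g.a F x)) = s' * (s'⁻¹ * (g.a H' x - g.a F x)) := by rw [h1]
    rw [← mul_assoc s' s'⁻¹, mul_inv_cancel₀ p'.ne', one_mul] at h2
    rw [← h2, div_eq_mul_inv]
    ring
  rcases le_total s s' with hle | hle
  · exact mum_aux g h (div_pos p p') ((div_le_one p').2 hle) e1
  · exact (mum_aux g h' (div_pos p' p) ((div_le_one p).2 hle) e2).symm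

end Pool.Agent.H77.EE
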