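import Mathlib
import Pool.Agent.H77.EE.Defs
import Pool.Agent.H77.EE.Comb
import Pool.Agent.H77.EE.GeoA
import Pool.Agent.H77.EE.SpanM
import Pool.Agent.H77.EE.MuM
import Pool.Agent.H77.IC.Defs
import Pool.Agent.H77.IC.Facet
import Pool.Agent.H77.IC.Tilt
import Pool.Agent.H77.IC.Valence

/-!
# RidgeM: the facet on the other side of a triangle

`ridge_exists`: the face `G` of `F` with vertices `lab F (tv t k)` (`Lab.tri`) has rank 2 (`tri_rank`; the
three points are different), `ridge` gives the facet. `ridge_unique`: `mu F H - mu F H'` vanishes at the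
three points `v k - o0` (`mu_zero`) and at `o F - o0` (`mu_o`): `span_zero`, `mu_inj`. `nbr_data`: the
points `v k` are vertices of `P` in `H`, so `v k = lab H (j k)` (`mem_lab`), the `j k` are pairwise adjacent
(`inter_clq` for `H`, `F`), `tri_of`. `tri_inj`: if `H ≠ F` contains the triangles `t`, `t'` of `F` then all
their vertices are pairwise adjacent or equal (`inter_clq`); if `t ≠ t'` some vertex `tv t' k'` is not in `t`
(`tv_ext`), and together with `t` it gives four pairwise adjacent vertices (`no4`, `tv_adj`).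
-/

set_option autoImplicit false

open Set Module Pool.Agent.H77.IC

namespace Pool.Agent.H77.EE

variable {S : Finset E4} (hS : (interior (convexHull ℝ (S : Set E4))).Nonempty) (g : Geo S)

private theorem RidgeM_ne (F : Fc S) (t : Fin 20) {k k' : Fin 3} (h : k ≠ k') :
    g.lab F (tv t k) ≠ g.lab F (tv t k') :=
  fun hc => h (tv_inj t ((g.lab_ok F).inj hc))

include hS in
theorem ridge_exists (F : Fc S) (t : Fin 20) :
    ∃ H : Fc S, H ≠ F ∧ ∀ k, g.lab F (tv t k) ∈ H.1 := by
  obtain ⟨G, hG, hGe⟩ := (g.lab_ok F).tri t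
  have hin : ∀ k : Fin 3, g.lab F (tv t k) ∈ G := by
    intro k
    have h1 : g.lab F (tv t k) ∈ G ∩ F.1.extremePoints ℝ := by
      rw [hGe]
      fin_cases k <;> simp
    exact h1.1
  have hr := tri_rank S F.2 hG hGe (RidgeM_ne g F t (k := 1) (k' := 0) (by decide))
    (RidgeM_ne g F t (k := 2) (k' := 0) (by decide)) (RidgeM_ne g F t (k := 1) (k' := 2) (by decide))
  obtain ⟨F', hF', hne', hs⟩ := ridge S hS F.2 hG ⟨_, hin 0⟩ hr
  exact ⟨⟨F', hF'⟩, fun h => hne' (congrArg Subtype.val h), fun k => hs (hin k)⟩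

theorem ridge_unique {F H H' : Fc S} {t : Fin 20} (h : H ≠ F) (h' : H' ≠ F)
    (hm : ∀ k, g.lab F (tv t k) ∈ H.1) (hm' : ∀ k, g.lab F (tv t k) ∈ H'.1) : H = H' := by
  apply mu_inj g h h'
  rw [← sub_eq_zero]
  apply span_zero g F t
  · intro k
    rw [LinearMap.sub_apply, (mu_zero g h _).2 (hm k), (mu_zero g h' _).2 (hm' k), sub_zero]
  · rw [LinearMap.sub_apply, mu_o g h, mu_o g h', sub_self]

theorem nbr_data {F H : Fc S} {t : Fin 20} (h : H ≠ F) (hm : ∀ k, g.lab F (tv t k) ∈ H.1) :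
    ∃ (t' : Fin 20) (p : Fin 3 → Fin 3), Function.Injective p ∧
      ∀ k, g.lab H (tv t' (p k)) = g.lab F (tv t k) := by
  have h1 : ∀ k, ∃ j, g.lab H j = g.lab F (tv t k) := fun k =>
    (mem_lab g H (lab_ext g F _)).1 (hm k)
  choose j hj using h1
  have hin : ∀ k, g.lab H (j k) ∈ F.1 := fun k => by
    rw [hj k]
    exact lab_mem g F _
  obtain ⟨t', p, hp, hk⟩ := tri_of j (fun k l hkl =>
    inter_clq g h.symm (hin k) (hin l) (fun hc => RidgeM_ne g F t hkl (by rw [← hj k, ← hj l, hc])))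
  exact ⟨t', p, hp, fun k => by rw [hk k, hj k]⟩

theorem tri_inj {F H : Fc S} {t t' : Fin 20} (h : H ≠ F)
    (hm : ∀ k, g.lab F (tv t k) ∈ H.1) (hm' : ∀ k, g.lab F (tv t' k) ∈ H.1) : t = t' := by
  apply tv_ext
  by_contra hcon
  push Not at hcon
  obtain ⟨k, hk⟩ := hcon
  exact no4 (inter_clq g h (hm k) (hm' 0) (hk 0).symm) (inter_clq g h (hm k) (hm' 1) (hk 1).symm)
    (inter_clq g h (hm k) (hm' 2) (hk 2).symm) (tv_adj (by decide)) (tv_adj (by decide))
    (tv_adj (t := t') (k := 1) (l := 2) (by decide))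

end Pool.Agent.H77.EE
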