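import Mathlib
import Pool.Agent.H77.EE.Defs
import Pool.Agent.H77.EE.Comb
import Pool.Agent.H77.EE.GeoA
import Pool.Agent.H77.EE.SpanM
import Pool.Agent.H77.EE.MuM
import Pool.Agent.H77.EE.RidgeM
import Pool.Agent.H77.IC.Defs

/-!
# LpM: expansion of a slope functional at a triangle

`v k = lab F (tv t k)`, `N = nbr F t`, `N k = nbr F (fl t k)`; `N`, `N k` are different from `F` and contain
the vertices of `t`, `fl t k` (`lab_pe`, `lab_mem`). `v k` is not in `N k`: otherwise `N k` would contain the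
vertices of `t` and of `fl t k` (`fl_edge`), `tri_inj`, `fl_ne`. So `mu F (N k) (v k - o0) < 0` (`mu_le`,
`mu_zero`), `mu F (N k) (v j - o0) = 0` for `j ≠ k` (`fl_edge`). Put
`c k = mu F H (v k - o0) / mu F (N k) (v k - o0) ≥ 0`, zero if `v k ∈ H`. The functional
`mu F H - mu F N - Σ c k (mu F (N k) - mu F N)` vanishes at the points `v j - o0` and at `o F - o0`
(`mu_o`): `span_zero`.
-/

set_option autoImplicit false

open Set Module Pool.Agent.H77.IC

namespace Pool.Agent.H77.EE

theorem lp_geo {S : Finset E4} (g : Geo S) (K : Cx (Fc S) E4) (hK : K.lab = g.lab)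
    (F H : Fc S) (t : Fin 20) (hHF : H ≠ F) :
    ∃ c : Fin 3 → ℝ, (∀ k, 0 ≤ c k) ∧ (∀ k, K.mem (K.lab F (tv t k)) H → c k = 0) ∧
      g.mu F H - g.mu F (K.nbr F t) =
        ∑ k, c k • (g.mu F (K.nbr F (fl t k)) - g.mu F (K.nbr F t)) := by
  have hN : ∀ (t' : Fin 20) (j : Fin 3), g.lab F (tv t' j) ∈ (K.nbr F t').1 := by
    intro t' j
    have h1 := K.lab_pe F t' j
    rw [hK] at h1
    rw [← h1]
    exact lab_mem g _ _
  have hNk : ∀ k j : Fin 3, j ≠ k → g.lab F (tv t j) ∈ (K.nbr F (fl t k)).1 := by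
    intro k j hjk
    obtain ⟨j', -, hj'⟩ := fl_edge (t := t) hjk
    rw [← hj']
    exact hN _ _
  have hnot : ∀ k : Fin 3, g.lab F (tv t k) ∉ (K.nbr F (fl t k)).1 := by
    intro k hk
    have h1 : ∀ j, g.lab F (tv t j) ∈ (K.nbr F (fl t k)).1 := by
      intro j
      by_cases hjk : j = k
      · rw [hjk]; exact hk
      · exact hNk k j hjk
    exact fl_ne t k (tri_inj g (K.nbr_ne F (fl t k)) (hN (fl t k)) h1)
  have hneg : ∀ k : Fin 3, g.mu F (K.nbr F (fl t k)) (g.lab F (tv t k) - g.o0) < 0 := by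
    intro k
    refine lt_of_le_of_ne (mu_le g (K.nbr_ne F (fl t k)) _) ?_
    intro h0
    exact hnot k ((mu_zero g (K.nbr_ne F (fl t k)) _).1 h0)
  refine ⟨fun k => g.mu F H (g.lab F (tv t k) - g.o0) /
    g.mu F (K.nbr F (fl t k)) (g.lab F (tv t k) - g.o0), ?_, ?_, ?_⟩
  · intro k
    exact div_nonneg_of_nonpos (mu_le g hHF _) (hneg k).le
  · rintro k ⟨i, hi⟩
    have h1 : g.lab F (tv t k) ∈ H.1 := by
      rw [hK] at hi
      rw [← hi]
      exact lab_mem g _ _
    show g.mu F H (g.lab F (tv t k) - g.o0) /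
      g.mu F (K.nbr F (fl t k)) (g.lab F (tv t k) - g.o0) = 0
    rw [(mu_zero g hHF _).2 h1, zero_div]
  · have key : g.mu F H - g.mu F (K.nbr F t) - ∑ k, (g.mu F H (g.lab F (tv t k) - g.o0) /
        g.mu F (K.nbr F (fl t k)) (g.lab F (tv t k) - g.o0)) •
          (g.mu F (K.nbr F (fl t k)) - g.mu F (K.nbr F t)) = 0 := by
      apply span_zero g F t
      · intro j
        have h0 : g.mu F (K.nbr F t) (g.lab F (tv t j) - g.o0) = 0 :=
          (mu_zero g (K.nbr_ne F t) _).2 (hN t j)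
        simp only [LinearMap.sub_apply, LinearMap.sum_apply, LinearMap.smul_apply, h0, sub_zero,
          smul_eq_mul]
        rw [Finset.sum_eq_single j]
        · rw [div_mul_cancel₀ _ (hneg j).ne, sub_self]
        · intro k _ hkj
          rw [(mu_zero g (K.nbr_ne F (fl t k)) _).2 (hNk k j (Ne.symm hkj)), mul_zero]
        · intro h
          exact absurd (Finset.mem_univ j) h
      · simp only [LinearMap.sub_apply, LinearMap.sum_apply, LinearMap.smul_apply,
          mu_o g hHF, mu_o g (K.nbr_ne F _), sub_self, smul_zero, Finset.sum_const_zero]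
    exact sub_eq_zero.1 key

end Pool.Agent.H77.EE
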