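import Mathlib
import Pool.Agent.H77.EE.Defs
import Pool.Agent.H77.EE.Comb
import Pool.Agent.H77.EE.GeoA
import Pool.Agent.H77.EE.RidgeM
import Pool.Agent.H77.IC.Defs

/-!
# MkCx: the complex of a polytope
-/

set_option autoImplicit false

open Set Module Pool.Agent.H77.IC

namespace Pool.Agent.H77.EE

theorem mk_cx {S : Finset E4} (hS : (interior (convexHull ℝ (S : Set E4))).Nonempty)
    (g : Geo S) : ∃ K : Cx (Fc S) E4, K.lab = g.lab := by
  classical
  choose nbr hn1 hn2 using fun (F : Fc S) (t : Fin 20) => ridge_exists hS g F t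
  choose tr pe hp1 hp2 using fun (F : Fc S) (t : Fin 20) => nbr_data g (hn1 F t) (hn2 F t)
  refine ⟨⟨g.lab, nbr, tr, pe, fun F => (g.lab_ok F).inj, hn1, ?_, hp1, hp2, ?_, ?_⟩, rfl⟩
  · intro F t t' h
    refine tri_inj g (hn1 F t) (hn2 F t) ?_
    rw [show nbr F t = nbr F t' from h]
    exact hn2 F t'
  · intro F t G hG h
    refine ridge_unique g hG (hn1 F t) ?_ (hn2 F t)
    intro k
    obtain ⟨i, hi⟩ := h k
    rw [← hi]
    exact lab_mem g G i
  · intro F G i j i' j' hi hj h
    exact edge_geo g hi hj h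

end Pool.Agent.H77.EE
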