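import Mathlib
import Pool.Agent.H77.EE.Defs
import Pool.Agent.H77.EE.Comb
import Pool.Agent.H77.EE.GeoA
import Pool.Agent.H77.EE.MuM
import Pool.Agent.H77.EE.LpM
import Pool.Agent.H77.EE.GenM
import Pool.Agent.H77.IC.Defs
import Pool.Agent.H77.IC.Facet

/-!
# MkSw: a sweep from a point

`Fc S` is finite (`facet_finite`). For small `ε > 0` the vector `u0 = (1 - ε) (z - o0)` satisfies
`a F u0 < 1` if `a F (z - o0) ≤ 1` and `a F u0 > 1` if `a F (z - o0) > 1`, for all `F`. `generic` with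
`A = {a F}` and `L` = all `a G - a F`, `F ≠ G` (not zero by `a_eq`: `F ≠ G` as sets) and all
`mu F H - mu F H'`, `H ≠ H'`, both different from `F` (not zero by `mu_inj`) gives `u`. Put
`h F = a F u - 1`, `b F G = mu F G u`. `b_neg`: `mu F G u = λ⁻¹ (a G u - a F u)`, `λ > 0` (`o_lt`). `lp`: `lp_geo`
evaluated at `u`.
-/

set_option autoImplicit false

open Set Module Pool.Agent.H77.IC

namespace Pool.Agent.H77.EE

private theorem mkSw_finite (S : Finset E4) : Finite (Fc S) :=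
  (facet_finite S).to_subtype

private theorem mkSw_eps {S : Finset E4} (g : Geo S) (z : E4) :
    ∃ u0 : E4, ∀ F, (g.a F u0 < 1 ↔ ¬ 1 < g.a F (z - g.o0)) ∧ g.a F u0 ≠ 1 := by
  haveI := mkSw_finite S
  have key : ∀ᶠ e : ℝ in nhdsWithin 0 (Set.Ioi 0), ∀ F : Fc S,
      ((1 - e) * g.a F (z - g.o0) < 1 ↔ ¬ 1 < g.a F (z - g.o0)) ∧
        (1 - e) * g.a F (z - g.o0) ≠ 1 := by
    rw [Filter.eventually_all]
    intro F
    by_cases h : 1 < g.a F (z - g.o0)
    · have hc : Filter.Tendsto (fun e : ℝ => (1 - e) * g.a F (z - g.o0)) (nhdsWithin 0 (Set.Ioi 0))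
          (nhds ((1 - 0) * g.a F (z - g.o0))) := by
        refine Filter.Tendsto.mono_left ?_ nhdsWithin_le_nhds
        exact (Continuous.tendsto (by fun_prop) 0)
      have h1 : (1 : ℝ) < (1 - 0) * g.a F (z - g.o0) := by rw [sub_zero, one_mul]; exact h
      filter_upwards [hc.eventually (lt_mem_nhds h1)] with e he
      exact ⟨⟨fun h2 => absurd h2 (not_lt.2 he.le), fun h2 => absurd h h2⟩, he.ne'⟩
    · have h1 : Set.Ioo (0 : ℝ) 1 ∈ nhdsWithin (0 : ℝ) (Set.Ioi 0) :=
        Ioo_mem_nhdsGT one_pos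
      filter_upwards [h1] with e he
      have h2 : (1 - e) * g.a F (z - g.o0) < 1 := by
        have h3 := not_lt.1 h
        have h4 := he.1
        have h5 := he.2
        nlinarith
      exact ⟨⟨fun _ => h, fun _ => h2⟩, h2.ne⟩
  obtain ⟨e, he⟩ := key.exists
  refine ⟨(1 - e) • (z - g.o0), fun F => ?_⟩
  rw [map_smul, smul_eq_mul]
  exact he F

private theorem mkSw_a_ne {S : Finset E4} (g : Geo S) {F G : Fc S} (h : F ≠ G) :
    g.a G - g.a F ≠ 0 := by
  intro h0
  have h1 : g.a G = g.a F := sub_eq_zero.1 h0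
  apply h
  apply Subtype.ext
  ext y
  constructor
  · intro hy
    have hP := F.2.1.subset hy
    rw [← g.a_eq G y hP, h1]
    exact (g.a_eq F y hP).2 hy
  · intro hy
    have hP := G.2.1.subset hy
    rw [← g.a_eq F y hP, ← h1]
    exact (g.a_eq G y hP).2 hy

theorem mk_sw {S : Finset E4} (g : Geo S) (K : Cx (Fc S) E4) (hK : K.lab = g.lab) (z : E4) :
    ∃ w : Sw K, ∀ F, w.h F < 0 ↔ ¬ 1 < g.a F (z - g.o0) := by
  classical
  haveI := mkSw_finite S
  obtain ⟨u0, hu0⟩ := mkSw_eps g z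
  obtain ⟨u, huL, huA⟩ := generic
    ((Set.finite_range (fun p : Fc S × Fc S => g.a p.2 - g.a p.1)).toFinset.filter (· ≠ 0) ∪
      (Set.finite_range (fun p : Fc S × Fc S × Fc S =>
        g.mu p.1 p.2.1 - g.mu p.1 p.2.2)).toFinset.filter (· ≠ 0))
    (Set.finite_range g.a).toFinset
    (by
      intro l hl
      rcases Finset.mem_union.1 hl with hl | hl
      · exact (Finset.mem_filter.1 hl).2
      · exact (Finset.mem_filter.1 hl).2) u0
    (by
      intro a ha
      rw [Set.Finite.mem_toFinset] at ha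
      obtain ⟨F, rfl⟩ := ha
      exact (hu0 F).2)
  have h1 : ∀ F G : Fc S, F ≠ G → g.a F u ≠ g.a G u := by
    intro F G h he
    refine huL (g.a G - g.a F) (Finset.mem_union_left _ (Finset.mem_filter.2
      ⟨(Set.Finite.mem_toFinset _).2 ⟨(F, G), rfl⟩, mkSw_a_ne g h⟩)) ?_
    rw [LinearMap.sub_apply, he, sub_self]
  have h2 : ∀ F G G' : Fc S, G ≠ F → G' ≠ F → g.mu F G u = g.mu F G' u → G = G' := by
    intro F G G' hG hG' he
    by_contra hne
    refine huL (g.mu F G - g.mu F G') (Finset.mem_union_right _ (Finset.mem_filter.2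
      ⟨(Set.Finite.mem_toFinset _).2 ⟨(F, G, G'), rfl⟩, ?_⟩)) ?_
    · intro h0
      exact hne (mu_inj g hG hG' (sub_eq_zero.1 h0))
    · rw [LinearMap.sub_apply, he, sub_self]
  refine ⟨⟨fun F => g.a F u - 1, fun F G => g.mu F G u, ?_, ?_, h2, ?_⟩, ?_⟩
  · intro F G he
    by_contra hne
    exact h1 F G hne (by simpa using he)
  · intro F G hG
    have hl : 0 < (1 - g.a G (g.o F - g.o0))⁻¹ := by
      rw [inv_pos, sub_pos]
      exact g.o_lt F G hG
    change (1 - g.a G (g.o F - g.o0))⁻¹ * (g.a G u - g.a F u) < 0 ↔ g.a G u - 1 < g.a F u - 1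
    rw [mul_neg_iff]
    constructor
    · rintro (⟨-, h⟩ | ⟨h, -⟩)
      · linarith
      · exact absurd h (not_lt.2 hl.le)
    · intro h
      exact Or.inl ⟨hl, by linarith⟩
  · intro F G t hG
    obtain ⟨c, hc0, hc1, h⟩ := lp_geo g K hK F G t hG
    refine ⟨c, hc0, hc1, ?_⟩
    have h3 := congrArg (fun l : E4 →ₗ[ℝ] ℝ => l u) h
    simpa [LinearMap.sub_apply, LinearMap.sum_apply, LinearMap.smul_apply] using h3
  · intro F
    change g.a F u - 1 < 0 ↔ _
    rw [sub_neg, huA (g.a F) ((Set.Finite.mem_toFinset _).2 ⟨F, rfl⟩)]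
    exact (hu0 F).1

end Pool.Agent.H77.EE
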