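import Mathlib
import Pool.Agent.H77.EE.Defs
import Pool.Agent.H77.EE.BdF
import Pool.Agent.H77.IC.Defs
import Pool.Agent.H77.IC.Facet

/-!
# Nvis: some facet is not visible

If `z = o0` then `a F (z - o0) = 0` for any facet (there is one: `boundary_facet` or
`vertex_in_facet`). Otherwise the half line `x s = o0 - s (z - o0)`, `s ≥ 0`, leaves the compact set
`P`; let `s` be the largest parameter with `x s ∈ P` (`IsCompact`, closed and bounded set of parameters;
as in `exit_face` of `Pool/Agent/H27/Content/Faces.lean`); `x s` is not interior; a facet `F` contains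
`x s`: `1 = a F (x s - o0) = - s a F (z - o0)`, so `a F (z - o0) < 0`.
-/

set_option autoImplicit false

open Set Module Pool.Agent.H77.IC

namespace Pool.Agent.H77.EE

private theorem Nvis_dir {S : Finset E4} (g : Geo S) (w : E4) (hw : w ≠ 0) :
    ∃ F : Fc S, ∃ s : ℝ, 0 < s ∧ s * g.a F w = 1 := by
  set P : Set E4 := convexHull ℝ (S : Set E4) with hP
  have hPc : IsCompact P := S.finite_toSet.isCompact_convexHull ℝ
  obtain ⟨R, hR⟩ := hPc.isBounded.subset_closedBall g.o0
  have hwn : 0 < ‖w‖ := norm_pos_iff.mpr hw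
  have h0P : g.o0 ∈ P := interior_subset g.o0_mem
  have hR0 : 0 ≤ R := by
    have := hR h0P
    rw [Metric.mem_closedBall, dist_self] at this
    exact this
  have hcont : Continuous fun s : ℝ => g.o0 + s • w := by fun_prop
  have hT : IsCompact (Icc (0 : ℝ) (R / ‖w‖ + 1) ∩ (fun s : ℝ => g.o0 + s • w) ⁻¹' P) :=
    isCompact_Icc.inter_right (hPc.isClosed.preimage hcont)
  have hne : (Icc (0 : ℝ) (R / ‖w‖ + 1) ∩ (fun s : ℝ => g.o0 + s • w) ⁻¹' P).Nonempty := by
    refine ⟨0, ⟨le_refl _, by positivity⟩, ?_⟩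
    simpa using h0P
  obtain ⟨s, hs, hmax⟩ := hT.exists_isGreatest hne
  have hsP : g.o0 + s • w ∈ P := hs.2
  have hsR : s ≤ R / ‖w‖ := by
    have h1 := hR hsP
    rw [Metric.mem_closedBall, dist_eq_norm, add_sub_cancel_left, norm_smul, Real.norm_eq_abs,
      abs_of_nonneg hs.1.1] at h1
    rwa [le_div_iff₀ hwn]
  have hni : g.o0 + s • w ∉ interior P := by
    intro hi
    have hopen : IsOpen ((fun s : ℝ => g.o0 + s • w) ⁻¹' interior P) :=
      isOpen_interior.preimage hcont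
    obtain ⟨ε, hε, hball⟩ := Metric.isOpen_iff.mp hopen s hi
    have hmem : s + min (ε / 2) 1 ∈ Metric.ball s ε := by
      rw [Metric.mem_ball, Real.dist_eq, add_sub_cancel_left, abs_of_pos (by positivity)]
      exact lt_of_le_of_lt (min_le_left _ _) (by linarith)
    have h2 : g.o0 + (s + min (ε / 2) 1) • w ∈ P := interior_subset (hball hmem)
    have h3 : 0 < min (ε / 2) 1 := by positivity
    have h4 : min (ε / 2) 1 ≤ 1 := min_le_right _ _
    have h5 : s + min (ε / 2) 1 ≤ s :=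
      hmax ⟨⟨by linarith [hs.1.1], by linarith⟩, h2⟩
    linarith
  obtain ⟨F, hF, hxF⟩ := boundary_facet S ⟨g.o0, g.o0_mem⟩ hsP hni
  have h1 : g.a ⟨F, hF⟩ (g.o0 + s • w - g.o0) = 1 := (g.a_eq ⟨F, hF⟩ _ hsP).mpr hxF
  rw [add_sub_cancel_left, map_smul, smul_eq_mul] at h1
  refine ⟨⟨F, hF⟩, s, ?_, h1⟩
  rcases hs.1.1.lt_or_eq with h | h
  · exact h
  · rw [← h] at h1
    simp at h1

theorem nvis {S : Finset E4} (g : Geo S) (z : E4) : ∃ F : Fc S, ¬ 1 < g.a F (z - g.o0) := by
  by_cases hz : z - g.o0 = 0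
  · obtain ⟨w, hw⟩ := exists_ne (0 : E4)
    obtain ⟨F, -, -, -⟩ := Nvis_dir g w hw
    refine ⟨F, ?_⟩
    rw [hz, map_zero]
    norm_num
  · obtain ⟨F, s, hs, h1⟩ := Nvis_dir g (-(z - g.o0)) (neg_ne_zero.mpr hz)
    refine ⟨F, ?_⟩
    rw [map_neg] at h1
    intro h
    nlinarith

end Pool.Agent.H77.EE
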