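import Mathlib
import Pool.Agent.H77.EE.Defs
import Pool.Agent.H77.EE.GeoM
import Pool.Agent.H77.EE.MkCx
import Pool.Agent.H77.EE.MkSw
import Pool.Agent.H77.EE.VisM
import Pool.Agent.H77.EE.Nvis
import Pool.Agent.H77.EE.EdT
import Pool.Agent.H77.EE.AdjM
import Pool.Agent.H77.EE.AbsV

/-!
# Main1: the isoperimetric inequality for an arbitrary point `z`; no condition on the edges at `v`
-/

set_option autoImplicit false

open Set Module Pool.Agent.H77.IC

namespace Pool.Agent.H77.EE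

theorem fc_finite (S : Finset E4) : Finite (Fc S) := (facet_finite S).to_subtype

theorem exc_flag {S : Finset E4} (g : Geo S) (K : Cx (Fc S) E4) (hK : K.lab = g.lab)
    (f : Fg (Fc S)) (h : ¬ 3 ∣ K.val (K.ed f)) :
    ∃ x y, Exc (convexHull ℝ (S : Set E4)) x y ∧ K.ed f = {x, y} ∧
      ∀ G : Fc S, (∀ z ∈ K.ed f, K.mem z G) ↔ (x ∈ G.1 ∧ y ∈ G.1) := by
  obtain ⟨x, y, he, hxy⟩ := ed_pair g K hK f
  have hx : x ∈ (convexHull ℝ (S : Set E4)).extremePoints ℝ :=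
    f.1.2.1.isExtreme.extremePoints_subset_extremePoints hxy.2.1
  have hy : y ∈ (convexHull ℝ (S : Set E4)).extremePoints ℝ :=
    f.1.2.1.isExtreme.extremePoints_subset_extremePoints hxy.2.2.1
  refine ⟨x, y, ⟨⟨f.1.1, f.1.2, hxy⟩, ?_⟩, he, ?_⟩
  · rw [← val_geo g K hK hx hy, ← he]
    exact h
  · intro G
    rw [he]
    constructor
    · intro h'
      exact ⟨(mem_geo g K hK hx G).1 (h' x (by simp)), (mem_geo g K hK hy G).1 (h' y (by simp))⟩
    · rintro ⟨h1, h2⟩ z hz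
      rcases hz with rfl | hz
      · exact (mem_geo g K hK hx G).2 h1
      · have hz' : z = y := hz
        subst hz'
        exact (mem_geo g K hK hy G).2 h2

theorem main1 (S : Finset E4) (hS : (interior (convexHull ℝ (S : Set E4))).Nonempty)
    (hI : ∀ F, IsFacet (convexHull ℝ (S : Set E4)) F → IsIco F) (z v : E4)
    (hz : ∀ x y, Exc (convexHull ℝ (S : Set E4)) x y → x ≠ v → y ≠ v →
      ∃ F, IsFacet (convexHull ℝ (S : Set E4)) F ∧
        Visible (convexHull ℝ (S : Set E4)) F z ∧ x ∈ F ∧ y ∈ F) :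
    10 * {F | IsFacet (convexHull ℝ (S : Set E4)) F ∧
        ¬ Visible (convexHull ℝ (S : Set E4)) F z}.ncard <
      {p : Set E4 × Set E4 | IsFacet (convexHull ℝ (S : Set E4)) p.1 ∧
        IsFacet (convexHull ℝ (S : Set E4)) p.2 ∧
        ¬ Visible (convexHull ℝ (S : Set E4)) p.1 z ∧
        Visible (convexHull ℝ (S : Set E4)) p.2 z ∧
        finrank ℝ (affineSpan ℝ (p.1 ∩ p.2)).direction = 2}.ncard := by
  classical
  have := fc_finite S
  obtain ⟨g⟩ := geo_exists S hS hI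
  obtain ⟨K, hK⟩ := mk_cx hS g
  obtain ⟨w, hw⟩ := mk_sw g K hK z
  have hw' : ∀ F : Fc S, w.h F < 0 ↔ ¬ Visible (convexHull ℝ (S : Set E4)) F.1 z := by
    intro F
    rw [hw F, vis_iff hS g F z]
  have hN : ∃ F, w.h F < 0 := by
    obtain ⟨F, hF⟩ := nvis g z
    exact ⟨F, (hw F).2 hF⟩
  have key := abs_main_v K w v hN (by
    intro f hvf hf
    by_contra hcon
    obtain ⟨x, y, hxy, he, hm⟩ := exc_flag g K hK f hcon
    have hxv : x ≠ v := by
      rintro rfl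
      exact hvf (by rw [he]; exact Or.inl rfl)
    have hyv : y ≠ v := by
      rintro rfl
      exact hvf (by rw [he]; exact Or.inr rfl)
    obtain ⟨F, hF, hv, hx, hy⟩ := hz x y hxy hxv hyv
    have h1 := hf ⟨F, hF⟩ ((hm ⟨F, hF⟩).2 ⟨hx, hy⟩)
    exact (hw' ⟨F, hF⟩).1 h1 hv)
  have e1 : {F : Fc S | w.h F < 0}.ncard = {F | IsFacet (convexHull ℝ (S : Set E4)) F ∧
        ¬ Visible (convexHull ℝ (S : Set E4)) F z}.ncard := by
    rw [← Set.ncard_image_of_injective _ (Subtype.val_injective (p := fun F : Set E4 =>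
      IsFacet (convexHull ℝ (S : Set E4)) F))]
    congr 1
    ext F
    constructor
    · rintro ⟨F', hF', rfl⟩
      exact ⟨F'.2, (hw' F').1 hF'⟩
    · rintro ⟨h1, h2⟩
      exact ⟨⟨F, h1⟩, (hw' ⟨F, h1⟩).2 h2, rfl⟩
  rw [e1] at key
  refine key.trans_le ?_
  refine Set.ncard_le_ncard_of_injOn
    (fun p : Fc S × Fin 20 => ((p.1.1, (K.nbr p.1 p.2).1) : Set E4 × Set E4)) ?_ ?_ ?_
  · rintro ⟨F, t⟩ ⟨h1, h2⟩
    refine ⟨F.2, (K.nbr F t).2, (hw' F).1 h1, ?_, adj_rank g K hK F t⟩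
    by_contra hcon
    exact h2 ((hw' _).2 hcon)
  · rintro ⟨F, t⟩ - ⟨F', t'⟩ - h
    simp only [Prod.mk.injEq] at h
    obtain ⟨h1, h2⟩ := h
    have h3 : F = F' := Subtype.ext h1
    subst h3
    have h4 := K.nbr_inj F (Subtype.ext h2)
    rw [h4]
  · refine ((facet_finite S).prod (facet_finite S)).subset ?_
    rintro ⟨F, G⟩ ⟨h1, h2, -⟩
    exact ⟨h1, h2⟩

end Pool.Agent.H77.EE
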