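import Mathlib
import Pool.Agent.H77.EE.Defs
import Pool.Agent.H77.EE.GeoM
import Pool.Agent.H77.EE.MkCx
import Pool.Agent.H77.EE.MkSw
import Pool.Agent.H77.EE.VisM
import Pool.Agent.H77.EE.Nvis
import Pool.Agent.H77.EE.Bey
import Pool.Agent.H77.EE.EdT
import Pool.Agent.H77.EE.Local
import Pool.Agent.H77.EE.CycG
import Pool.Agent.H77.EE.Main1
import Pool.Agent.H2.IR.EdgeP

/-!
# Main2: exceptional edges outside a facet, outside the star of a vertex, and at a vertex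
-/

set_option autoImplicit false

open Set Module Pool.Agent.H77.IC

namespace Pool.Agent.H77.EE

theorem exc_symm {P : Set E4} {x y : E4} (h : Exc P x y) : Exc P y x := by
  obtain ⟨⟨F, hF, hxy⟩, hv⟩ := h
  refine ⟨⟨F, hF, Pool.Agent.H2.IR.nb_symm hxy⟩, ?_⟩
  have e : val P y x = val P x y := by
    unfold val
    congr 1
    ext F
    constructor
    · rintro ⟨h1, h2, h3⟩
      exact ⟨h1, h3, h2⟩
    · rintro ⟨h1, h2, h3⟩
      exact ⟨h1, h3, h2⟩
  rw [e]
  exact hv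

/-- the graph of the exceptional edges -/
def exG (P : Set E4) : SimpleGraph E4 where
  Adj := Exc P
  symm := ⟨fun _ _ h => exc_symm h⟩
  loopless := ⟨fun _ h => by
    obtain ⟨⟨F, -, hxy⟩, -⟩ := h
    exact hxy.1 rfl⟩

section

variable (S : Finset E4) (hS : (interior (convexHull ℝ (S : Set E4))).Nonempty)
  (hI : ∀ F, IsFacet (convexHull ℝ (S : Set E4)) F → IsIco F)

include hS

/-- a sweep whose highest cell is `F0` -/
theorem top_sw (g : Geo S) (K : Cx (Fc S) E4) (hK : K.lab = g.lab) (F0 : Fc S) :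
    ∃ w : Sw K, ∀ F, w.h F < 0 ↔ F ≠ F0 := by
  obtain ⟨z, hz⟩ := beyond hS g (F0.2.1.subset (g.o_mem F0))
  obtain ⟨w, hw⟩ := mk_sw g K hK z
  refine ⟨w, fun F => ?_⟩
  rw [hw F, hz F]
  constructor
  · rintro h rfl
    exact h (g.o_mem F)
  · intro h hm
    have h1 := g.o_lt F0 F h
    have h2 := (g.a_eq F _ (F0.2.1.subset (g.o_mem F0))).2 hm
    linarith

include hI

theorem main2 {F0 : Set E4} (hF0 : IsFacet (convexHull ℝ (S : Set E4)) F0) (v : E4) :
    ∃ x y, Exc (convexHull ℝ (S : Set E4)) x y ∧ x ≠ v ∧ y ≠ v ∧ ¬ (x ∈ F0 ∧ y ∈ F0) := by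
  classical
  have := fc_finite S
  obtain ⟨g⟩ := geo_exists S hS hI
  obtain ⟨K, hK⟩ := mk_cx hS g
  obtain ⟨w, hw⟩ := top_sw S hS g K hK ⟨F0, hF0⟩
  have hcard : 4 ≤ Nat.card (Fc S) := by
    have h1 := Nat.card_le_card_of_injective _ (K.nbr_inj ⟨F0, hF0⟩)
    rw [Nat.card_eq_fintype_card, Fintype.card_fin] at h1
    omega
  obtain ⟨f, hf, hvf, hf'⟩ := abs_cell_v K w ⟨F0, hF0⟩ v hw hcard
  obtain ⟨x, y, hxy, he, hm⟩ := exc_flag g K hK f hf
  refine ⟨x, y, hxy, ?_, ?_, fun h => hf' ((hm ⟨F0, hF0⟩).2 h)⟩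
  · rintro rfl
    exact hvf (by rw [he]; exact Or.inl rfl)
  · rintro rfl
    exact hvf (by rw [he]; exact Or.inr rfl)

theorem main3 {v : E4} (hv : v ∈ (convexHull ℝ (S : Set E4)).extremePoints ℝ)
    (hc : 5 * {F | IsFacet (convexHull ℝ (S : Set E4)) F ∧ v ∈ F}.ncard ≤
      2 * f3 (convexHull ℝ (S : Set E4))) (u : E4) :
    ∃ x y, Exc (convexHull ℝ (S : Set E4)) x y ∧ x ≠ u ∧ y ≠ u ∧
      ∀ F, IsFacet (convexHull ℝ (S : Set E4)) F → v ∈ F → ¬ (x ∈ F ∧ y ∈ F) := by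
  classical
  have := fc_finite S
  obtain ⟨g⟩ := geo_exists S hS hI
  obtain ⟨K, hK⟩ := mk_cx hS g
  obtain ⟨z, hz⟩ := beyond hS g (extremePoints_subset hv)
  obtain ⟨w, hw⟩ := mk_sw g K hK z
  have hw' : ∀ F, w.h F < 0 ↔ ¬ K.mem v F := by
    intro F
    rw [hw F, hz F, mem_geo g K hK hv F]
  have e1 : {F : Fc S | K.mem v F}.ncard =
      {F | IsFacet (convexHull ℝ (S : Set E4)) F ∧ v ∈ F}.ncard := by
    rw [← Set.ncard_image_of_injective _ (Subtype.val_injective (p := fun F : Set E4 =>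
      IsFacet (convexHull ℝ (S : Set E4)) F))]
    congr 1
    ext F
    constructor
    · rintro ⟨F', hF', rfl⟩
      exact ⟨F'.2, (mem_geo g K hK hv F').1 hF'⟩
    · rintro ⟨h1, h2⟩
      exact ⟨⟨F, h1⟩, (mem_geo g K hK hv ⟨F, h1⟩).2 h2, rfl⟩
  have e2 : Nat.card (Fc S) = f3 (convexHull ℝ (S : Set E4)) := by
    unfold f3
    exact Nat.card_coe_set_eq _
  have hc' : 5 * {F | K.mem v F}.ncard ≤ 2 * Nat.card (Fc S) := by
    rw [e1, e2]
    exact hc
  have hne : ∃ F, ¬ K.mem v F := by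
    by_contra hcon
    push Not at hcon
    have h1 : {F : Fc S | K.mem v F} = Set.univ := by
      ext F
      simp [hcon F]
    rw [h1, Set.ncard_univ] at hc'
    obtain ⟨F, -⟩ := nvis g z
    have : Nonempty (Fc S) := ⟨F⟩
    have h2 : 0 < Nat.card (Fc S) := Nat.card_pos
    omega
  obtain ⟨f, hf, huf, hf'⟩ := abs_vertex_v K w v u hw' hne hc'
  obtain ⟨x, y, hxy, he, hm⟩ := exc_flag g K hK f hf
  have hxu : x ≠ u := by
    rintro rfl
    exact huf (by rw [he]; exact Or.inl rfl)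
  have hyu : y ≠ u := by
    rintro rfl
    exact huf (by rw [he]; exact Or.inr rfl)
  refine ⟨x, y, hxy, hxu, hyu, fun F hF hvF hF' => ?_⟩
  exact hf' ⟨F, hF⟩ ((hm ⟨F, hF⟩).2 hF') ((mem_geo g K hK hv ⟨F, hF⟩).2 hvF)

theorem main4 (x : E4) : {y | Exc (convexHull ℝ (S : Set E4)) x y}.ncard ≠ 1 := by
  classical
  intro h1
  have := fc_finite S
  obtain ⟨g⟩ := geo_exists S hS hI
  obtain ⟨K, hK⟩ := mk_cx hS g
  obtain ⟨y0, hy0⟩ := Set.ncard_eq_one.1 h1
  have hex : Exc (convexHull ℝ (S : Set E4)) x y0 := by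
    have : y0 ∈ {y | Exc (convexHull ℝ (S : Set E4)) x y} := by rw [hy0]; rfl
    exact this
  have huniq : ∀ y, Exc (convexHull ℝ (S : Set E4)) x y → y = y0 := by
    intro y hy
    have : y ∈ {y | Exc (convexHull ℝ (S : Set E4)) x y} := hy
    rw [hy0] at this
    exact this
  obtain ⟨⟨F1, hF1, hnb⟩, hv⟩ := hex
  obtain ⟨f1, hf1, hed⟩ := pair_ed g K hK (F := ⟨F1, hF1⟩) hnb
  obtain ⟨w, hw⟩ := top_sw S hS g K hK ⟨F1, hF1⟩
  have hx : x ∈ (convexHull ℝ (S : Set E4)).extremePoints ℝ :=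
    hF1.1.isExtreme.extremePoints_subset_extremePoints hnb.2.1
  have hy : y0 ∈ (convexHull ℝ (S : Set E4)).extremePoints ℝ :=
    hF1.1.isExtreme.extremePoints_subset_extremePoints hnb.2.2.1
  apply hv
  rw [← val_geo g K hK hx hy, ← hed]
  refine local_main K w f1 (v := x) ?_ ?_ ?_
  · rw [hed]
    simp
  · intro G
    rw [hf1]
    by_cases hG : G = ⟨F1, hF1⟩
    · rw [hG]
    · have h2 := (hw G).2 hG
      have h3 : ¬ w.h ⟨F1, hF1⟩ < 0 := fun h => (hw _).1 h rfl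
      linarith [not_lt.1 h3]
  · intro f hxf hne
    by_contra hcon
    obtain ⟨x', y', hxy, he, -⟩ := exc_flag g K hK f hcon
    apply hne
    rw [hed]
    rw [he] at hxf ⊢
    rcases hxf with rfl | h2
    · rw [huniq _ hxy]
    · have h2 : x = y' := h2
      subst h2
      rw [huniq _ (exc_symm hxy), Set.pair_comm]

theorem main5 : ¬ (exG (convexHull ℝ (S : Set E4))).IsAcyclic := by
  classical
  have hfin : {v | ∃ w, Exc (convexHull ℝ (S : Set E4)) v w}.Finite := by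
    refine (ext_finite S).subset ?_
    rintro v ⟨w, ⟨F, hF, hnb⟩, -⟩
    exact hF.1.isExtreme.extremePoints_subset_extremePoints hnb.2.1
  have hfin' : ∀ v, {w | Exc (convexHull ℝ (S : Set E4)) v w}.Finite := by
    intro v
    refine (ext_finite S).subset ?_
    rintro w ⟨⟨F, hF, hnb⟩, -⟩
    exact hF.1.isExtreme.extremePoints_subset_extremePoints hnb.2.2.1
  refine not_acyclic _ hfin ?_ ?_
  · obtain ⟨g⟩ := geo_exists S hS hI
    obtain ⟨F, -⟩ := nvis g 0
    obtain ⟨x, y, hxy, -⟩ := main2 S hS hI F.2 0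
    exact ⟨x, y, hxy⟩
  · intro v w hvw
    by_contra hcon
    push Not at hcon
    apply main4 S hS hI v
    rw [Set.ncard_eq_one]
    refine ⟨w, ?_⟩
    ext y
    constructor
    · intro hy
      by_contra hne
      exact hcon y hne hy
    · intro hy
      have hy : y = w := hy
      rw [hy]
      exact hvw

end

end Pool.Agent.H77.EE
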